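import Mathlib

set_option autoImplicit false

/-!
Library for MP_3c862c_nt: the discrete integration of the recursion (`an`).
-/

namespace Pool.Agent.WR

open MeasureTheory intervalIntegral

/-- the integrand -/
noncomputable def anG (θ t : ℝ) : ℝ := (√t ^ 2 + √t + θ)⁻¹

/-- its primitive -/
noncomputable def anPhi (θ u : ℝ) : ℝ := ∫ t in (0 : ℝ)..u, anG θ t

theorem anG_cont (θ : ℝ) (h0 : 0 < θ) : Continuous (anG θ) := by
  unfold anG
  refine Continuous.inv₀ (by fun_prop) ?_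
  intro t
  have := Real.sqrt_nonneg t
  positivity

theorem anG_int (θ : ℝ) (h0 : 0 < θ) (a b : ℝ) : IntervalIntegrable (anG θ) volume a b :=
  (anG_cont θ h0).intervalIntegrable a b

theorem anG_pos (θ : ℝ) (h0 : 0 < θ) (t : ℝ) : 0 < anG θ t := by
  unfold anG
  have := Real.sqrt_nonneg t
  positivity

theorem anG_le (θ : ℝ) (h0 : 0 < θ) (t : ℝ) : anG θ t ≤ θ⁻¹ := by
  unfold anG
  have := Real.sqrt_nonneg t
  apply inv_anti₀ h0
  nlinarith

theorem anG_anti (θ : ℝ) (h0 : 0 < θ) (s t : ℝ) (h : s ≤ t) : anG θ t ≤ anG θ s := by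
  unfold anG
  have h1 := Real.sqrt_nonneg s
  have h2 := Real.sqrt_le_sqrt h
  apply inv_anti₀ (by positivity)
  nlinarith

theorem anPhi_sub (θ : ℝ) (h0 : 0 < θ) (u u' : ℝ) :
    anPhi θ u' - anPhi θ u = ∫ t in u..u', anG θ t :=
  intervalIntegral.integral_interval_sub_left (anG_int θ h0 _ _) (anG_int θ h0 _ _)

theorem anPhi_lower (θ : ℝ) (h0 : 0 < θ) (u u' : ℝ) (h : u ≤ u') :
    (u' - u) * anG θ u' ≤ anPhi θ u' - anPhi θ u := by
  rw [anPhi_sub θ h0]
  have := intervalIntegral.integral_mono_on (μ := volume) h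
    (intervalIntegrable_const (c := anG θ u')) (anG_int θ h0 u u')
    (fun x hx => anG_anti θ h0 x u' hx.2)
  simpa using this

theorem anPhi_upper (θ : ℝ) (h0 : 0 < θ) (u u' : ℝ) (h : u ≤ u') :
    anPhi θ u' - anPhi θ u ≤ (u' - u) * θ⁻¹ := by
  rw [anPhi_sub θ h0]
  have := intervalIntegral.integral_mono_on (μ := volume) h
    (anG_int θ h0 u u') (intervalIntegrable_const (c := θ⁻¹))
    (fun x hx => anG_le θ h0 x)
  simpa using this

theorem anPhi_mono (θ : ℝ) (h0 : 0 < θ) (u u' : ℝ) (h : u ≤ u') : anPhi θ u ≤ anPhi θ u' := by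
  have := anPhi_lower θ h0 u u' h
  have h2 := anG_pos θ h0 u'
  have : 0 ≤ (u' - u) * anG θ u' := mul_nonneg (by linarith) h2.le
  linarith

theorem anPhi_log (θ : ℝ) (h0 : 0 < θ) (u u' : ℝ) (hu : 0 ≤ u) (h : u ≤ u') (h1 : u' ≤ 1) :
    Real.log (u' + 1 + θ) - Real.log (u + 1 + θ) ≤ anPhi θ u' - anPhi θ u := by
  rw [anPhi_sub θ h0]
  have e : Real.log (u' + 1 + θ) - Real.log (u + 1 + θ) = ∫ t in u..u', (t + 1 + θ)⁻¹ := by
    have hd : ∀ x ∈ Set.uIcc u u', HasDerivAt (fun t => Real.log (t + 1 + θ)) ((x + 1 + θ)⁻¹) x := by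
      intro x hx
      rw [Set.uIcc_of_le h] at hx
      have h3 : x + 1 + θ ≠ 0 := by have := hx.1; exact ne_of_gt (by linarith)
      have h4 : HasDerivAt (fun t : ℝ => t + 1 + θ) 1 x :=
        ((hasDerivAt_id x).add_const 1).add_const θ
      have := h4.log h3
      simpa using this
    have hc : IntervalIntegrable (fun x => (x + 1 + θ)⁻¹) volume u u' := by
      apply ContinuousOn.intervalIntegrable
      apply ContinuousOn.inv₀ (by fun_prop)
      intro x hx
      rw [Set.uIcc_of_le h] at hx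
      have := hx.1; exact ne_of_gt (by linarith)
    exact (intervalIntegral.integral_eq_sub_of_hasDerivAt hd hc).symm
  rw [e]
  apply intervalIntegral.integral_mono_on (μ := volume) h _ (anG_int θ h0 u u')
  · intro x hx
    unfold anG
    have hx0 : 0 ≤ x := le_trans hu hx.1
    have hx1 : x ≤ 1 := le_trans hx.2 h1
    have h3 : √x ≤ 1 := by rw [← Real.sqrt_one]; exact Real.sqrt_le_sqrt hx1
    have h4 := Real.sqrt_nonneg x
    have h5 : √x ^ 2 = x := Real.sq_sqrt hx0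
    apply inv_anti₀ (by positivity)
    rw [h5]; linarith
  · apply ContinuousOn.intervalIntegrable
    apply ContinuousOn.inv₀ (by fun_prop)
    intro x hx
    rw [Set.uIcc_of_le h] at hx
    have := hx.1; exact ne_of_gt (by linarith)

theorem anPhi_subst (θ b : ℝ) (h0 : 0 < θ) (hb : 0 ≤ b) :
    2 * ∫ x in (0 : ℝ)..√b, x / (x ^ 2 + x + θ) = anPhi θ b := by
  have := intervalIntegral.integral_comp_mul_deriv (a := 0) (b := √b) (f := fun x : ℝ => x ^ 2)
    (f' := fun x : ℝ => 2 * x) (g := anG θ) (by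
      intro x _
      have := hasDerivAt_pow 2 x
      simpa using this) (by fun_prop) (anG_cont θ h0)
  simp only [Real.sq_sqrt hb, ne_eq, OfNat.ofNat_ne_zero, not_false_eq_true, zero_pow] at this
  unfold anPhi
  rw [← this, ← intervalIntegral.integral_const_mul]
  apply intervalIntegral.integral_congr
  intro x hx
  rw [Set.uIcc_of_le (Real.sqrt_nonneg b)] at hx
  have hx0 : 0 ≤ x := hx.1
  simp only [Function.comp, anG]
  rw [Real.sqrt_sq hx0]
  field_simp

theorem an_step (θ x D r r' : ℝ) (h0 : 2 / 3 ≤ θ) (h1 : θ < 1) (hD : 1 ≤ D) (hx : D + 1 ≤ x)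
    (hr : 0 ≤ r) (hr' : r' ≤ (x - 1) ^ 2)
    (h : r + 2 * √r + θ * (2 * x - 1) - 2 ≤ r') :
    2 * Real.log ((x + 1) / x) ≤ (anPhi θ (r' / (x - 1) ^ 2) - anPhi θ (r / x ^ 2)) +
      2 / (θ * D) * (√(r' / (x - 1) ^ 2) - √(r / x ^ 2)) + 4 / θ * (1 / (x - 1) - 1 / x) := by
  have hθ : 0 < θ := by linarith
  have hx2 : 2 ≤ x := by linarith
  have hx1 : 0 < x - 1 := by linarith
  have hxp : 0 < x := by linarith
  have hsr := Real.sqrt_nonneg r
  have hrr : r ≤ r' := by nlinarith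
  have hr'0 : 0 ≤ r' := by linarith
  have hu0 : 0 ≤ r / x ^ 2 := by positivity
  have hu'0 : 0 ≤ r' / (x - 1) ^ 2 := by positivity
  have hu1 : r' / (x - 1) ^ 2 ≤ 1 := by
    rw [div_le_one (by positivity)]; exact hr'
  have huu : r / x ^ 2 ≤ r' / (x - 1) ^ 2 :=
    div_le_div₀ hr'0 hrr (by positivity) (by nlinarith)
  have er : r = (r / x ^ 2) * x ^ 2 := by field_simp
  have er' : r' = (r' / (x - 1) ^ 2) * (x - 1) ^ 2 := by field_simp
  generalize r / x ^ 2 = u at *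
  generalize r' / (x - 1) ^ 2 = u' at *
  have hlow := anPhi_lower θ hθ u u' huu
  have hg : anG θ u' = (√u' ^ 2 + √u' + θ)⁻¹ := rfl
  have ha0 := Real.sqrt_nonneg u
  have hb0 := Real.sqrt_nonneg u'
  have ha := Real.sq_sqrt hu0
  have hb := Real.sq_sqrt hu'0
  have hab := Real.sqrt_le_sqrt huu
  have sr : √r = √u * x := by
    rw [er, Real.sqrt_mul hu0, Real.sqrt_sq hxp.le]
  rw [sr, er, er'] at h
  generalize hA : √u = a at *
  generalize hB : √u' = b at *
  have hq1 : anG θ u' * (b ^ 2 + b + θ) = 1 := by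
    rw [hg]; field_simp
  have hq2 := anG_le θ hθ u'
  have hq3 := anG_pos θ hθ u'
  generalize anG θ u' = q at *
  have key : 2 * x * (b ^ 2 + b + θ) - 2 * x * (b - a) - (b ^ 2 + θ + 2) ≤ x ^ 2 * (b ^ 2 - a ^ 2) := by
    rw [← ha, ← hb] at h
    nlinarith
  have k1 : 2 * x - 2 * x * (b - a) * θ⁻¹ - 4 * θ⁻¹ ≤ x ^ 2 * (b ^ 2 - a ^ 2) * q := by
    have k2 := mul_le_mul_of_nonneg_right key hq3.le
    have k3 : (2 * x * (b ^ 2 + b + θ) - 2 * x * (b - a) - (b ^ 2 + θ + 2)) * q =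
        2 * x - 2 * x * (b - a) * q - (b ^ 2 + θ + 2) * q := by
      linear_combination (2 * x) * hq1
    have k4 : 2 * x * (b - a) * q ≤ 2 * x * (b - a) * θ⁻¹ :=
      mul_le_mul_of_nonneg_left hq2 (mul_nonneg (by positivity) (by linarith))
    have k5 : (b ^ 2 + θ + 2) * q ≤ 4 * θ⁻¹ := by
      apply mul_le_mul _ hq2 hq3.le (by norm_num)
      rw [hb]; linarith
    linarith
  have k6 : 2 / x - 2 * (b - a) * θ⁻¹ / x - 4 * θ⁻¹ / x ^ 2 ≤ (u' - u) * q := by
    have e1 : 2 / x - 2 * (b - a) * θ⁻¹ / x - 4 * θ⁻¹ / x ^ 2 =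
        (2 * x - 2 * x * (b - a) * θ⁻¹ - 4 * θ⁻¹) / x ^ 2 := by field_simp
    rw [e1, div_le_iff₀ (by positivity), ← ha, ← hb]
    linarith
  have k7 : 2 * (b - a) * θ⁻¹ / x ≤ 2 / (θ * D) * (b - a) := by
    have e2 : 2 / (θ * D) * (b - a) = 2 * (b - a) * θ⁻¹ / D := by field_simp
    rw [e2]
    apply div_le_div_of_nonneg_left _ (by linarith) (by linarith)
    have : 0 ≤ b - a := by linarith
    positivity
  have k8 : 4 * θ⁻¹ / x ^ 2 ≤ 4 / θ * (1 / (x - 1) - 1 / x) := by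
    have e3 : 4 / θ * (1 / (x - 1) - 1 / x) = 4 * θ⁻¹ / (x * (x - 1)) := by
      field_simp; ring
    rw [e3]
    apply div_le_div_of_nonneg_left (by positivity) (by positivity)
    nlinarith
  have k9 : 2 * Real.log ((x + 1) / x) ≤ 2 / x := by
    have := Real.log_le_sub_one_of_pos (show 0 < (x + 1) / x by positivity)
    have e4 : (x + 1) / x - 1 = 1 / x := by field_simp; ring
    rw [e4] at this
    have e5 : 2 / x = 2 * (1 / x) := by ring
    rw [e5]; linarith
  linarith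

theorem an_nonneg (θ : ℝ) (h0 : 2 / 3 ≤ θ) (d M : ℕ) (R : ℕ → ℝ) (hd : 1 ≤ d)
    (hRM : 0 ≤ R M)
    (hstep : ∀ m : ℕ, d < m → m ≤ M → 0 ≤ R m →
        R m + 2 * √(R m) + θ * (2 * m - 1) - 2 ≤ R (m - 1)) :
    ∀ k : ℕ, k + d ≤ M → 0 ≤ R (M - k) := by
  intro k
  induction k with
  | zero => intro _; simpa using hRM
  | succ k ih =>
    intro hk
    have h1 := ih (by omega)
    have h2 := hstep (M - k) (by omega) (by omega) h1
    have h3 : M - (k + 1) = M - k - 1 := by omega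
    rw [h3]
    have h4 := Real.sqrt_nonneg (R (M - k))
    have h5 : (2 : ℝ) ≤ ((M - k : ℕ) : ℝ) := by
      exact_mod_cast (by omega : 2 ≤ M - k)
    nlinarith

theorem an_sum (θ : ℝ) (h0 : 2 / 3 ≤ θ) (h1 : θ < 1) (d M : ℕ) (R : ℕ → ℝ) (hd : 1 ≤ d)
    (hM : d ≤ M) (hRM : 0 ≤ R M) (hRd : R d ≤ (d : ℝ) ^ 2)
    (hstep : ∀ m : ℕ, d < m → m ≤ M → 0 ≤ R m →
        R m + 2 * √(R m) + θ * (2 * m - 1) - 2 ≤ R (m - 1)) :
    2 * Real.log ((M + 1) / (d + 1)) ≤ anPhi θ (R d / (d : ℝ) ^ 2) + 6 / (θ * d) := by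
  have hθ : 0 < θ := by linarith
  have hdr : (1 : ℝ) ≤ d := by exact_mod_cast hd
  have hnn : ∀ m, d ≤ m → m ≤ M → 0 ≤ R m := by
    intro m hm1 hm2
    have := an_nonneg θ h0 d M R hd hRM hstep (M - m) (by omega)
    rwa [show M - (M - m) = m by omega] at this
  have hst : ∀ m, d ≤ m → m + 1 ≤ M → R (m + 1) ≤ R m := by
    intro m hm1 hm2
    have h2 := hstep (m + 1) (by omega) hm2 (hnn _ (by omega) hm2)
    have h3 := Real.sqrt_nonneg (R (m + 1))
    have h5 : (1 : ℝ) ≤ (m : ℝ) := by exact_mod_cast (by omega : 1 ≤ m)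
    simp only [Nat.add_sub_cancel] at h2
    push_cast at h2
    nlinarith
  have hle : ∀ m, d ≤ m → m ≤ M → R m ≤ R d := by
    intro m hm
    induction m, hm using Nat.le_induction with
    | base => intro _; exact le_rfl
    | succ m hm ih => intro h; exact le_trans (hst m hm h) (ih (by omega))
  have hsum : ∀ m, d ≤ m → m ≤ M → 2 * Real.log (((m : ℝ) + 1) / (d + 1)) ≤
      (anPhi θ (R d / (d : ℝ) ^ 2) - anPhi θ (R m / (m : ℝ) ^ 2)) +
      2 / (θ * d) * (√(R d / (d : ℝ) ^ 2) - √(R m / (m : ℝ) ^ 2)) + 4 / θ * (1 / (d : ℝ) - 1 / m) := by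
    intro m hm
    induction m, hm using Nat.le_induction with
    | base =>
      intro _
      have : ((d : ℝ) + 1) / (d + 1) = 1 := div_self (by positivity)
      rw [this]; simp
    | succ m hm ih =>
      intro h
      have ih' := ih (by omega)
      have hmr : (d : ℝ) ≤ m := by exact_mod_cast hm
      have hm0 : (0 : ℝ) < m := by linarith
      have h2 := hstep (m + 1) (by omega) h (hnn _ (by omega) h)
      simp only [Nat.add_sub_cancel] at h2
      have h3 := an_step θ ((m : ℝ) + 1) d (R (m + 1)) (R m) h0 h1 hdr (by linarith)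
        (hnn _ (by omega) h) (by
          have := hle m hm (by omega)
          have h4 : (m : ℝ) + 1 - 1 = m := by ring
          rw [h4]
          nlinarith) (by
          push_cast at h2
          linarith)
      have h4 : (m : ℝ) + 1 - 1 = m := by ring
      rw [h4] at h3
      have h5 : Real.log (((m : ℝ) + 1 + 1) / (d + 1)) = Real.log (((m : ℝ) + 1 + 1) / (m + 1)) +
          Real.log (((m : ℝ) + 1) / (d + 1)) := by
        rw [← Real.log_mul (by positivity) (by positivity)]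
        congr 1
        field_simp
      push_cast
      rw [h5]
      linarith
  have hfin := hsum M hM le_rfl
  have hMr : (d : ℝ) ≤ M := by exact_mod_cast hM
  have hM0 : (0 : ℝ) < M := by linarith
  have a1 : 0 ≤ anPhi θ (R M / (M : ℝ) ^ 2) := by
    have h := anPhi_mono θ hθ 0 (R M / (M : ℝ) ^ 2) (by positivity)
    have e : anPhi θ 0 = 0 := by simp [anPhi]
    linarith
  have a2 := Real.sqrt_nonneg (R M / (M : ℝ) ^ 2)
  have a3 : √(R d / (d : ℝ) ^ 2) ≤ 1 := by
    rw [← Real.sqrt_one]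
    apply Real.sqrt_le_sqrt
    rw [div_le_one (by positivity)]; exact hRd
  have a4 : 2 / (θ * d) * (√(R d / (d : ℝ) ^ 2) - √(R M / (M : ℝ) ^ 2)) ≤ 2 / (θ * d) := by
    have : 0 < 2 / (θ * d) := by positivity
    nlinarith
  have a5 : 4 / θ * (1 / (d : ℝ) - 1 / M) ≤ 4 / (θ * d) := by
    have e : 4 / (θ * d) = 4 / θ * (1 / (d : ℝ)) := by field_simp
    rw [e]
    apply mul_le_mul_of_nonneg_left _ (by positivity)
    have : 0 < 1 / (M : ℝ) := by positivity
    linarith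
  have a6 : 2 / (θ * d) + 4 / (θ * d) = 6 / (θ * d) := by ring
  linarith

/-- W-ANALYSIS -/
theorem an (θ : ℝ) (h0 : 2 / 3 ≤ θ) (h1 : θ < 1)
    (hI : ∫ x in (0 : ℝ)..√((1 + θ) / 3), x / (x ^ 2 + x + θ) <
      Real.log (2 * (1 + θ) / (3 * θ)) / 2) :
    ∃ D₀ : ℕ, ∀ d : ℕ, D₀ ≤ d → ∀ (X : ℝ) (M : ℕ) (R : ℕ → ℝ),
      (d : ℝ) ^ 2 - d ≤ X → X ≤ 2 * (1 + θ) / 3 * (d : ℝ) ^ 2 + d →
      (θ * M + 1) * M ≤ X - 1 → X - 1 < (θ * (M + 1) + 1) * (M + 1) → 0 ≤ R M →
      (∀ m : ℕ, d < m → m ≤ M → 0 ≤ R m →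
        R m + 2 * √(R m) + θ * (2 * m - 1) - 2 ≤ R (m - 1)) →
      2 * X - (1 + θ) * (d : ℝ) ^ 2 + 1 < R d := by
  have hθ : 0 < θ := by linarith
  have hb0 : 0 ≤ (1 + θ) / 3 := by positivity
  have hI' := anPhi_subst θ ((1 + θ) / 3) hθ hb0
  have hδ : 0 < Real.log (2 * (1 + θ) / (3 * θ)) - anPhi θ ((1 + θ) / 3) := by linarith
  obtain ⟨b, hb⟩ : ∃ b, b = (1 + θ) / 3 := ⟨_, rfl⟩
  rw [← hb] at hδ hb0
  obtain ⟨δ, hδe⟩ : ∃ δ, δ = Real.log (2 * (1 + θ) / (3 * θ)) - anPhi θ b := ⟨_, rfl⟩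
  rw [← hδe] at hδ
  refine ⟨max 10 (max (⌈25 / δ⌉₊ + 1) ⌈3 / (1 - θ)⌉₊), ?_⟩
  intro d hd X M R hX1 hX2 hM1 hM2 hRM hstep
  have hd10 : 10 ≤ d := le_trans (le_max_left _ _) hd
  have hd2 : ⌈25 / δ⌉₊ + 1 ≤ d := le_trans (le_trans (le_max_left _ _) (le_max_right _ _)) hd
  have hd3 : ⌈3 / (1 - θ)⌉₊ ≤ d := le_trans (le_trans (le_max_right _ _) (le_max_right _ _)) hd
  obtain ⟨D, hD⟩ : ∃ D : ℝ, D = (d : ℝ) := ⟨_, rfl⟩
  have hD10 : (10 : ℝ) ≤ D := by rw [hD]; exact_mod_cast hd10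
  have hD2 : 25 < δ * D := by
    have h2 : 25 / δ < D := by
      have := Nat.le_ceil (25 / δ)
      have h3 : ((⌈25 / δ⌉₊ : ℕ) : ℝ) + 1 ≤ D := by rw [hD]; exact_mod_cast hd2
      linarith
    rw [div_lt_iff₀ hδ] at h2
    linarith
  have hD3 : 3 ≤ (1 - θ) * D := by
    have h2 : 3 / (1 - θ) ≤ D := by
      have := Nat.le_ceil (3 / (1 - θ))
      have h3 : ((⌈3 / (1 - θ)⌉₊ : ℕ) : ℝ) ≤ D := by rw [hD]; exact_mod_cast hd3
      linarith
    rw [div_le_iff₀ (by linarith)] at h2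
    linarith
  have hMd : d ≤ M := by
    by_contra hc
    have h2 : (M : ℝ) + 1 ≤ D := by rw [hD]; exact_mod_cast (by omega : M + 1 ≤ d)
    have h3 : (0 : ℝ) ≤ M := Nat.cast_nonneg M
    have h4 : (θ * (M + 1) + 1) * (M + 1) ≤ (θ * D + 1) * D := by
      apply mul_le_mul _ h2 (by positivity) (by positivity)
      have := mul_le_mul_of_nonneg_left h2 hθ.le
      linarith
    rw [← hD] at hX1
    have h5 := mul_le_mul_of_nonneg_right hD3 (by linarith : 0 ≤ D)
    nlinarith only [h5, hX1, hM2, h4, hD10]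
  by_contra hcon
  push Not at hcon
  have hRd0 : 0 ≤ R d := by
    have := an_nonneg θ h0 d M R (by omega) hRM hstep (M - d) (by omega)
    rwa [show M - (M - d) = d by omega] at this
  rw [← hD] at hX1 hX2 hcon
  have hDp : 0 < D := by linarith
  obtain ⟨U, hU⟩ : ∃ U, U = 2 * X / D ^ 2 - (1 + θ) + 1 / D ^ 2 := ⟨_, rfl⟩
  have hUX : U * D ^ 2 = 2 * X - (1 + θ) * D ^ 2 + 1 := by
    rw [hU]; field_simp
  have hRU : R d / D ^ 2 ≤ U := by
    rw [div_le_iff₀ (by positivity)]; linarith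
  have hU0 : 0 ≤ U := le_trans (by positivity) hRU
  have hi1 : 1 / D ≤ 1 / 10 := one_div_le_one_div_of_le (by norm_num) hD10
  have hi0 : 0 < 1 / D := by positivity
  have hi2 : 1 / D ^ 2 ≤ 1 / 10 * (1 / D) := by
    have : 1 / D ^ 2 = 1 / D * (1 / D) := by field_simp
    rw [this]
    exact mul_le_mul_of_nonneg_right hi1 hi0.le
  have hUb : U ≤ b + 3 * (1 / D) := by
    have : 2 * X / D ^ 2 ≤ 4 * (1 + θ) / 3 + 2 * (1 / D) := by
      rw [div_le_iff₀ (by positivity)]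
      have e : (4 * (1 + θ) / 3 + 2 * (1 / D)) * D ^ 2 = 2 * (2 * (1 + θ) / 3 * D ^ 2 + D) := by
        field_simp; ring
      rw [e]; linarith
    rw [hU, hb]
    linarith
  have hU1 : U ≤ 1 := by rw [hb] at hUb; linarith
  have hs := an_sum θ h0 h1 d M R (by omega) hMd hRM (by
    rw [← hD]
    have h5 := mul_le_mul_of_nonneg_right hU1 (by positivity : 0 ≤ D ^ 2)
    linarith) hstep
  rw [← hD] at hs
  have hs2 := anPhi_mono θ hθ _ _ hRU
  have hs3 : 6 / (θ * D) ≤ 9 * (1 / D) := by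
    rw [div_le_iff₀ (by positivity)]
    have e : 9 * (1 / D) * (θ * D) = 9 * θ := by field_simp
    rw [e]; linarith
  -- lower bound of the logarithm
  obtain ⟨t, ht⟩ : ∃ t : ℝ, t = (M : ℝ) + 1 := ⟨_, rfl⟩
  have htD : D + 1 ≤ t := by
    rw [ht, hD]; have : (d : ℝ) ≤ M := by exact_mod_cast hMd
    linarith
  rw [← ht] at hs hM2
  have htp : 0 < t := by linarith
  have hX0 : 0 < X - 1 := by
    have : 10 * D ≤ D ^ 2 := by nlinarith only [hD10]
    linarith
  have ht2 : (X - 1) / (θ + 1 / D) ≤ t ^ 2 := by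
    rw [div_le_iff₀ (by positivity)]
    have e : t ≤ t ^ 2 * (1 / D) := by
      have e2 : t ^ 2 * (1 / D) = t * (t / D) := by field_simp
      rw [e2]
      have e3 : 1 ≤ t / D := by rw [le_div_iff₀ hDp]; linarith
      exact le_mul_of_one_le_right htp.le e3
    have e3 : (θ * t + 1) * t = t ^ 2 * θ + t := by ring
    have e4 : t ^ 2 * (θ + 1 / D) = t ^ 2 * θ + t ^ 2 * (1 / D) := by ring
    linarith
  have hlog1 : Real.log (X - 1) - Real.log (θ + 1 / D) - 2 * Real.log (D + 1) ≤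
      2 * Real.log (t / (D + 1)) := by
    have e1 : 0 < (X - 1) / (θ + 1 / D) := by positivity
    have e2 := Real.log_le_log e1 ht2
    rw [Real.log_div (by positivity) (by positivity), Real.log_pow] at e2
    rw [Real.log_div (by positivity) (by positivity)]
    push_cast at e2
    linarith
  have hlog2 : Real.log (D + 1) ≤ Real.log D + 1 / D := by
    have e1 := Real.log_le_sub_one_of_pos (show 0 < (D + 1) / D by positivity)
    rw [Real.log_div (by positivity) (by positivity)] at e1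
    have e2 : (D + 1) / D - 1 = 1 / D := by field_simp; ring
    linarith
  have hlog3 : Real.log (θ + 1 / D) ≤ Real.log θ + 3 / 2 * (1 / D) := by
    have e1 := Real.log_le_sub_one_of_pos (show 0 < (θ + 1 / D) / θ by positivity)
    rw [Real.log_div (by positivity) (by positivity)] at e1
    have e2 : (θ + 1 / D) / θ - 1 = 1 / D * θ⁻¹ := by field_simp; ring
    have e3 : θ⁻¹ ≤ 3 / 2 := by
      rw [inv_le_comm₀ hθ (by norm_num)]; linarith
    have e4 : 1 / D * θ⁻¹ ≤ 1 / D * (3 / 2) := mul_le_mul_of_nonneg_left e3 hi0.le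
    linarith
  obtain ⟨y, hy⟩ : ∃ y, y = U + 1 + θ := ⟨_, rfl⟩
  have hy1 : 5 / 3 ≤ y := by rw [hy]; linarith
  have hXy : X - 1 = D ^ 2 * ((y - 3 / D ^ 2) / 2) := by
    have : D ^ 2 * ((y - 3 / D ^ 2) / 2) = (y * D ^ 2 - 3) / 2 := by field_simp
    rw [this, hy]
    linear_combination (-1 / 2) * hUX
  have he3 : 3 / D ^ 2 ≤ 3 / 10 * (1 / D) := by
    have : 3 / D ^ 2 = 3 * (1 / D ^ 2) := by ring
    rw [this]; linarith
  have he0 : 0 < 3 / D ^ 2 := by positivity
  have hlog4 : Real.log y - 1 / D ≤ Real.log (y - 3 / D ^ 2) := by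
    have e0 : 1 ≤ y - 3 / D ^ 2 := by linarith
    have e1 := Real.log_le_sub_one_of_pos (show 0 < y / (y - 3 / D ^ 2) by positivity)
    rw [Real.log_div (by positivity) (by positivity)] at e1
    have e2 : y / (y - 3 / D ^ 2) - 1 ≤ 3 / D ^ 2 := by
      have e3 : y / (y - 3 / D ^ 2) - 1 = 3 / D ^ 2 / (y - 3 / D ^ 2) := by
        rw [div_sub_one (by positivity)]
        congr 1
        ring
      rw [e3]
      exact div_le_self he0.le e0
    linarith
  have hlog5 : Real.log (X - 1) = 2 * Real.log D + Real.log (y - 3 / D ^ 2) - Real.log 2 := by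
    have e0 : 1 ≤ y - 3 / D ^ 2 := by linarith
    rw [hXy, Real.log_mul (by positivity) (by positivity), Real.log_pow,
      Real.log_div (by positivity) (by norm_num)]
    push_cast
    ring
  have hcmp : Real.log (b + 1 + θ) - anPhi θ b - 9 / 2 * (1 / D) ≤ Real.log y - anPhi θ U := by
    rw [hy]
    rcases le_total U b with hUb' | hUb'
    · have := anPhi_log θ hθ U b hU0 hUb' (by rw [hb]; linarith)
      linarith
    · have e1 := anPhi_upper θ hθ b U hUb'
      have e3 : θ⁻¹ ≤ 3 / 2 := by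
        rw [inv_le_comm₀ hθ (by norm_num)]; linarith
      have e4 : (U - b) * θ⁻¹ ≤ (3 * (1 / D)) * (3 / 2) := by
        apply mul_le_mul (by linarith) e3 (by positivity) (by positivity)
      have e5 : Real.log (b + 1 + θ) ≤ Real.log (U + 1 + θ) :=
        Real.log_le_log (by positivity) (by linarith)
      linarith
  have hbl : Real.log (b + 1 + θ) - Real.log 2 - Real.log θ = Real.log (2 * (1 + θ) / (3 * θ)) := by
    rw [← Real.log_div (by positivity) (by norm_num), ← Real.log_div (by positivity) (by positivity)]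
    congr 1
    rw [hb]
    field_simp
    ring
  have hfinal : δ ≤ 18 * (1 / D) := by
    rw [hδe, ← hbl]
    linarith
  have : δ * D ≤ 18 := by
    have := mul_le_mul_of_nonneg_right hfinal hDp.le
    have e : 18 * (1 / D) * D = 18 := by field_simp
    linarith
  linarith

end Pool.Agent.WR
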