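import Pool.Agent.WR.Defs

set_option autoImplicit false

/-!
W-MINCOUNT: the values at `ξ` of polynomials of small height are separated by `|P(ξ)|` if `P` is a
minimal polynomial in the sense of `selection`.
-/

namespace Pool.Agent.WR

open Polynomial Pool.Agent.H81S

theorem ht_sub_le_real (P Q : ℤ[X]) : (ht (P - Q) : ℝ) ≤ ht P + ht Q := by
  apply ht_le_of_real
  intro i
  rw [coeff_sub, Int.cast_sub]
  exact (abs_sub _ _).trans (add_le_add (abs_coeff_le P i) (abs_coeff_le Q i))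

/-- W-MINCOUNT -/
theorem mincount (ξ : ℝ) (d : ℕ) (P : ℤ[X]) (K H a : ℝ) (hP : aeval ξ P ≠ 0) (ha : 1 ≤ a)
    (hmin : ∀ Q : ℤ[X], Q ≠ 0 → Q.natDegree ≤ d → K * (ht Q : ℝ) ≤ ht P →
        |aeval ξ P| ≤ |aeval ξ Q|)
    (hK : 1 ≤ K) (hH : K * (2 * H) ≤ ht P) (hH0 : 0 ≤ H) :
    n1 ξ d H (a * |aeval ξ P|) ≤ 2 * a + 3 := by
  have hp : 0 < |aeval ξ P| := abs_pos.2 hP
  set p := |aeval ξ P| with hpdef
  let f : ℤ[X] → ℤ := fun Q => ⌊aeval ξ Q / p⌋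
  have hmaps : ∀ Q ∈ S1 ξ d H (a * p), f Q ∈ (Finset.Icc ⌊-a⌋ ⌊a⌋ : Finset ℤ) := by
    intro Q hQ
    have h1 := abs_le.1 hQ.2.2
    rw [Finset.mem_Icc]
    constructor
    · apply Int.floor_le_floor
      rw [le_div_iff₀ hp]
      linarith [h1.1]
    · apply Int.floor_le_floor
      rw [div_le_iff₀ hp]
      exact h1.2
  have hinj : Set.InjOn f (S1 ξ d H (a * p)) := by
    intro Q hQ R hR hQR
    by_contra hne
    have h1 : Q - R ≠ 0 := sub_ne_zero.2 hne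
    have h2 : (Q - R).natDegree ≤ d :=
      (natDegree_sub_le Q R).trans (max_le hQ.1 hR.1)
    have h3 : (ht (Q - R) : ℝ) ≤ 2 * H := by
      have := ht_sub_le_real Q R
      linarith [hQ.2.1, hR.2.1]
    have h4 : K * (ht (Q - R) : ℝ) ≤ ht P :=
      (mul_le_mul_of_nonneg_left h3 (by linarith)).trans hH
    have h5 := hmin (Q - R) h1 h2 h4
    have h6 : |aeval ξ Q / p - aeval ξ R / p| < 1 := Int.abs_sub_lt_one_of_floor_eq_floor hQR
    rw [← sub_div, abs_div, abs_of_pos hp, div_lt_one hp, ← map_sub] at h6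
    exact absurd h5 (not_le.2 h6)
  have hcard : (S1 ξ d H (a * p)).ncard ≤ (Finset.Icc ⌊-a⌋ ⌊a⌋ : Finset ℤ).card := by
    rw [← Set.ncard_coe_finset]
    exact Set.ncard_le_ncard_of_injOn f hmaps hinj (Finset.finite_toSet _)
  have h7 : ((Finset.Icc ⌊-a⌋ ⌊a⌋ : Finset ℤ).card : ℝ) ≤ 2 * a + 3 := by
    rw [Int.card_Icc]
    have h8 : (((⌊a⌋ + 1 - ⌊-a⌋).toNat : ℤ) : ℝ) ≤ 2 * a + 3 := by
      have h9 : ((⌊a⌋ + 1 - ⌊-a⌋).toNat : ℤ) = ⌊a⌋ + 1 - ⌊-a⌋ := by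
        apply Int.toNat_of_nonneg
        have : ⌊-a⌋ ≤ ⌊a⌋ := Int.floor_le_floor (by linarith)
        omega
      rw [h9]
      push_cast
      have h10 := Int.floor_le a
      have h11 := Int.lt_floor_add_one (-a)
      linarith
    exact_mod_cast h8
  unfold n1
  calc ((S1 ξ d H (a * p)).ncard : ℝ) ≤ ((Finset.Icc ⌊-a⌋ ⌊a⌋ : Finset ℤ).card : ℝ) := by
        exact_mod_cast hcard
    _ ≤ 2 * a + 3 := h7

end Pool.Agent.WR
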