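import Pool.Agent.WR.Dirichlet

set_option autoImplicit false

/-!
W-PPHASE: the counting function `n1` in the range where all small polynomials are multiples
of one polynomial `P`.
-/

namespace Pool.Agent.WR

open Polynomial Pool.Agent.H81S

/-- height of a product -/
theorem ht_mul_le (P R : ℤ[X]) (n : ℕ) (hP : P.natDegree ≤ n) :
    (ht (P * R) : ℝ) ≤ (n + 1) * (ht P : ℝ) * ht R := by
  apply ht_le_of_real
  intro i
  rw [coeff_mul, Finset.Nat.sum_antidiagonal_eq_sum_range_succ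
    (fun a b => P.coeff a * R.coeff b) i, Int.cast_sum]
  have h1 : ∀ a ∈ Finset.range (i + 1),
      |((P.coeff a * R.coeff (i - a) : ℤ) : ℝ)| ≤
        if a ∈ Finset.range (n + 1) then (ht P : ℝ) * ht R else 0 := by
    intro a _
    rw [Int.cast_mul, abs_mul]
    split_ifs with h
    · exact mul_le_mul (abs_coeff_le P a) (abs_coeff_le R _) (abs_nonneg _) (Nat.cast_nonneg _)
    · rw [coeff_eq_zero_of_natDegree_lt (by rw [Finset.mem_range] at h; omega)]
      simp
  calc |∑ a ∈ Finset.range (i + 1), ((P.coeff a * R.coeff (i - a) : ℤ) : ℝ)|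
      ≤ ∑ a ∈ Finset.range (i + 1), |((P.coeff a * R.coeff (i - a) : ℤ) : ℝ)| :=
        Finset.abs_sum_le_sum_abs _ _
    _ ≤ ∑ a ∈ Finset.range (i + 1),
          (if a ∈ Finset.range (n + 1) then (ht P : ℝ) * ht R else 0) := Finset.sum_le_sum h1
    _ = ∑ a ∈ Finset.range (i + 1) ∩ Finset.range (n + 1), (ht P : ℝ) * ht R := by
        rw [Finset.sum_ite_mem]
    _ ≤ ∑ a ∈ Finset.range (n + 1), (ht P : ℝ) * ht R := by
        apply Finset.sum_le_sum_of_subset_of_nonneg Finset.inter_subset_right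
        intros; positivity
    _ = (n + 1) * (ht P : ℝ) * ht R := by
        rw [Finset.sum_const, Finset.card_range]; simp; ring

/-- trivial upper bound for `n1` -/
theorem n1_le_trivial (ξ : ℝ) (e : ℕ) (B v : ℝ) (hB : 0 ≤ B) (hv : 0 ≤ v) :
    n1 ξ e B v ≤ (2 * B + 1) ^ e * (2 * v + 2) := by
  classical
  let M : ℤ := ⌊B⌋
  have hM0 : 0 ≤ M := Int.floor_nonneg.2 hB
  let T : Finset ((Fin e → ℤ) × ℤ) :=
    (Fintype.piFinset (fun _ : Fin e => Finset.Icc (-M) M)) ×ˢ (Finset.Icc ⌊-v⌋ ⌊v⌋)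
  let F : ℤ[X] → (Fin e → ℤ) × ℤ := fun R => (fun i => R.coeff (i + 1), ⌊aeval ξ R⌋)
  have hmaps : ∀ R ∈ S1 ξ e B v, F R ∈ (T : Set ((Fin e → ℤ) × ℤ)) := by
    rintro R ⟨_, h2, h3⟩
    simp only [T, F, Finset.coe_product, Set.mem_prod, Finset.mem_coe, Fintype.mem_piFinset,
      Finset.mem_Icc]
    refine ⟨fun i => ?_, ?_⟩
    · have h4 : |(R.coeff (i + 1) : ℝ)| ≤ B := (abs_coeff_le R _).trans h2
      rw [abs_le] at h4
      constructor
      · have : -(R.coeff (i + 1)) ≤ ⌊B⌋ := Int.le_floor.2 (by push_cast; linarith)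
        show -⌊B⌋ ≤ _
        omega
      · exact Int.le_floor.2 h4.2
    · rw [abs_le] at h3
      exact ⟨Int.floor_le_floor h3.1, Int.floor_le_floor h3.2⟩
  have hinj : Set.InjOn F (S1 ξ e B v) := by
    rintro R ⟨hR, _, _⟩ R' ⟨hR', _, _⟩ h
    simp only [F, Prod.mk.injEq] at h
    obtain ⟨h1, h2⟩ := h
    have hc : ∀ i, i ≠ 0 → (R - R').coeff i = 0 := by
      intro i hi
      rw [coeff_sub]
      by_cases hie : i ≤ e
      · have := congrFun h1 ⟨i - 1, by omega⟩
        simp only at this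
        rw [show i - 1 + 1 = i by omega] at this
        rw [this, sub_self]
      · rw [coeff_eq_zero_of_natDegree_lt (by omega), coeff_eq_zero_of_natDegree_lt (by omega)]
        simp
    have hd : R - R' = C ((R - R').coeff 0) := by
      ext i
      by_cases hi : i = 0
      · subst hi; simp
      · rw [hc i hi, coeff_C, if_neg hi]
    have hv2 : aeval ξ R - aeval ξ R' = (((R - R').coeff 0 : ℤ) : ℝ) := by
      rw [← map_sub, hd]
      simp
    have h5 : |((((R - R').coeff 0 : ℤ)) : ℝ)| < 1 := by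
      rw [← hv2]
      exact Int.abs_sub_lt_one_of_floor_eq_floor h2
    have h6 : (R - R').coeff 0 = 0 := by
      have : |(R - R').coeff 0| < 1 := by exact_mod_cast h5
      exact Int.abs_lt_one_iff.1 this
    rw [h6, C_0] at hd
    exact sub_eq_zero.1 hd
  have h1 : (S1 ξ e B v).ncard ≤ T.card := by
    have := Set.ncard_le_ncard_of_injOn F hmaps hinj (Finset.finite_toSet T)
    rwa [Set.ncard_coe_finset] at this
  have h2 : (T.card : ℝ) ≤ (2 * B + 1) ^ e * (2 * v + 2) := by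
    simp only [T]
    rw [Finset.card_product, Fintype.card_piFinset_const, Int.card_Icc, Int.card_Icc]
    push_cast
    apply mul_le_mul
    · apply pow_le_pow_left₀ (Nat.cast_nonneg _)
      have h3 : ((M + 1 - -M).toNat : ℝ) = 2 * (M : ℝ) + 1 := by
        have : ((M + 1 - -M).toNat : ℤ) = 2 * M + 1 := by omega
        exact_mod_cast this
      rw [h3]
      have : (M : ℝ) ≤ B := Int.floor_le B
      linarith
    · have h4 : ((⌊v⌋ + 1 - ⌊-v⌋).toNat : ℤ) = ⌊v⌋ + 1 - ⌊-v⌋ := by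
        have h5 : ⌊-v⌋ ≤ ⌊v⌋ := Int.floor_le_floor (by linarith)
        omega
      have h5 : ((⌊v⌋ + 1 - ⌊-v⌋).toNat : ℝ) = (⌊v⌋ : ℝ) + 1 - (⌊-v⌋ : ℝ) := by
        exact_mod_cast h4
      rw [h5]
      have h6 := Int.floor_le v
      have h7 := Int.lt_floor_add_one (-v)
      linarith
    · positivity
    · positivity
  unfold n1
  calc ((S1 ξ e B v).ncard : ℝ) ≤ (T.card : ℝ) := by exact_mod_cast h1
    _ ≤ _ := h2

/-- W-PPHASE -/
theorem pphase_upper (ξ : ℝ) (n : ℕ) (K₀ : ℝ) (hK : 1 ≤ K₀) : ∃ C : ℝ, 1 ≤ C ∧ ∀ m ≤ n,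
    ∀ P : ℤ[X], aeval ξ P ≠ 0 → P.natDegree ≤ m → ∀ H : ℝ, (ht P : ℝ) ≤ H →
      (∀ Q ∈ S1 ξ m H (K₀ * |aeval ξ P|), P ∣ Q) →
      n1 ξ m H (K₀ * |aeval ξ P|) ≤ C * (H / ht P) ^ (m - P.natDegree) := by
  have hC1 : (1 : ℝ) ≤ 4 ^ n * (n + 1) := by
    have h1 : (1 : ℝ) ≤ 4 ^ n := one_le_pow₀ (by norm_num)
    have h2 : (1 : ℝ) ≤ n + 1 := by linarith [Nat.cast_nonneg (α := ℝ) n]
    calc (1 : ℝ) = 1 * 1 := by ring
      _ ≤ _ := mul_le_mul h1 h2 (by norm_num) (by positivity)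
  set C1 : ℝ := 4 ^ n * (n + 1) with hC1def
  refine ⟨(3 * C1) ^ n * (2 * K₀ + 2), ?_, ?_⟩
  · have h1 : (1 : ℝ) ≤ (3 * C1) ^ n := one_le_pow₀ (by linarith)
    calc (1 : ℝ) = 1 * 1 := by ring
      _ ≤ _ := mul_le_mul h1 (by linarith) (by norm_num) (by positivity)
  · intro m hm P hP hPm H hH hdiv
    have hP0 : P ≠ 0 := by rintro rfl; simp at hP
    have hht := ht_pos_real hP0
    have hH0 : 0 < H := by linarith
    set e := m - P.natDegree with he
    set B : ℝ := C1 * (H / ht P) with hBdef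
    have hHP : 1 ≤ H / ht P := by rw [le_div_iff₀ (by linarith)]; linarith
    have hB1 : 1 ≤ B := by
      calc (1 : ℝ) = 1 * 1 := by ring
        _ ≤ _ := mul_le_mul hC1 hHP (by norm_num) (by linarith)
    have hsub : S1 ξ m H (K₀ * |aeval ξ P|) ⊆ (fun R => P * R) '' S1 ξ e B K₀ := by
      intro Q hQ
      obtain ⟨R, rfl⟩ := hdiv Q hQ
      obtain ⟨hQ1, hQ2, hQ3⟩ := hQ
      refine ⟨R, ?_, rfl⟩
      by_cases hR : R = 0
      · subst hR
        exact zero_mem_S1 ξ e B K₀ (by linarith) (by linarith)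
      · have hd := natDegree_mul hP0 hR
        refine ⟨by omega, ?_, ?_⟩
        · have hg := gelfond P R m hPm (by omega) hQ1
          have hC : (4 ^ m * ((m : ℝ) + 1)) ≤ C1 := by
            rw [hC1def]
            have h1 : (4 : ℝ) ^ m ≤ 4 ^ n := pow_le_pow_right₀ (by norm_num) hm
            have h2 : (m : ℝ) + 1 ≤ n + 1 := by
              have : (m : ℝ) ≤ n := by exact_mod_cast hm
              linarith
            exact mul_le_mul h1 h2 (by positivity) (by positivity)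
          have h3 : (ht P : ℝ) * ht R ≤ C1 * H :=
            hg.trans (mul_le_mul hC hQ2 (Nat.cast_nonneg _) (by linarith))
          rw [hBdef, mul_div_assoc', le_div_iff₀ (by linarith)]
          linarith
        · rw [map_mul, abs_mul, mul_comm K₀] at hQ3
          exact le_of_mul_le_mul_left hQ3 (abs_pos.2 hP)
    have h1 : n1 ξ m H (K₀ * |aeval ξ P|) ≤ n1 ξ e B K₀ := by
      unfold n1
      have hfin := finite_S1 ξ e B K₀
      have h2 := Set.ncard_le_ncard hsub (hfin.image _)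
      have h3 := Set.ncard_image_le (f := fun R => P * R) hfin
      exact_mod_cast h2.trans h3
    have h4 := n1_le_trivial ξ e B K₀ (by linarith) (by linarith)
    calc n1 ξ m H (K₀ * |aeval ξ P|) ≤ n1 ξ e B K₀ := h1
      _ ≤ (2 * B + 1) ^ e * (2 * K₀ + 2) := h4
      _ ≤ ((3 * C1) ^ n * (H / ht P) ^ e) * (2 * K₀ + 2) := by
          apply mul_le_mul_of_nonneg_right _ (by linarith)
          calc (2 * B + 1) ^ e ≤ (3 * B) ^ e := by
                apply pow_le_pow_left₀ (by linarith); linarith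
            _ = (3 * C1) ^ e * (H / ht P) ^ e := by rw [hBdef, ← mul_pow]; ring
            _ ≤ (3 * C1) ^ n * (H / ht P) ^ e := by
                apply mul_le_mul_of_nonneg_right _ (by positivity)
                exact pow_le_pow_right₀ (by linarith) (by omega)
      _ = (3 * C1) ^ n * (2 * K₀ + 2) * (H / ht P) ^ e := by ring

/-- W-PPHASE -/
theorem pphase_lower (ξ : ℝ) (n : ℕ) : ∃ c : ℝ, 0 < c ∧ ∀ m ≤ n,
    ∀ P : ℤ[X], P ≠ 0 → P.natDegree ≤ m → ∀ H : ℝ, (ht P : ℝ) ≤ H →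
      c * (H / ht P) ^ (m - P.natDegree) ≤ n1 ξ m H |aeval ξ P| := by
  obtain ⟨c₀, hc₀, hdir⟩ := dirichlet ξ n
  have hn1 : (1 : ℝ) ≤ n + 1 := by linarith [Nat.cast_nonneg (α := ℝ) n]
  have hnp : (0 : ℝ) < (n + 1) ^ n := by positivity
  refine ⟨min c₀ 1 / (n + 1) ^ n, div_pos (lt_min hc₀ one_pos) hnp, ?_⟩
  intro m hm P hP0 hPm H hH
  have hht := ht_pos_real hP0
  have hH0 : 0 < H := by linarith
  set e := m - P.natDegree with he
  have hHP : 1 ≤ H / ht P := by rw [le_div_iff₀ (by linarith)]; linarith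
  set H' : ℝ := (H / ht P) / (n + 1) with hH'
  have hpow : (H / ht P) ^ e ≤ (n + 1) ^ n * H' ^ e := by
    have : (H / ht P) ^ e = (n + 1) ^ e * H' ^ e := by
      rw [← mul_pow, hH']; congr 1; field_simp
    rw [this]
    apply mul_le_mul_of_nonneg_right _ (by positivity)
    exact pow_le_pow_right₀ hn1 (by omega)
  have hmin0 : 0 < min c₀ 1 := lt_min hc₀ one_pos
  by_cases h : 1 ≤ H'
  · have h1 := hdir e (by omega) H' 1 h one_pos le_rfl
    rw [mul_one] at h1
    have h2 : n1 ξ e H' 1 ≤ n1 ξ m H |aeval ξ P| := by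
      unfold n1
      have hmaps : ∀ R ∈ S1 ξ e H' 1, P * R ∈ S1 ξ m H |aeval ξ P| := by
        rintro R ⟨hR1, hR2, hR3⟩
        refine ⟨?_, ?_, ?_⟩
        · have := natDegree_mul_le (p := P) (q := R)
          omega
        · refine (ht_mul_le P R n (hPm.trans hm)).trans ?_
          calc (n + 1) * (ht P : ℝ) * ht R ≤ (n + 1) * (ht P : ℝ) * H' :=
                mul_le_mul_of_nonneg_left hR2 (by positivity)
            _ = H := by rw [hH']; field_simp
        · rw [map_mul, abs_mul]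
          calc |aeval ξ P| * |aeval ξ R| ≤ |aeval ξ P| * 1 :=
                mul_le_mul_of_nonneg_left hR3 (abs_nonneg _)
            _ = _ := mul_one _
      have hinj : Set.InjOn (fun R => P * R) (S1 ξ e H' 1) := by
        intro R _ R' _ h
        exact mul_left_cancel₀ hP0 h
      have := Set.ncard_le_ncard_of_injOn (fun R => P * R) hmaps hinj
        (finite_S1 ξ m H |aeval ξ P|)
      exact_mod_cast this
    calc min c₀ 1 / (n + 1) ^ n * (H / ht P) ^ e
        ≤ min c₀ 1 / (n + 1) ^ n * ((n + 1) ^ n * H' ^ e) :=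
          mul_le_mul_of_nonneg_left hpow (by positivity)
      _ = min c₀ 1 * H' ^ e := by field_simp
      _ ≤ c₀ * H' ^ e := mul_le_mul_of_nonneg_right (min_le_left _ _) (by positivity)
      _ ≤ _ := h1.trans h2
  · push Not at h
    have h1 : H' ^ e ≤ 1 := pow_le_one₀ (by positivity) h.le
    calc min c₀ 1 / (n + 1) ^ n * (H / ht P) ^ e
        ≤ min c₀ 1 / (n + 1) ^ n * ((n + 1) ^ n * H' ^ e) :=
          mul_le_mul_of_nonneg_left hpow (by positivity)
      _ = min c₀ 1 * H' ^ e := by field_simp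
      _ ≤ 1 * 1 := mul_le_mul (min_le_right _ _) h1 (by positivity) (by norm_num)
      _ = 1 := by ring
      _ ≤ _ := one_le_n1 ξ m H _ hH0.le (abs_nonneg _)

end Pool.Agent.WR
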