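import Pool.Agent.WR.Defs

set_option autoImplicit false

/-!
W-RES3: a three-column bound for the resultant of two integer polynomials which are small at `ξ`
together with their derivatives.
-/

namespace Pool.Agent.WR

open Polynomial Pool.Agent.H81S

namespace Res3Aux

/-- coefficients of the shifted polynomial -/
theorem taylor_coeff_bound (P : ℤ[X]) (n : ℕ) (hn : P.natDegree ≤ n) (ξ : ℝ) (k : ℕ) :
    |(taylor ξ (P.map (Int.castRingHom ℝ))).coeff k| ≤
      ((2 : ℝ) ^ n * ((n + 1) * (1 + |ξ|) ^ n)) * (ht P : ℝ) := by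
  rw [taylor_coeff]
  have h := eval_bound (hasseDeriv k (P.map (Int.castRingHom ℝ))) n
    ((natDegree_hasseDeriv_le _ _).trans ((Nat.sub_le _ _).trans (natDegree_map_le.trans hn)))
    ((2 : ℝ) ^ n * ht P) ?_ ξ
  · calc _ ≤ _ := h
      _ = _ := by ring
  · intro i
    rw [hasseDeriv_coeff, abs_mul, coeff_map]
    by_cases hi : i + k ≤ n
    · apply mul_le_mul _ (abs_coeff_le P _) (abs_nonneg _) (by positivity)
      rw [abs_of_nonneg (by positivity)]
      calc (((i + k).choose k : ℕ) : ℝ) ≤ ((2 ^ (i + k) : ℕ) : ℝ) := by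
            exact_mod_cast Nat.choose_le_two_pow _ _
        _ ≤ 2 ^ n := by
            push_cast
            exact pow_le_pow_right₀ (by norm_num) hi
    · have : P.coeff (i + k) = 0 := coeff_eq_zero_of_natDegree_lt (by omega)
      rw [this]
      simp

/-- Leibniz expansion with three small rows -/
theorem det_bound3 (N : ℕ) (M : Matrix (Fin N) (Fin N) ℝ) (c : Fin N → ℝ) (s : Fin N → ℕ)
    (r0 r1 r2 : Fin N) (h01 : r0 ≠ r1) (h02 : r0 ≠ r2) (h12 : r1 ≠ r2) (v v' : ℝ) (hv : 0 < v)
    (hvv : v ≤ v') (hv2 : v ≤ v' ^ 2) (hc : ∀ j, 1 ≤ c j) (hM : ∀ i j, |M i j| ≤ c j)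
    (h0 : ∀ j, s j ≠ 0 → M r0 j = 0) (h0' : ∀ j, |M r0 j| ≤ v) (h1 : ∀ j, |M r1 j| ≤ v')
    (h1' : ∀ j, s j ≠ 0 → |M r1 j| ≤ v) (h2 : ∀ j, s j ≠ 0 → |M r2 j| ≤ v')
    (hs : ∀ i j k, i ≠ j → i ≠ k → j ≠ k → s i = 0 → s j = 0 → s k ≠ 0) :
    |M.det| ≤ (N.factorial : ℝ) * ((∏ j, c j) * (v * v' ^ 2)) := by
  have hv' : 0 < v' := lt_of_lt_of_le hv hvv
  have hcpos : 0 < ∏ j, c j := Finset.prod_pos fun j _ => lt_of_lt_of_le one_pos (hc j)
  have key : ∀ σ : Equiv.Perm (Fin N), |∏ i, M (σ i) i| ≤ (∏ j, c j) * (v * v' ^ 2) := by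
    intro σ
    set t : Fin N → ℝ := fun i => |M (σ i) i| / c i with ht
    have hprod : |∏ i, M (σ i) i| = (∏ j, c j) * ∏ i, t i := by
      rw [Finset.abs_prod, ← Finset.prod_mul_distrib]
      refine Finset.prod_congr rfl fun i _ => ?_
      rw [ht]
      have : c i ≠ 0 := by have := hc i; linarith
      field_simp
    have ht0 : ∀ i, 0 ≤ t i := fun i => div_nonneg (abs_nonneg _) (by have := hc i; linarith)
    have ht1 : ∀ i, t i ≤ 1 := fun i => by
      rw [ht]
      exact div_le_one_of_le₀ (hM _ _) (by have := hc i; linarith)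
    have htM : ∀ i, t i ≤ |M (σ i) i| := fun i => div_le_self (abs_nonneg _) (hc i)
    set j0 := σ.symm r0 with hj0
    set j1 := σ.symm r1 with hj1
    set j2 := σ.symm r2 with hj2
    have e0 : σ j0 = r0 := by rw [hj0]; simp
    have e1 : σ j1 = r1 := by rw [hj1]; simp
    have e2 : σ j2 = r2 := by rw [hj2]; simp
    have d01 : j0 ≠ j1 := fun h => h01 (by rw [← e0, ← e1, h])
    have d02 : j0 ≠ j2 := fun h => h02 (by rw [← e0, ← e2, h])
    have d12 : j1 ≠ j2 := fun h => h12 (by rw [← e1, ← e2, h])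
    have hsub : ∏ i, t i ≤ t j0 * (t j1 * t j2) := by
      have h3 : ∏ i ∈ ({j0, j1, j2} : Finset (Fin N)), t i = t j0 * (t j1 * t j2) := by
        rw [Finset.prod_insert (by simp [d01, d02]), Finset.prod_insert (by simp [d12]),
          Finset.prod_singleton]
      rw [← h3, ← Finset.prod_sdiff (Finset.subset_univ ({j0, j1, j2} : Finset (Fin N)))]
      refine mul_le_of_le_one_left (Finset.prod_nonneg fun i _ => ht0 i) ?_
      exact Finset.prod_le_one (fun i _ => ht0 i) fun i _ => ht1 i
    have b0 := htM j0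
    have b1 := htM j1
    have b2 := htM j2
    rw [e0] at b0
    rw [e1] at b1
    rw [e2] at b2
    have hthree : t j0 * (t j1 * t j2) ≤ v * v' ^ 2 := by
      by_cases s0 : s j0 = 0
      · have c0 : t j0 ≤ v := b0.trans (h0' _)
        by_cases s2 : s j2 = 0
        · have s1 : s j1 ≠ 0 := hs j0 j2 j1 d02 d01 d12.symm s0 s2
          have c1 : t j1 ≤ v := b1.trans (h1' _ s1)
          calc t j0 * (t j1 * t j2) ≤ v * (v * 1) :=
                mul_le_mul c0 (mul_le_mul c1 (ht1 _) (ht0 _) hv.le)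
                  (mul_nonneg (ht0 _) (ht0 _)) hv.le
            _ = v * v := by ring
            _ ≤ v * v' ^ 2 := mul_le_mul_of_nonneg_left hv2 hv.le
        · have c1 : t j1 ≤ v' := b1.trans (h1 _)
          have c2 : t j2 ≤ v' := b2.trans (h2 _ s2)
          calc t j0 * (t j1 * t j2) ≤ v * (v' * v') :=
                mul_le_mul c0 (mul_le_mul c1 c2 (ht0 _) hv'.le)
                  (mul_nonneg (ht0 _) (ht0 _)) hv.le
            _ = v * v' ^ 2 := by ring
      · have c0 : t j0 ≤ 0 := by
          refine b0.trans ?_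
          rw [h0 _ s0, abs_zero]
        have c0' : t j0 = 0 := le_antisymm c0 (ht0 _)
        rw [c0', zero_mul]
        positivity
    rw [hprod]
    exact mul_le_mul_of_nonneg_left (hsub.trans hthree) hcpos.le
  rw [Matrix.det_apply']
  calc |∑ σ : Equiv.Perm (Fin N), ((Equiv.Perm.sign σ : ℤ) : ℝ) * ∏ i, M (σ i) i|
      ≤ ∑ σ : Equiv.Perm (Fin N), |((Equiv.Perm.sign σ : ℤ) : ℝ) * ∏ i, M (σ i) i| :=
        Finset.abs_sum_le_sum_abs _ _
    _ ≤ ∑ _σ : Equiv.Perm (Fin N), (∏ j, c j) * (v * v' ^ 2) := by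
        refine Finset.sum_le_sum fun σ _ => ?_
        rw [abs_mul]
        have hsg : |((Equiv.Perm.sign σ : ℤ) : ℝ)| = 1 := by
          rcases Int.units_eq_one_or (Equiv.Perm.sign σ) with h | h <;> simp [h]
        rw [hsg, one_mul]
        exact key σ
    _ = _ := by
        rw [Finset.sum_const, Finset.card_univ, Fintype.card_perm, Fintype.card_fin, nsmul_eq_mul]

/-- the resultant with formal degrees `d, d` is a nonzero integer -/
theorem res_ne_zero (P Q : ℤ[X]) (d : ℕ) (hd : 1 ≤ d) (hP : P.natDegree = d)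
    (hQ : Q.natDegree ≤ d) (hirr : Irreducible P) (hndvd : ¬ P ∣ Q) :
    resultant P Q d d ≠ 0 := by
  have hprim : P.IsPrimitive := hirr.isPrimitive (by omega)
  have hirr' : Irreducible (P.map (Int.castRingHom ℚ)) :=
    (IsPrimitive.Int.irreducible_iff_irreducible_map_cast hprim).1 hirr
  have hnd : ¬ P.map (Int.castRingHom ℚ) ∣ Q.map (Int.castRingHom ℚ) := fun h =>
    hndvd ((IsPrimitive.Int.dvd_iff_map_cast_dvd_map_cast P Q hprim).2 h)
  have hcop : IsCoprime (P.map (Int.castRingHom ℚ)) (Q.map (Int.castRingHom ℚ)) :=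
    (EuclideanDomain.dvd_or_coprime _ _ hirr').resolve_left hnd
  have h1 := resultant_ne_zero _ _ hcop
  have hndP : (P.map (Int.castRingHom ℚ)).natDegree = P.natDegree :=
    natDegree_map_eq_of_injective (RingHom.injective_int _) _
  have hndQ : (Q.map (Int.castRingHom ℚ)).natDegree = Q.natDegree :=
    natDegree_map_eq_of_injective (RingHom.injective_int _) _
  rw [hndP, hndQ, resultant_map_map] at h1
  have h2 : resultant P Q P.natDegree Q.natDegree ≠ 0 := by
    intro h
    rw [h] at h1
    simp at h1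
  obtain ⟨k, hk⟩ := Nat.exists_eq_add_of_le hQ
  have h3 := resultant_add_right_deg P Q P.natDegree Q.natDegree k le_rfl
  rw [← hk, hP] at h3
  rw [h3]
  rw [hP] at h2
  refine mul_ne_zero (pow_ne_zero _ ?_) h2
  rw [← hP, coeff_natDegree]
  exact leadingCoeff_ne_zero.2 hirr.ne_zero

/-- invariance under the shift, with formal degrees -/
theorem res_taylor (P Q : ℤ[X]) (d : ℕ) (hP : P.natDegree = d) (hQ : Q.natDegree ≤ d) (ξ : ℝ) :
    resultant (taylor ξ (P.map (Int.castRingHom ℝ))) (taylor ξ (Q.map (Int.castRingHom ℝ))) d d =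
      ((resultant P Q d d : ℤ) : ℝ) := by
  have hndP : (P.map (Int.castRingHom ℝ)).natDegree = P.natDegree :=
    natDegree_map_eq_of_injective (RingHom.injective_int _) _
  have hndQ : (Q.map (Int.castRingHom ℝ)).natDegree = Q.natDegree :=
    natDegree_map_eq_of_injective (RingHom.injective_int _) _
  obtain ⟨k, hk⟩ := Nat.exists_eq_add_of_le hQ
  have h1 := resultant_add_right_deg (taylor ξ (P.map (Int.castRingHom ℝ)))
    (taylor ξ (Q.map (Int.castRingHom ℝ))) d Q.natDegree k
    (by rw [natDegree_taylor, hndQ])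
  have h2 := resultant_taylor (P.map (Int.castRingHom ℝ)) (Q.map (Int.castRingHom ℝ)) ξ
  rw [natDegree_taylor, natDegree_taylor, hndP, hndQ, resultant_map_map, hP] at h2
  have h3 : (taylor ξ (P.map (Int.castRingHom ℝ))).coeff d = ((P.coeff d : ℤ) : ℝ) := by
    have := coeff_taylor_natDegree (r := ξ) (f := P.map (Int.castRingHom ℝ))
    rw [hndP, hP] at this
    rw [this, leadingCoeff, hndP, hP, coeff_map]
    rfl
  rw [h2, h3, ← hk] at h1
  rw [h1]
  have h4 := resultant_add_right_deg P Q d Q.natDegree k le_rfl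
  rw [← hk] at h4
  rw [h4]
  push_cast
  rfl

end Res3Aux

open Res3Aux

/-- W-RES3 -/
theorem res3 (ξ : ℝ) (n : ℕ) : ∃ C : ℝ, 1 ≤ C ∧ ∀ d ≤ n, 3 ≤ d → ∀ P Q : ℤ[X],
    P.natDegree = d → Q.natDegree ≤ d → Irreducible P → ¬ P ∣ Q →
    ∀ a b v v' : ℝ, 1 ≤ a → a ≤ b → (ht P : ℝ) ≤ a → (ht Q : ℝ) ≤ b → 0 < v → v ≤ v' →
      v * b ≤ v' ^ 2 → |aeval ξ P| ≤ v → |aeval ξ Q| ≤ v →
      |aeval ξ (derivative P)| ≤ v' → |aeval ξ (derivative Q)| ≤ v' →
      1 ≤ C * (a ^ d * b ^ d * (v * v' ^ 2)) := by
  obtain ⟨K, hK⟩ : ∃ K : ℝ, K = (2 : ℝ) ^ n * ((n + 1) * (1 + |ξ|) ^ n) := ⟨_, rfl⟩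
  have hK1 : 1 ≤ K := by
    rw [hK]
    have h1 : (1 : ℝ) ≤ 2 ^ n := one_le_pow₀ (by norm_num)
    have h2 : (1 : ℝ) ≤ n + 1 := by
      have : (0 : ℝ) ≤ n := Nat.cast_nonneg n
      linarith
    have h3 : (1 : ℝ) ≤ (1 + |ξ|) ^ n := one_le_pow₀ (by linarith [abs_nonneg ξ])
    calc (1 : ℝ) = 1 * (1 * 1) := by norm_num
      _ ≤ 2 ^ n * ((n + 1) * (1 + |ξ|) ^ n) := by
          apply mul_le_mul h1 _ (by norm_num) (by positivity)
          exact mul_le_mul h2 h3 (by norm_num) (by positivity)
  have hfac : (1 : ℝ) ≤ ((2 * n).factorial : ℝ) := by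
    exact_mod_cast Nat.succ_le_of_lt (Nat.factorial_pos _)
  refine ⟨((2 * n).factorial : ℝ) * K ^ (2 * n), ?_, ?_⟩
  · calc (1 : ℝ) = 1 * 1 := by norm_num
      _ ≤ _ := mul_le_mul hfac (one_le_pow₀ hK1) (by norm_num) (by linarith)
  intro d hdn hd3 P Q hP hQ hirr hndvd a b v v' ha hab hPa hQb hv hvv hvb hPv hQv hPv' hQv'
  have hb : 1 ≤ b := ha.trans hab
  set p : ℝ[X] := taylor ξ (P.map (Int.castRingHom ℝ)) with hp
  set q : ℝ[X] := taylor ξ (Q.map (Int.castRingHom ℝ)) with hq
  have hpc : ∀ k, |p.coeff k| ≤ K * a := fun k =>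
    (hK ▸ taylor_coeff_bound P n (by omega) ξ k).trans
      (mul_le_mul_of_nonneg_left hPa (by linarith))
  have hqc : ∀ k, |q.coeff k| ≤ K * b := fun k =>
    (hK ▸ taylor_coeff_bound Q n (by omega) ξ k).trans
      (mul_le_mul_of_nonneg_left hQb (by linarith))
  have hp0 : |p.coeff 0| ≤ v := by
    rw [hp, taylor_coeff_zero, ← aeval_eq_eval_map]
    exact hPv
  have hq0 : |q.coeff 0| ≤ v := by
    rw [hq, taylor_coeff_zero, ← aeval_eq_eval_map]
    exact hQv
  have hp1 : |p.coeff 1| ≤ v' := by
    rw [hp, taylor_coeff_one, derivative_map, ← aeval_eq_eval_map]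
    exact hPv'
  have hq1 : |q.coeff 1| ≤ v' := by
    rw [hq, taylor_coeff_one, derivative_map, ← aeval_eq_eval_map]
    exact hQv'
  have hres : 1 ≤ |(sylvester p q d d).det| := by
    have h1 : (sylvester p q d d).det = ((resultant P Q d d : ℤ) : ℝ) :=
      res_taylor P Q d hP hQ ξ
    rw [h1, ← Int.cast_abs]
    exact_mod_cast Int.one_le_abs (res_ne_zero P Q d (by omega) hP hQ hirr hndvd)
  set c : Fin (d + d) → ℝ := fun j => Fin.addCases (fun _ => K * b) (fun _ => K * a) j with hc
  set s : Fin (d + d) → ℕ := fun j => Fin.addCases (fun i => (i : ℕ)) (fun i => (i : ℕ)) j with hs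
  have hv2 : v ≤ v' ^ 2 := by nlinarith
  have hKa : 1 ≤ K * a := by nlinarith
  have hKb : 1 ≤ K * b := by nlinarith
  have hcp : ∏ j, c j = K ^ (2 * d) * (a ^ d * b ^ d) := by
    rw [Fin.prod_univ_add]
    simp only [hc, Fin.addCases_left, Fin.addCases_right, Finset.prod_const, Finset.card_univ,
      Fintype.card_fin]
    rw [mul_pow, mul_pow, two_mul, pow_add]
    ring
  have hdet := det_bound3 (d + d) (sylvester p q d d) c s ⟨0, by omega⟩ ⟨1, by omega⟩
    ⟨2, by omega⟩ (by simp) (by simp) (by simp) v v' hv hvv hv2 ?_ ?_ ?_ ?_ ?_ ?_ ?_ ?_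
  · rw [hcp] at hdet
    have h1 := hres.trans hdet
    refine h1.trans ?_
    have h2 : ((d + d).factorial : ℝ) ≤ ((2 * n).factorial : ℝ) := by
      exact_mod_cast Nat.factorial_le (by omega)
    have h3 : K ^ (2 * d) ≤ K ^ (2 * n) := pow_le_pow_right₀ hK1 (by omega)
    have h4 : 0 ≤ a ^ d * b ^ d * (v * v' ^ 2) := by positivity
    calc ((d + d).factorial : ℝ) * (K ^ (2 * d) * (a ^ d * b ^ d) * (v * v' ^ 2))
        = ((d + d).factorial : ℝ) * K ^ (2 * d) * (a ^ d * b ^ d * (v * v' ^ 2)) := by ring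
      _ ≤ ((2 * n).factorial : ℝ) * K ^ (2 * n) * (a ^ d * b ^ d * (v * v' ^ 2)) := by
          apply mul_le_mul_of_nonneg_right _ h4
          exact mul_le_mul h2 h3 (by positivity) (by positivity)
  · intro j
    induction j using Fin.addCases with
    | left j => simp only [hc, Fin.addCases_left]; exact hKb
    | right j => simp only [hc, Fin.addCases_right]; exact hKa
  · intro i j
    induction j using Fin.addCases with
    | left j =>
      simp only [hc, sylvester, Matrix.of_apply, Fin.addCases_left]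
      split_ifs
      · exact hqc _
      · rw [abs_zero]; linarith
    | right j =>
      simp only [hc, sylvester, Matrix.of_apply, Fin.addCases_right]
      split_ifs
      · exact hpc _
      · rw [abs_zero]; linarith
  · intro j
    induction j using Fin.addCases with
    | left j =>
      simp only [hs, sylvester, Matrix.of_apply, Fin.addCases_left]
      intro h
      rw [if_neg]
      intro h'
      have := h'.1
      simp at this
      exact h this
    | right j =>
      simp only [hs, sylvester, Matrix.of_apply, Fin.addCases_right]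
      intro h
      rw [if_neg]
      intro h'
      have := h'.1
      simp at this
      exact h this
  · intro j
    induction j using Fin.addCases with
    | left j =>
      simp only [sylvester, Matrix.of_apply, Fin.addCases_left]
      split_ifs
      · rw [Nat.zero_sub]; exact hq0
      · rw [abs_zero]; exact hv.le
    | right j =>
      simp only [sylvester, Matrix.of_apply, Fin.addCases_right]
      split_ifs
      · rw [Nat.zero_sub]; exact hp0
      · rw [abs_zero]; exact hv.le
  · intro j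
    induction j using Fin.addCases with
    | left j =>
      simp only [sylvester, Matrix.of_apply, Fin.addCases_left]
      split_ifs with h
      · rcases Nat.eq_zero_or_pos (j : ℕ) with h0 | h0
        · rw [h0]; exact hq1
        · rw [show 1 - (j : ℕ) = 0 by omega]; exact hq0.trans hvv
      · rw [abs_zero]; linarith
    | right j =>
      simp only [sylvester, Matrix.of_apply, Fin.addCases_right]
      split_ifs with h
      · rcases Nat.eq_zero_or_pos (j : ℕ) with h0 | h0
        · rw [h0]; exact hp1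
        · rw [show 1 - (j : ℕ) = 0 by omega]; exact hp0.trans hvv
      · rw [abs_zero]; linarith
  · intro j
    induction j using Fin.addCases with
    | left j =>
      simp only [hs, sylvester, Matrix.of_apply, Fin.addCases_left]
      intro h
      split_ifs
      · rw [show 1 - (j : ℕ) = 0 by omega]; exact hq0
      · rw [abs_zero]; exact hv.le
    | right j =>
      simp only [hs, sylvester, Matrix.of_apply, Fin.addCases_right]
      intro h
      split_ifs
      · rw [show 1 - (j : ℕ) = 0 by omega]; exact hp0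
      · rw [abs_zero]; exact hv.le
  · intro j
    induction j using Fin.addCases with
    | left j =>
      simp only [hs, sylvester, Matrix.of_apply, Fin.addCases_left]
      intro h
      split_ifs with h'
      · rcases Nat.lt_or_ge (j : ℕ) 2 with h0 | h0
        · rw [show 2 - (j : ℕ) = 1 by omega]; exact hq1
        · rw [show 2 - (j : ℕ) = 0 by omega]; exact hq0.trans hvv
      · rw [abs_zero]; linarith
    | right j =>
      simp only [hs, sylvester, Matrix.of_apply, Fin.addCases_right]
      intro h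
      split_ifs with h'
      · rcases Nat.lt_or_ge (j : ℕ) 2 with h0 | h0
        · rw [show 2 - (j : ℕ) = 1 by omega]; exact hp1
        · rw [show 2 - (j : ℕ) = 0 by omega]; exact hp0.trans hvv
      · rw [abs_zero]; linarith
  · -- at most two columns of shift zero
    have h0 : ∀ j, s j = 0 → (j : ℕ) = 0 ∨ (j : ℕ) = d := by
      intro j
      induction j using Fin.addCases with
      | left j =>
        simp only [hs, Fin.addCases_left]
        intro h
        left
        simpa using h
      | right j =>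
        simp only [hs, Fin.addCases_right]
        intro h
        right
        simp [h]
    intro i j k hij hik hjk hi hj hk
    have h1 := h0 i hi
    have h2 := h0 j hj
    have h3 := h0 k hk
    have e1 : (i : ℕ) ≠ j := fun h => hij (Fin.ext h)
    have e2 : (i : ℕ) ≠ k := fun h => hik (Fin.ext h)
    have e3 : (j : ℕ) ≠ k := fun h => hjk (Fin.ext h)
    omega

end Pool.Agent.WR
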