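import Pool.Agent.WR.Dirichlet
import Pool.Agent.WR.Mincount
import Pool.Agent.WR.PPhase
import Pool.Agent.WR.Res3

set_option autoImplicit false

namespace Pool.Agent.WR

open Polynomial Pool.Agent.H81S

/-- a minimal polynomial of large height has a small value -/
theorem value_small (ξ : ℝ) (n : ℕ) (K K₀ : ℝ) (hK : 1 ≤ K) (hK₀ : 1 ≤ K₀) :
    ∃ C : ℝ, 0 ≤ C ∧ ∀ P : ℤ[X], P ≠ 0 → 1 ≤ P.natDegree → P.natDegree ≤ n →
      (∀ Q : ℤ[X], Q ≠ 0 → Q.natDegree ≤ P.natDegree → K * (ht Q : ℝ) ≤ ht P →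
        |aeval ξ P| ≤ |aeval ξ Q|) → C ≤ Real.log (ht P) → K₀ * |aeval ξ P| ≤ 1 := by
  obtain ⟨c, hc, hcD⟩ := dirichlet ξ n
  refine ⟨|Real.log (2 * K₀ * K / c)| + Real.log K + 1, by
    have := Real.log_nonneg hK
    positivity, ?_⟩
  intro P hP0 hd1 hdn hmin hC
  by_contra hneg
  push Not at hneg
  have hht1 : (1 : ℝ) ≤ ht P := ht_pos_real hP0
  have hht0 : (0 : ℝ) < ht P := by linarith
  have hK0 : 0 < K := by linarith
  have hK₀0 : 0 < K₀ := by linarith
  have hlogK := Real.log_nonneg hK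
  have hH1 : 1 ≤ (ht P : ℝ) / K := by
    rw [le_div_iff₀ hK0, one_mul]
    rw [← Real.log_le_log_iff hK0 hht0]
    have := abs_nonneg (Real.log (2 * K₀ * K / c))
    linarith
  have hsub : S1 ξ P.natDegree ((ht P : ℝ) / K) (1 / (2 * K₀)) ⊆ {0} := by
    rintro Q ⟨h1, h2, h3⟩
    by_contra hQ
    have hQ0 : Q ≠ 0 := hQ
    have h4 := hmin Q hQ0 h1 (by rw [le_div_iff₀ hK0] at h2; linarith)
    have h5 : K₀ * |aeval ξ P| ≤ K₀ * (1 / (2 * K₀)) :=
      mul_le_mul_of_nonneg_left (h4.trans h3) hK₀0.le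
    have h6 : K₀ * (1 / (2 * K₀)) = 1 / 2 := by field_simp
    linarith
  have hn : n1 ξ P.natDegree ((ht P : ℝ) / K) (1 / (2 * K₀)) ≤ 1 := by
    unfold n1
    have h7 := Set.ncard_le_ncard hsub (Set.finite_singleton 0)
    rw [Set.ncard_singleton] at h7
    exact_mod_cast h7
  have hD := hcD P.natDegree hdn ((ht P : ℝ) / K) (1 / (2 * K₀)) hH1 (by positivity) (by
    rw [div_le_one (by positivity)]; linarith)
  have hpow : (ht P : ℝ) / K ≤ ((ht P : ℝ) / K) ^ P.natDegree :=
    le_self_pow₀ hH1 (by omega)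
  have h8 : c * ((ht P : ℝ) / K * (1 / (2 * K₀))) ≤ 1 := by
    refine le_trans ?_ (hD.trans hn)
    apply mul_le_mul_of_nonneg_left _ hc.le
    apply mul_le_mul_of_nonneg_right hpow (by positivity)
  have h9 : (ht P : ℝ) ≤ 2 * K₀ * K / c := by
    rw [le_div_iff₀ hc]
    have h10 : c * ((ht P : ℝ) / K * (1 / (2 * K₀))) = (ht P : ℝ) * c / (2 * K₀ * K) := by
      field_simp
    rw [h10, div_le_one (by positivity)] at h8
    exact h8
  have h11 := Real.log_le_log hht0 h9
  have h12 := le_abs_self (Real.log (2 * K₀ * K / c))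
  linarith

/-- The corner at an irreducible minimal polynomial. -/
theorem corner (ξ : ℝ) (n : ℕ) (K K₀ KD HD θ : ℝ) (hK : 1 ≤ K) (hK₀ : 1 ≤ K₀) (hKD : 1 ≤ KD)
    (hHD : 1 ≤ HD) (hθ : 1 / 2 ≤ θ) :
    ∃ C : ℝ, 0 ≤ C ∧ ∀ P : ℤ[X], Irreducible P → 3 ≤ P.natDegree → P.natDegree ≤ n →
      aeval ξ P ≠ 0 →
      (∀ Q : ℤ[X], Q ≠ 0 → Q.natDegree ≤ P.natDegree → K * (ht Q : ℝ) ≤ ht P →
        |aeval ξ P| ≤ |aeval ξ Q|) →
      (∀ H ≥ HD, ∀ v : ℝ, 0 < v → 1 ≤ v * H ^ (2 * (θ * P.natDegree) + 1) →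
        ∀ Q : ℤ[X], Q.natDegree ≤ P.natDegree → (ht Q : ℝ) ≤ H → |aeval ξ Q| ≤ v →
        |aeval ξ (derivative Q)| ≤ KD * v * H ^ (θ * P.natDegree + 1)) →
      C ≤ Real.log (ht P) →
      ∃ hs : ℝ, Real.log (ht P) ≤ hs + C ∧
        3 * (-Real.log (K₀ * |aeval ξ P|)) ≤ ((1 + 2 * θ) * P.natDegree + 2) * hs +
          P.natDegree * Real.log (ht P) + C ∧
        Real.log (n1 ξ P.natDegree (Real.exp hs) (K₀ * |aeval ξ P|)) ≤ C ∧
        P.natDegree * hs - C ≤ -Real.log (K₀ * |aeval ξ P|) ∧ K₀ * |aeval ξ P| ≤ 1 := by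
  obtain ⟨cD, hcD0, hcD⟩ := dirichlet ξ n
  obtain ⟨Cu, hCu1, hCu⟩ := pphase_upper ξ n K₀ hK₀
  obtain ⟨Cr, hCr1, hCr⟩ := res3 ξ n
  obtain ⟨Cv, hCv0, hCv⟩ := value_small ξ n K K₀ hK hK₀
  have hK0 : 0 < K := by linarith
  have hlCu : 0 ≤ Real.log Cu := Real.log_nonneg hCu1
  have hlCr : 0 ≤ Real.log Cr := Real.log_nonneg hCr1
  have hlKD : 0 ≤ Real.log KD := Real.log_nonneg hKD
  have hlHD : 0 ≤ Real.log HD := Real.log_nonneg hHD
  have hlK₀ : 0 ≤ Real.log (2 * K₀ + 3) := Real.log_nonneg (by linarith)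
  set C2 : ℝ := Real.log (2 * K) with hC2
  have hC20 : 0 ≤ C2 := Real.log_nonneg (by linarith)
  have hn0 : (0 : ℝ) ≤ n := Nat.cast_nonneg n
  set C3 : ℝ := Real.log Cr + 2 * Real.log KD + ((1 + 2 * θ) * n + 2) * C2 + 1 with hC3
  have hθ0 : 0 ≤ θ := by linarith
  have hC30 : 0 ≤ C3 := by positivity
  refine ⟨Cv + Real.log Cu + Real.log (2 * K₀ + 3) + Real.log HD + |Real.log cD| + C2 + C3,
    by positivity, ?_⟩
  intro P hirr hd3 hdn hPξ hmin hder hCP
  have habs := abs_nonneg (Real.log cD)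
  have hP0 : P ≠ 0 := hirr.ne_zero
  have hPpos : 0 < |aeval ξ P| := abs_pos.2 hPξ
  have hv1 := hCv P hP0 (by omega) hdn hmin (by linarith)
  set v : ℝ := K₀ * |aeval ξ P| with hv
  have hv0 : 0 < v := by positivity
  set L : ℝ := -Real.log v with hL
  have hlv : Real.log v = -L := by rw [hL]; ring
  set hP : ℝ := Real.log (ht P) with hhP
  set d : ℕ := P.natDegree with hd
  have hht1 : (1 : ℝ) ≤ ht P := ht_pos_real hP0
  have hht0 : (0 : ℝ) < ht P := by linarith
  have hd3R : (3 : ℝ) ≤ d := by exact_mod_cast hd3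
  have hdnR : (d : ℝ) ≤ n := by exact_mod_cast hdn
  have hden : 0 < (1 + 2 * θ) * d + 2 := by positivity
  set hc : ℝ := (3 * L - d * hP - C3) / ((1 + 2 * θ) * d + 2) with hhc
  have hcmul : ((1 + 2 * θ) * d + 2) * hc = 3 * L - d * hP - C3 := by
    rw [hhc]; field_simp
  have hP0' : 0 ≤ hP := Real.log_nonneg hht1
  -- the count at the corner, case by case
  have hcount : ∃ hs : ℝ, hc ≤ hs ∧ hP - C2 ≤ hs ∧
      n1 ξ d (Real.exp hs) v ≤ max Cu (2 * K₀ + 3) := by
    by_cases hcase : hc ≤ hP - C2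
    · refine ⟨hP - C2, hcase, le_rfl, ?_⟩
      refine le_trans ?_ (le_max_right _ _)
      apply mincount ξ d P K (Real.exp (hP - C2)) K₀ hPξ hK₀ hmin hK _ (Real.exp_pos _).le
      rw [Real.exp_sub, hC2, hhP, Real.exp_log hht0, Real.exp_log (by positivity)]
      apply le_of_eq
      field_simp
    · push Not at hcase
      refine ⟨hc, le_rfl, hcase.le, ?_⟩
      refine le_trans ?_ (le_max_left _ _)
      set hr : ℝ := max hc hP with hhr
      have hrP : hP ≤ hr := le_max_right _ _
      have hrc : hc ≤ hr := le_max_left _ _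
      have hrC : hr ≤ hc + C2 := max_le (by linarith) (by linarith)
      have hr0 : 0 ≤ hr := hP0'.trans hrP
      have hhtr : (ht P : ℝ) ≤ Real.exp hr := by
        rw [← Real.log_le_iff_le_exp hht0]; exact hrP
      -- everything is a multiple of `P`
      have hall : ∀ Q ∈ S1 ξ d (Real.exp hr) v, P ∣ Q := by
        by_contra hneg
        push Not at hneg
        obtain ⟨Q, ⟨hQ1, hQ2, hQ3⟩, hPQ⟩ := hneg
        -- Newton condition
        have hcond : L ≤ (2 * (θ * d) + 1) * hr := by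
          have e1 : ((1 + 2 * θ) * d + 2) * hr ≥ 3 * L - d * hP - C3 := by
            rw [← hcmul]
            exact mul_le_mul_of_nonneg_left hrc hden.le
          have e2 : (d : ℝ) * hP ≤ d * hr := mul_le_mul_of_nonneg_left hrP (by linarith)
          have e3 : C3 ≤ hr := by linarith
          have e4 : 0 ≤ (4 * θ - 2) * d * hr := by
            apply mul_nonneg _ hr0
            apply mul_nonneg <;> linarith
          have e5 : 3 * ((2 * (θ * d) + 1) * hr) = ((1 + 2 * θ) * d + 2) * hr + d * hr +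
            (4 * θ - 2) * d * hr + hr := by ring
          linarith
        have hexpcond : 1 ≤ v * Real.exp hr ^ (2 * (θ * (d : ℝ)) + 1) := by
          rw [← Real.exp_mul, ← Real.exp_log hv0, ← Real.exp_add]
          apply Real.one_le_exp
          rw [hlv]
          linarith
        have hHDr : HD ≤ Real.exp hr := by
          rw [← Real.log_le_iff_le_exp (by linarith)]
          linarith
        have hPval : |aeval ξ P| ≤ v := by
          rw [hv]
          exact le_mul_of_one_le_left hPpos.le hK₀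
        have hderP := hder (Real.exp hr) hHDr v hv0 hexpcond P le_rfl hhtr hPval
        have hderQ := hder (Real.exp hr) hHDr v hv0 hexpcond Q hQ1 hQ2 hQ3
        set v' : ℝ := KD * v * Real.exp hr ^ (θ * (d : ℝ) + 1) with hv'
        have hEr : Real.exp hr ^ (θ * (d : ℝ) + 1) = Real.exp (hr * (θ * d + 1)) := by
          rw [← Real.exp_mul]
        have hEr1 : 1 ≤ Real.exp (hr * (θ * d + 1)) := Real.one_le_exp (by positivity)
        have hv'0 : 0 < v' := by
          rw [hv', hEr]; positivity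
        have hvv' : v ≤ v' := by
          rw [hv', hEr]
          have e1 : v ≤ KD * v := le_mul_of_one_le_left hv0.le hKD
          exact e1.trans (le_mul_of_one_le_right (by positivity) hEr1)
        have hvb : v * Real.exp hr ≤ v' ^ 2 := by
          have e1 : v' ^ 2 = KD ^ 2 * (v * Real.exp hr) *
              (v * Real.exp hr ^ (2 * (θ * (d : ℝ)) + 1)) := by
            rw [hv', hEr, ← Real.exp_mul]
            have e2 : Real.exp (hr * (θ * d + 1)) ^ 2 =
                Real.exp hr * Real.exp (hr * (2 * (θ * d) + 1)) := by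
              rw [← Real.exp_add, ← Real.exp_nat_mul]
              congr 1
              push_cast
              ring
            calc (KD * v * Real.exp (hr * (θ * d + 1))) ^ 2
                = KD ^ 2 * v ^ 2 * Real.exp (hr * (θ * d + 1)) ^ 2 := by ring
              _ = KD ^ 2 * v ^ 2 * (Real.exp hr * Real.exp (hr * (2 * (θ * d) + 1))) := by rw [e2]
              _ = _ := by ring
          rw [e1]
          have e3 : 1 ≤ KD ^ 2 := one_le_pow₀ hKD
          have e4 : 0 < v * Real.exp hr := by positivity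
          calc v * Real.exp hr = 1 * (v * Real.exp hr) * 1 := by ring
            _ ≤ KD ^ 2 * (v * Real.exp hr) * (v * Real.exp hr ^ (2 * (θ * (d : ℝ)) + 1)) := by
                apply mul_le_mul _ hexpcond zero_le_one (by positivity)
                exact mul_le_mul_of_nonneg_right e3 e4.le
        have hfin := hCr d hdn (by omega) P Q rfl hQ1 hirr hPQ (ht P) (Real.exp hr) v v' hht1 hhtr
          le_rfl hQ2 hv0 hvv' hvb hPval hQ3 hderP hderQ
        have hlog := Real.log_le_log one_pos hfin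
        have hx1 : (0 : ℝ) < (ht P : ℝ) ^ d := pow_pos hht0 d
        have hx2 : (0 : ℝ) < Real.exp hr ^ d := pow_pos (Real.exp_pos _) d
        rw [Real.log_one, Real.log_mul (by linarith) (by positivity),
          Real.log_mul (mul_pos hx1 hx2).ne' (by positivity), Real.log_mul hx1.ne' hx2.ne',
          Real.log_mul hv0.ne' (by positivity), Real.log_pow, Real.log_pow, Real.log_pow,
          Real.log_exp] at hlog
        have hlv' : Real.log v' = Real.log KD - L + hr * (θ * d + 1) := by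
          rw [hv', hEr, Real.log_mul (by positivity) (Real.exp_pos _).ne', Real.log_exp,
            Real.log_mul (by linarith) hv0.ne', hlv]
          ring
        rw [hlv', hlv] at hlog
        push_cast at hlog
        have e6 : ((1 + 2 * θ) * d + 2) * hr ≤ ((1 + 2 * θ) * d + 2) * hc +
            ((1 + 2 * θ) * d + 2) * C2 := by
          rw [← mul_add]
          exact mul_le_mul_of_nonneg_left hrC hden.le
        have e7 : ((1 + 2 * θ) * d + 2) * C2 ≤ ((1 + 2 * θ) * n + 2) * C2 := by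
          apply mul_le_mul_of_nonneg_right _ hC20
          have := mul_le_mul_of_nonneg_left hdnR (by linarith : 0 ≤ 1 + 2 * θ)
          linarith
        have e8 : 2 * (hr * (θ * d + 1)) = ((1 + 2 * θ) * d + 2) * hr - d * hr := by ring
        have e9 : 2 * (Real.log KD - L + hr * (θ * d + 1)) = 2 * Real.log KD - 2 * L +
          (((1 + 2 * θ) * d + 2) * hr - d * hr) := by rw [← e8]; ring
        rw [e9] at hlog
        linarith
      have h1 := hCu d hdn P hPξ le_rfl (Real.exp hr) hhtr hall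
      rw [← hd, Nat.sub_self, pow_zero, mul_one] at h1
      exact (n1_mono ξ le_rfl (Real.exp_le_exp.2 hrc) le_rfl).trans h1
  obtain ⟨hs, hs1, hs2, hs3⟩ := hcount
  have hs0 : 0 ≤ hs := by linarith
  refine ⟨hs, by linarith, ?_, ?_, ?_, hv1⟩
  · have e1 : ((1 + 2 * θ) * d + 2) * hc ≤ ((1 + 2 * θ) * d + 2) * hs :=
      mul_le_mul_of_nonneg_left hs1 hden.le
    rw [hcmul] at e1
    linarith
  · have h1 : 1 ≤ n1 ξ d (Real.exp hs) v := one_le_n1 ξ d _ v (Real.exp_pos _).le hv0.le
    have h2 : n1 ξ d (Real.exp hs) v ≤ Cu * (2 * K₀ + 3) := by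
      refine hs3.trans (max_le ?_ ?_)
      · exact le_mul_of_one_le_right (by linarith) (by linarith)
      · exact le_mul_of_one_le_left (by linarith) hCu1
    have h3 := Real.log_le_log (by linarith) h2
    rw [Real.log_mul (by linarith) (by linarith)] at h3
    linarith
  · have h1 := hcD d hdn (Real.exp hs) v (Real.one_le_exp hs0) hv0 hv1
    have h2 : n1 ξ d (Real.exp hs) v ≤ Cu * (2 * K₀ + 3) := by
      refine hs3.trans (max_le ?_ ?_)
      · exact le_mul_of_one_le_right (by linarith) (by linarith)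
      · exact le_mul_of_one_le_left (by linarith) hCu1
    have h3 := Real.log_le_log (by positivity) (h1.trans h2)
    have hx : (0 : ℝ) < Real.exp hs ^ d := pow_pos (Real.exp_pos _) d
    have hCu0 : Cu ≠ 0 := by linarith
    have hK₀0 : 2 * K₀ + 3 ≠ 0 := by linarith
    rw [Real.log_mul hcD0.ne' (mul_pos hx hv0).ne', Real.log_mul hx.ne' hv0.ne',
      Real.log_mul hCu0 hK₀0, Real.log_pow, Real.log_exp, hlv] at h3
    have h4 := neg_abs_le (Real.log cD)
    linarith

end Pool.Agent.WR
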