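import Pool.Agent.WR.Defs

set_option autoImplicit false

namespace Pool.Agent.WR

open Polynomial Pool.Agent.H81S

/-- W-DERIV -/
theorem deriv_small (ξ : ℝ) (hξ : Transcendental ℤ ξ) (m : ℕ) (w : ℝ) (hw : 0 ≤ w)
    (hfin : ¬ (A ξ m w).Infinite) :
    ∃ K : ℝ, 1 ≤ K ∧ ∃ H₀ : ℝ, 1 ≤ H₀ ∧ ∀ H ≥ H₀, ∀ v : ℝ, 0 < v → 1 ≤ v * H ^ (2 * w + 1) →
      ∀ Q : ℤ[X], Q.natDegree ≤ m → (ht Q : ℝ) ≤ H → |aeval ξ Q| ≤ v →
        |aeval ξ (derivative Q)| ≤ K * v * H ^ (w + 1) := by
  have hη : ∃ η : ℝ, 0 < η ∧ ∀ α ∈ A ξ m w, η ≤ |ξ - α| := by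
    by_contra hcon
    push Not at hcon
    exact hfin (infinite_of_close ξ m w hcon)
  obtain ⟨η, hη0, hη⟩ := hη
  obtain ⟨K₁, hK₁, happ⟩ := approx_of_poly ξ hξ m
  have hK₁0 : 0 < K₁ := by linarith
  set T : ℝ := K₁ ^ (w + 1) with hT
  have hT1 : 1 ≤ T := Real.one_le_rpow hK₁ (by linarith)
  refine ⟨3 * T + 3 * K₁, by linarith, 1 + 1 / η, by
    have : 0 < 1 / η := by positivity
    linarith, ?_⟩
  intro H hH v hv hvH Q hQm hQH hQv
  by_contra hcon
  push Not at hcon
  have hη1 : 0 < 1 / η := by positivity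
  have hH1 : 1 < H := by
    have : 1 + 1 / η ≤ H := hH
    linarith
  have hH0 : 0 < H := by linarith
  set U : ℝ := H ^ (w + 1) with hU
  have hUH : H ≤ U := by
    calc H = H ^ (1 : ℝ) := (Real.rpow_one H).symm
      _ ≤ H ^ (w + 1) := Real.rpow_le_rpow_of_exponent_le hH1.le (by linarith)
  have hU0 : 0 < U := by linarith
  set K : ℝ := 3 * T + 3 * K₁ with hK
  set D : ℝ := |aeval ξ (derivative Q)| with hD
  have hKvU : 0 < K * v * U := by positivity
  have hD0 : 0 < D := by linarith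
  have hQ0 : Q ≠ 0 := by
    rintro rfl
    simp [hD] at hD0
  -- U ^ 2 = H * H ^ (2 w + 1)
  have hU2 : U * U = H * H ^ (2 * w + 1) := by
    rw [hU, ← Real.rpow_add hH0]
    nth_rewrite 2 [← Real.rpow_one H]
    rw [← Real.rpow_add hH0]
    congr 1
    ring
  have hKK : 3 * K₁ ≤ K * K := by nlinarith
  have hK6 : 6 ≤ K := by linarith
  have hDD : 3 * K₁ * (v * H) ≤ D * D := by
    have h1 : (K * v * U) * (K * v * U) ≤ D * D := by
      apply mul_le_mul hcon.le hcon.le hKvU.le hD0.le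
    have h2 : (K * v * U) * (K * v * U) = (K * K) * (v * H) * (v * H ^ (2 * w + 1)) := by
      calc (K * v * U) * (K * v * U) = K * K * v * v * (U * U) := by ring
        _ = K * K * v * v * (H * H ^ (2 * w + 1)) := by rw [hU2]
        _ = _ := by ring
    have h3 : (K * K) * (v * H) * 1 ≤ (K * K) * (v * H) * (v * H ^ (2 * w + 1)) := by
      apply mul_le_mul_of_nonneg_left hvH (by positivity)
    have h4 : 3 * K₁ * (v * H) ≤ (K * K) * (v * H) :=
      mul_le_mul_of_nonneg_right hKK (by positivity)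
    linarith
  obtain ⟨α, f, hf, hfm, hfα, hα0, hαδ, hfH⟩ := happ Q H D v (3 * v / D) hQ0 hQm hQH hQv le_rfl
    (by positivity)
    (by
      rw [div_le_one hD0]
      have h1 : 3 * v ≤ K * v * U := by
        have h2 : v * 1 ≤ v * U := mul_le_mul_of_nonneg_left (by linarith) hv.le
        nlinarith
      linarith)
    (by
      rw [mul_div_assoc', div_le_iff₀ hD0]
      calc K₁ * H * (3 * v) = 3 * K₁ * (v * H) := by ring
        _ ≤ D * D := hDD)
    (by
      have : 3 * v / D * D / 2 = 3 * v / 2 := by field_simp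
      rw [this]
      linarith)
  have hf0 : f ≠ 0 := hf.ne_zero
  have hht : (1 : ℝ) ≤ (ht f : ℝ) := ht_pos_real hf0
  have hδ1 : 3 * v / D < 3 / (K * U) := by
    rw [div_lt_div_iff₀ hD0 (by positivity)]
    calc 3 * v * (K * U) = 3 * (K * v * U) := by ring
      _ < 3 * D := by linarith
  have hδ2 : 3 / (K * U) ≤ (K₁ * H) ^ (-w - 1) := by
    have h1 : (K₁ * H) ^ (-w - 1) = 1 / (T * U) := by
      have h2 : (-w - 1 : ℝ) = -(w + 1) := by ring
      rw [h2, Real.rpow_neg (by positivity), Real.mul_rpow hK₁0.le hH0.le, one_div]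
    rw [h1, div_le_div_iff₀ (by positivity) (by positivity)]
    have h3 : 3 * T ≤ K := by linarith
    have h4 : 3 * T * U ≤ K * U := mul_le_mul_of_nonneg_right h3 hU0.le
    linarith
  have hδ3 : (K₁ * H) ^ (-w - 1) ≤ (ht f : ℝ) ^ (-w - 1) := by
    apply Real.rpow_le_rpow_of_nonpos (by linarith) hfH (by linarith)
  have hmem : α ∈ A ξ m w := ⟨f, hf, hfm, hfα, hα0, by linarith⟩
  have h5 := hη α hmem
  have h6 : 3 / (K * U) < η := by
    rw [div_lt_iff₀ (by positivity)]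
    have h7 : 1 / η < U := by
      have : 1 + 1 / η ≤ H := hH
      linarith
    have h8 : 1 < η * U := by
      rw [div_lt_iff₀ hη0] at h7
      linarith
    have h9 : K * 1 ≤ K * (η * U) := mul_le_mul_of_nonneg_left h8.le (by linarith)
    calc (3 : ℝ) < K * 1 := by linarith
      _ ≤ K * (η * U) := h9
      _ = η * (K * U) := by ring
  linarith

end Pool.Agent.WR
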