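import Mathlib

/-!
# WIRSING, module W-NUMERIC

`x / (x^2 + x + θ) ≤ p x` on `[0, r]`, `r = 0.77953 ≥ √((1 + θ) / 3)`, where `p` is the polynomial
of degree five with `p x * (x^2 + x + θ) - x = x (r - x) (u + v x) (x - 0.22)^2 (x - 0.56)^2`.
-/

set_option autoImplicit false

namespace Pool.Agent.WR

theorem hasDerivAt_quintic (a b c d e x : ℝ) :
    HasDerivAt (fun x : ℝ => a * x ^ 2 / 2 + b * x ^ 3 / 3 + c * x ^ 4 / 4 + d * x ^ 5 / 5 +
      e * x ^ 6 / 6) (a * x + b * x ^ 2 + c * x ^ 3 + d * x ^ 4 + e * x ^ 5) x := by
  have e2 := ((hasDerivAt_pow 2 x).const_mul a).div_const 2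
  have e3 := ((hasDerivAt_pow 3 x).const_mul b).div_const 3
  have e4 := ((hasDerivAt_pow 4 x).const_mul c).div_const 4
  have e5 := ((hasDerivAt_pow 5 x).const_mul d).div_const 5
  have e6 := ((hasDerivAt_pow 6 x).const_mul e).div_const 6
  have e := (((e2.add e3).add e4).add e5).add e6
  refine e.congr_deriv ?_
  push_cast
  ring

theorem numeric : ∫ x in (0 : ℝ)..√((1 + 823 / 1000) / 3), x / (x ^ 2 + x + 823 / 1000) <
    Real.log (2 * (1 + 823 / 1000) / (3 * (823 / 1000))) / 2 := by
  have hR : √((1 + 823 / 1000) / 3 : ℝ) ≤ 77953 / 100000 :=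
    Real.sqrt_le_iff.mpr ⟨by norm_num, by norm_num⟩
  have hQ : ∀ x : ℝ, 0 < x ^ 2 + x + 823 / 1000 := fun x => by nlinarith [sq_nonneg (x + 1 / 2)]
  have hc : Continuous fun x : ℝ => x / (x ^ 2 + x + 823 / 1000) :=
    continuous_id.div (by fun_prop) fun x => (hQ x).ne'
  have h1 : ∫ x in (0 : ℝ)..√((1 + 823 / 1000) / 3), x / (x ^ 2 + x + 823 / 1000) ≤
      ∫ x in (0 : ℝ)..(77953 / 100000), x / (x ^ 2 + x + 823 / 1000) := by
    apply intervalIntegral.integral_mono_interval le_rfl (Real.sqrt_nonneg _) hR
    · refine (MeasureTheory.ae_restrict_mem measurableSet_Ioc).mono fun x hx => ?_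
      exact div_nonneg hx.1.le (hQ x).le
    · exact hc.intervalIntegrable _ _
  have h2 : ∫ x in (0 : ℝ)..(77953 / 100000), x / (x ^ 2 + x + 823 / 1000) ≤
      ∫ x in (0 : ℝ)..(77953 / 100000), ((1752408285710384610335000 / 1435237889158665229006953) * x + (-748439360694793387000000 / 478412629719555076335651) * x ^ 2 + (12989921004507909775000000 / 15787616780745317519076483) * x ^ 3 + (-50261762984195000000000 / 5262538926915105839692161) * x ^ 4 +
        (-1901941755500000000000000 / 15787616780745317519076483) * x ^ 5) := by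
    apply intervalIntegral.integral_mono_on (by norm_num) (hc.intervalIntegrable _ _)
    · exact Continuous.intervalIntegrable (by fun_prop) _ _
    · intro x hx
      rw [div_le_iff₀ (hQ x)]
      have h3 : 0 ≤ x * (77953 / 100000 - x) * ((6502376839697500000000000 / 15787616780745317519076483) + (1901941755500000000000000 / 15787616780745317519076483) * x) * (x - 11 / 50) ^ 2 *
          (x - 14 / 25) ^ 2 := by
        have h4 : 0 ≤ 77953 / 100000 - x := by linarith [hx.2]
        have h5 := hx.1
        positivity
      linear_combination h3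
  have h3 : ∫ x in (0 : ℝ)..(77953 / 100000), ((1752408285710384610335000 / 1435237889158665229006953) * x + (-748439360694793387000000 / 478412629719555076335651) * x ^ 2 + (12989921004507909775000000 / 15787616780745317519076483) * x ^ 3 + (-50261762984195000000000 / 5262538926915105839692161) * x ^ 4 +
        (-1901941755500000000000000 / 15787616780745317519076483) * x ^ 5) ≤ 19486 / 100000 := by
    have h4 : ∀ x : ℝ, HasDerivAt (fun x : ℝ => (1752408285710384610335000 / 1435237889158665229006953) * x ^ 2 / 2 + (-748439360694793387000000 / 478412629719555076335651) * x ^ 3 / 3 + (12989921004507909775000000 / 15787616780745317519076483) * x ^ 4 / 4 +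
        (-50261762984195000000000 / 5262538926915105839692161) * x ^ 5 / 5 + (-1901941755500000000000000 / 15787616780745317519076483) * x ^ 6 / 6) ((1752408285710384610335000 / 1435237889158665229006953) * x + (-748439360694793387000000 / 478412629719555076335651) * x ^ 2 + (12989921004507909775000000 / 15787616780745317519076483) * x ^ 3 + (-50261762984195000000000 / 5262538926915105839692161) * x ^ 4 +
        (-1901941755500000000000000 / 15787616780745317519076483) * x ^ 5) x := by
      exact fun x => hasDerivAt_quintic _ _ _ _ _ x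
    rw [intervalIntegral.integral_eq_sub_of_hasDerivAt (fun x _ => h4 x)
      (Continuous.intervalIntegrable (by fun_prop) _ _)]
    norm_num
  have h4 : (19486 / 100000 : ℝ) * 2 < Real.log (2 * (1 + 823 / 1000) / (3 * (823 / 1000))) := by
    rw [Real.lt_log_iff_exp_lt (by norm_num)]
    refine lt_of_le_of_lt (Real.exp_bound' (by norm_num) (by norm_num) (n := 7) (by norm_num)) ?_
    norm_num [Finset.sum_range_succ, Nat.factorial]
  linarith

end Pool.Agent.WR
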