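import Pool.Agent.WR.Defs

set_option autoImplicit false

/-!
WIRSING, module W-SELECT: selection of a minimal irreducible polynomial of large height and
degree larger than `k`.
-/

namespace Pool.Agent.WR

open Polynomial Pool.Agent.H81S

/-- Dirichlet: a nonzero polynomial of degree at most `n`, height at most `Y`, which is small
at `ξ`. -/
theorem sel_dirichlet (ξ : ℝ) (n : ℕ) : ∃ C : ℝ, 1 ≤ C ∧ ∀ Y : ℝ, 1 < Y → C * Y ^ (-(n : ℝ)) ≤ 1 →
    ∃ Q : ℤ[X], Q ≠ 0 ∧ Q.natDegree ≤ n ∧ (ht Q : ℝ) ≤ Y ∧ |aeval ξ Q| ≤ C * Y ^ (-(n : ℝ)) := by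
  set L : ℝ := 2 * ((n + 1) * (1 + |ξ|) ^ n) + 2 with hL
  have hL0 : 0 ≤ ((n : ℝ) + 1) * (1 + |ξ|) ^ n := by positivity
  refine ⟨L + 1, by rw [hL]; linarith, ?_⟩
  intro Y hY hY1
  by_contra hno
  push Not at hno
  set v : ℝ := (L + 1) * Y ^ (-(n : ℝ)) with hv
  have hY0 : 0 < Y := by linarith
  have hYp : 0 < Y ^ (-(n : ℝ)) := Real.rpow_pos_of_pos hY0 _
  have hv0 : 0 < v := by
    have : 0 < L + 1 := by rw [hL]; linarith
    positivity
  have hlogY : 0 < Real.log Y := Real.log_pos hY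
  set w' : ℝ := -(Real.log v / Real.log Y) with hw'
  have hvw : v = Y ^ (-w') := by
    rw [hw', neg_neg, Real.rpow_def_of_pos hY0]
    rw [mul_div_assoc', mul_div_cancel_left₀ _ hlogY.ne', Real.exp_log hv0]
  have hzero : ∀ P ∈ G ξ n Y w', P = 0 := by
    intro P hP
    by_contra hP0
    have h1 := hno P hP0 hP.1 hP.2.1
    have h2 := hP.2.2
    rw [← hvw] at h2
    linarith
  have hspan : Module.finrank ℚ (spanQ (G ξ n Y w')) ≤ 0 := by
    have h1 : spanQ (G ξ n Y w') = ⊥ := by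
      unfold spanQ
      rw [Submodule.span_eq_bot]
      rintro _ ⟨P, hP, rfl⟩
      rw [hzero P hP]
      simp
    rw [h1, finrank_bot]
  have h := count ξ n 0 Y Y w' v hY.le le_rfl hvw hv0 hY1 (by
    intro P hP0 hPd hPv
    by_contra hle
    push Not at hle
    have := hno P hP0 hPd hle
    linarith) hspan
  rw [pow_zero, mul_one, ← hL] at h
  have h2 : Y ^ (n + 1) * v ≤ L * Y := by
    have h3 := mul_le_mul_of_nonneg_right h hv0.le
    have h4 : L * (Y / v) * v = L * Y := by field_simp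
    rw [h4] at h3
    exact h3
  have h5 : Y ^ (n + 1) * v = (L + 1) * Y := by
    rw [hv, Real.rpow_neg hY0.le, Real.rpow_natCast, pow_succ]
    field_simp
  rw [h5] at h2
  nlinarith

theorem sel_ht_mul (P Q : ℤ[X]) (n : ℕ) (hn : (P * Q).natDegree ≤ n) (hP : P ≠ 0) (hQ : Q ≠ 0) :
    (ht (P * Q) : ℝ) ≤ (n + 1) * ((ht P : ℝ) * ht Q) := by
  apply ht_le_of_real
  intro i
  by_cases hi : n < i
  · rw [coeff_eq_zero_of_natDegree_lt (lt_of_le_of_lt hn hi)]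
    simp
    positivity
  push Not at hi
  rw [coeff_mul]
  push_cast
  calc |∑ x ∈ Finset.HasAntidiagonal.antidiagonal i, (P.coeff x.1 : ℝ) * (Q.coeff x.2 : ℝ)|
      ≤ ∑ x ∈ Finset.HasAntidiagonal.antidiagonal i, |(P.coeff x.1 : ℝ) * (Q.coeff x.2 : ℝ)| :=
        Finset.abs_sum_le_sum_abs _ _
    _ ≤ ∑ x ∈ Finset.HasAntidiagonal.antidiagonal i, ((ht P : ℝ) * ht Q) := by
        apply Finset.sum_le_sum
        intro x _
        rw [abs_mul]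
        exact mul_le_mul (abs_coeff_le P _) (abs_coeff_le Q _) (abs_nonneg _) (Nat.cast_nonneg _)
    _ = ((i : ℝ) + 1) * ((ht P : ℝ) * ht Q) := by
        rw [Finset.sum_const, Finset.Nat.card_antidiagonal, nsmul_eq_mul]
        push_cast
        ring
    _ ≤ _ := by
        apply mul_le_mul_of_nonneg_right _ (by positivity)
        have : (i : ℝ) ≤ n := by exact_mod_cast hi
        linarith

/-- lower bound for the value at `ξ`, when the irreducible factors of large degree are not too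
small. -/
theorem sel_lower (ξ : ℝ) (k : ℕ) (c w₁ : ℝ) (hc : 0 < c) (hc1 : c ≤ 1) (hw₁ : 0 < w₁)
    (hcb : ∀ f : ℤ[X], Irreducible f → f.natDegree ≤ k → c * (ht f : ℝ) ^ (-w₁) ≤ |aeval ξ f|)
    (δ : ℝ) (hδ : 0 < δ) (hδ1 : δ ≤ 1) (P : ℤ[X]) (hP : P ≠ 0)
    (hfac : ∀ f : ℤ[X], Irreducible f → f ∣ P → k < f.natDegree → δ ≤ |aeval ξ f|) :
    (c * ((2 : ℝ) ^ k) ^ (-w₁) * δ) ^ P.natDegree * (mm P) ^ (-w₁) ≤ |aeval ξ P| := by
  have h2k : (1 : ℝ) ≤ (2 : ℝ) ^ k := one_le_pow₀ (by norm_num)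
  have h2kp : ((2 : ℝ) ^ k) ^ (-w₁) ≤ 1 := Real.rpow_le_one_of_one_le_of_nonpos h2k (by linarith)
  have h2kp0 : 0 < ((2 : ℝ) ^ k) ^ (-w₁) := Real.rpow_pos_of_pos (by positivity) _
  set c₂ : ℝ := c * ((2 : ℝ) ^ k) ^ (-w₁) with hc₂
  have hc₂0 : 0 < c₂ := by positivity
  have hc₂1 : c₂ ≤ 1 := by
    rw [hc₂]
    calc c * ((2 : ℝ) ^ k) ^ (-w₁) ≤ 1 * 1 := mul_le_mul hc1 h2kp h2kp0.le zero_le_one
      _ = 1 := mul_one _
  have hcδ0 : 0 < c₂ * δ := by positivity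
  have hcδ1 : c₂ * δ ≤ 1 := by
    calc c₂ * δ ≤ 1 * 1 := mul_le_mul hc₂1 hδ1 hδ.le zero_le_one
      _ = 1 := mul_one _
  have hcδδ : c₂ * δ ≤ δ := by nlinarith
  have hcδc : c₂ * δ ≤ c₂ := by nlinarith
  revert hP hfac
  induction P using WfDvdMonoid.induction_on_irreducible with
  | zero => intro h; exact absurd rfl h
  | unit u hu =>
    intro hu0 _
    have hd := natDegree_eq_zero_of_isUnit hu
    have h1 : (1 : ℝ) ≤ |aeval ξ u| := one_le_abs_of_const u hu0 hd ξ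
    rw [hd, pow_zero, one_mul]
    exact (Real.rpow_le_one_of_one_le_of_nonpos (one_le_mm hu0) (by linarith)).trans h1
  | mul a i ha hi ih =>
    intro _ hfac
    have hi0 : i ≠ 0 := hi.ne_zero
    have h1 := ih ha (fun f hf hfa hk => hfac f hf (hfa.trans (dvd_mul_left _ _)) hk)
    have hmi : 1 ≤ mm i := one_le_mm hi0
    have hma : 1 ≤ mm a := one_le_mm ha
    have h2 : (c₂ * δ) ^ i.natDegree * (mm i) ^ (-w₁) ≤ |aeval ξ i| := by
      by_cases hdi : i.natDegree = 0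
      · have h5 : (1 : ℝ) ≤ |aeval ξ i| := one_le_abs_of_const i hi0 hdi ξ
        rw [hdi, pow_zero, one_mul]
        exact (Real.rpow_le_one_of_one_le_of_nonpos hmi (by linarith)).trans h5
      · have h4 : (c₂ * δ) ^ i.natDegree ≤ c₂ * δ := pow_le_of_le_one hcδ0.le hcδ1 hdi
        have hmip : 0 ≤ (mm i) ^ (-w₁) := Real.rpow_nonneg (by linarith) _
        by_cases hik : k < i.natDegree
        · have h6 := hfac i hi (dvd_mul_right _ _) hik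
          have h7 : (mm i) ^ (-w₁) ≤ 1 := Real.rpow_le_one_of_one_le_of_nonpos hmi (by linarith)
          calc (c₂ * δ) ^ i.natDegree * (mm i) ^ (-w₁) ≤ δ * 1 :=
                mul_le_mul (h4.trans hcδδ) h7 hmip hδ.le
            _ = δ := mul_one _
            _ ≤ _ := h6
        · push Not at hik
          have h3 := hcb i hi hik
          have hi1 : (1 : ℝ) ≤ ht i := ht_pos_real hi0
          have h5 : ((2 : ℝ) ^ k * mm i) ^ (-w₁) ≤ (ht i : ℝ) ^ (-w₁) :=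
            Real.rpow_le_rpow_of_nonpos (by linarith) (ht_le_mm i k hik) (by linarith)
          rw [Real.mul_rpow (by positivity) (by linarith)] at h5
          calc (c₂ * δ) ^ i.natDegree * (mm i) ^ (-w₁) ≤ c₂ * (mm i) ^ (-w₁) :=
                mul_le_mul_of_nonneg_right (h4.trans hcδc) hmip
            _ = c * (((2 : ℝ) ^ k) ^ (-w₁) * (mm i) ^ (-w₁)) := by rw [hc₂]; ring
            _ ≤ c * (ht i : ℝ) ^ (-w₁) := mul_le_mul_of_nonneg_left h5 hc.le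
            _ ≤ _ := h3
    rw [natDegree_mul hi0 ha, mm_mul, map_mul, abs_mul, Real.mul_rpow (by linarith) (by linarith),
      pow_add]
    calc (c₂ * δ) ^ i.natDegree * (c₂ * δ) ^ a.natDegree * ((mm i) ^ (-w₁) * (mm a) ^ (-w₁))
        = ((c₂ * δ) ^ i.natDegree * (mm i) ^ (-w₁)) *
          ((c₂ * δ) ^ a.natDegree * (mm a) ^ (-w₁)) := by ring
      _ ≤ |aeval ξ i| * |aeval ξ a| := by
          apply mul_le_mul h2 h1 _ (abs_nonneg _)
          have : 0 ≤ (mm a) ^ (-w₁) := Real.rpow_nonneg (by linarith) _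
          positivity

/-- W-SELECT -/
theorem selection (ξ : ℝ) (hξ : Transcendental ℤ ξ) (k : ℕ) (hk : 1 ≤ k) (w : ℝ)
    (hw : 2 * (k : ℝ) ≤ w) (hfin : ¬ (A ξ k w).Infinite) :
    ∃ n : ℕ, ∃ K : ℝ, 1 ≤ K ∧ ∀ R : ℝ, ∃ P : ℤ[X], Irreducible P ∧ k < P.natDegree ∧
      P.natDegree ≤ n ∧ R ≤ (ht P : ℝ) ∧
      ∀ Q : ℤ[X], Q ≠ 0 → Q.natDegree ≤ P.natDegree → K * (ht Q : ℝ) ≤ ht P →
        |aeval ξ P| ≤ |aeval ξ Q| := by
  obtain ⟨c, hc, hc1, hcb⟩ := lower_irred ξ hξ k k le_rfl hk w hw hfin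
  have hk0 : (1 : ℝ) ≤ k := by exact_mod_cast hk
  set w₁ : ℝ := w + 2 * k + 1 with hw₁
  have hw₁0 : 0 < w₁ := by rw [hw₁]; linarith
  obtain ⟨n, hn⟩ := exists_nat_gt w₁
  have hn0 : (0 : ℝ) < n := by linarith
  obtain ⟨C, hC1, hC⟩ := sel_dirichlet ξ n
  have hpos : ∀ P : ℤ[X], P ≠ 0 → 0 < |aeval ξ P| := by
    intro P hP
    rw [abs_pos]
    intro h
    exact hξ ⟨P, hP, h⟩
  refine ⟨n, ((n : ℝ) + 1) * (4 ^ n * (n + 1)), ?_, ?_⟩
  · have h1 : (1 : ℝ) ≤ (n : ℝ) + 1 := by linarith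
    have h2 : (1 : ℝ) ≤ 4 ^ n := one_le_pow₀ (by norm_num)
    have h3 : (1 : ℝ) ≤ 4 ^ n * ((n : ℝ) + 1) := by nlinarith
    nlinarith
  intro R
  obtain ⟨δ, hδ, hδ1, hδb⟩ := exists_lower ξ hξ n R
  set b : ℝ := c * ((2 : ℝ) ^ k) ^ (-w₁) * δ with hb
  have h2k : (1 : ℝ) ≤ (2 : ℝ) ^ k := one_le_pow₀ (by norm_num)
  have h2kp : ((2 : ℝ) ^ k) ^ (-w₁) ≤ 1 := Real.rpow_le_one_of_one_le_of_nonpos h2k (by linarith)
  have h2kp0 : 0 < ((2 : ℝ) ^ k) ^ (-w₁) := Real.rpow_pos_of_pos (by positivity) _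
  have hb0 : 0 < b := by positivity
  have hb1 : b ≤ 1 := by
    rw [hb]
    calc c * ((2 : ℝ) ^ k) ^ (-w₁) * δ ≤ (1 * 1) * 1 :=
          mul_le_mul (mul_le_mul hc1 h2kp h2kp0.le zero_le_one) hδ1 hδ.le (by norm_num)
      _ = 1 := by norm_num
  -- a large parameter `Y`
  have ev1 : ∀ᶠ Y : ℝ in Filter.atTop, C * Y ^ (-(n : ℝ)) ≤ 1 := by
    have h1 : Filter.Tendsto (fun Y : ℝ => C * Y ^ (-(n : ℝ))) Filter.atTop (nhds 0) := by
      have := (tendsto_rpow_neg_atTop hn0).const_mul C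
      simpa using this
    exact (h1.eventually_lt_const one_pos).mono (fun _ h => h.le)
  have ev2 : ∀ᶠ Y : ℝ in Filter.atTop,
      C < b ^ n * ((n : ℝ) + 1) ^ (-w₁) * Y ^ ((n : ℝ) - w₁) := by
    have h0 : 0 < b ^ n * ((n : ℝ) + 1) ^ (-w₁) := by positivity
    have h1 : Filter.Tendsto (fun Y : ℝ => b ^ n * ((n : ℝ) + 1) ^ (-w₁) * Y ^ ((n : ℝ) - w₁))
        Filter.atTop Filter.atTop :=
      (tendsto_rpow_atTop (show 0 < (n : ℝ) - w₁ by linarith)).const_mul_atTop h0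
    exact h1.eventually_gt_atTop C
  obtain ⟨Y, hY1, hY2, hY3⟩ := (ev1.and (ev2.and (Filter.eventually_gt_atTop (1 : ℝ)))).exists
  have hY0 : 0 < Y := by linarith
  -- the minimal polynomial
  obtain ⟨Q₀, hQ₀, hQ₀d, hQ₀h, hQ₀v⟩ := hC Y hY3 hY1
  have hfinS : {P : ℤ[X] | (P.natDegree ≤ n ∧ (ht P : ℝ) ≤ Y) ∧ P ≠ 0}.Finite :=
    (finite_ht n Y).subset (fun P hP => hP.1)
  obtain ⟨Q, hQ, hQmin⟩ := Set.exists_min_image _ (fun P : ℤ[X] => |aeval ξ P|) hfinS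
    ⟨Q₀, ⟨hQ₀d, hQ₀h⟩, hQ₀⟩
  obtain ⟨⟨hQd, hQh⟩, hQ0⟩ := hQ
  have hQv : |aeval ξ Q| ≤ C * Y ^ (-(n : ℝ)) := (hQmin Q₀ ⟨⟨hQ₀d, hQ₀h⟩, hQ₀⟩).trans hQ₀v
  -- some factor of large degree is small
  have hex : ∃ f : ℤ[X], Irreducible f ∧ f ∣ Q ∧ k < f.natDegree ∧ |aeval ξ f| < δ := by
    by_contra hno
    push Not at hno
    have h1 := sel_lower ξ k c w₁ hc hc1 hw₁0 hcb δ hδ hδ1 Q hQ0 hno
    rw [← hb] at h1
    have hm1 : 1 ≤ mm Q := one_le_mm hQ0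
    have h2 : (((n : ℝ) + 1) * Y) ^ (-w₁) ≤ (mm Q) ^ (-w₁) := by
      apply Real.rpow_le_rpow_of_nonpos (by linarith) _ (by linarith)
      exact (mm_le_ht Q n hQd).trans (mul_le_mul_of_nonneg_left hQh (by positivity))
    rw [Real.mul_rpow (by positivity) hY0.le] at h2
    have h3 : b ^ n ≤ b ^ Q.natDegree := pow_le_pow_of_le_one hb0.le hb1 hQd
    have h4 : b ^ n * (((n : ℝ) + 1) ^ (-w₁) * Y ^ (-w₁)) ≤ C * Y ^ (-(n : ℝ)) := by
      calc b ^ n * (((n : ℝ) + 1) ^ (-w₁) * Y ^ (-w₁)) ≤ b ^ Q.natDegree * (mm Q) ^ (-w₁) :=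
            mul_le_mul h3 h2 (by positivity) (by positivity)
        _ ≤ |aeval ξ Q| := h1
        _ ≤ _ := hQv
    have h5 : Y ^ (-w₁) = Y ^ ((n : ℝ) - w₁) * Y ^ (-(n : ℝ)) := by
      rw [← Real.rpow_add hY0]; congr 1; ring
    rw [h5] at h4
    have h6 : 0 < Y ^ (-(n : ℝ)) := Real.rpow_pos_of_pos hY0 _
    have h7 : b ^ n * ((n : ℝ) + 1) ^ (-w₁) * Y ^ ((n : ℝ) - w₁) * Y ^ (-(n : ℝ)) ≤
        C * Y ^ (-(n : ℝ)) := by
      calc _ = b ^ n * (((n : ℝ) + 1) ^ (-w₁) * (Y ^ ((n : ℝ) - w₁) * Y ^ (-(n : ℝ)))) := by ring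
        _ ≤ _ := h4
    have h8 := le_of_mul_le_mul_right h7 h6
    linarith
  obtain ⟨f, hf, hfQ, hfk, hfv⟩ := hex
  have hfd : f.natDegree ≤ n := (natDegree_le_of_dvd hfQ hQ0).trans hQd
  refine ⟨f, hf, hfk, hfd, ?_, ?_⟩
  · by_contra hlt
    push Not at hlt
    have := hδb f hf.ne_zero hfd hlt.le
    linarith
  · intro V hV hVd hVh
    obtain ⟨g, rfl⟩ := hfQ
    have hf0 : f ≠ 0 := hf.ne_zero
    have hg0 : g ≠ 0 := right_ne_zero_of_mul hQ0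
    have hfg := natDegree_mul hf0 hg0
    have hVg := natDegree_mul hV hg0
    have hVg0 : V * g ≠ 0 := mul_ne_zero hV hg0
    have hVgd : (V * g).natDegree ≤ n := by omega
    have h1 := sel_ht_mul V g n hVgd hV hg0
    have h2 := gelfond f g n (by omega) (by omega) hQd
    have h3 : (ht (V * g) : ℝ) ≤ Y := by
      have hg1 : (1 : ℝ) ≤ ht g := ht_pos_real hg0
      have hpp : (0 : ℝ) < 4 ^ n * (n + 1) := by positivity
      have h4 : (4 ^ n * ((n : ℝ) + 1)) * (((n : ℝ) + 1) * ((ht V : ℝ) * ht g)) ≤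
          (4 ^ n * ((n : ℝ) + 1)) * Y := by
        calc (4 ^ n * ((n : ℝ) + 1)) * (((n : ℝ) + 1) * ((ht V : ℝ) * ht g))
            = (((n : ℝ) + 1) * (4 ^ n * (n + 1)) * ht V) * ht g := by ring
          _ ≤ (ht f : ℝ) * ht g := mul_le_mul_of_nonneg_right hVh (by linarith)
          _ ≤ (4 ^ n * ((n : ℝ) + 1)) * ht (f * g) := h2
          _ ≤ _ := mul_le_mul_of_nonneg_left hQh hpp.le
      exact h1.trans (le_of_mul_le_mul_left h4 hpp)
    have h5 := hQmin (V * g) ⟨⟨hVgd, h3⟩, hVg0⟩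
    simp only [map_mul, abs_mul] at h5
    exact le_of_mul_le_mul_right h5 (hpos g hg0)

end Pool.Agent.WR
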