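import Pool.Agent.WR.Step
import Pool.Agent.WR.Corner
import Pool.Agent.WR.Deriv
import Pool.Agent.WR.Select
import Pool.Agent.WR.An
import Pool.Agent.WR.Numeric

set_option autoImplicit false

namespace Pool.Agent.WR

open Polynomial Pool.Agent.H81S

theorem A_anti (ξ : ℝ) (n : ℕ) (w w' : ℝ) (h : w ≤ w') : A ξ n w' ⊆ A ξ n w := by
  rintro α ⟨P, h1, h2, h3, h4, h5⟩
  refine ⟨P, h1, h2, h3, h4, h5.trans ?_⟩
  exact Real.rpow_le_rpow_of_exponent_le (ht_pos_real h1.ne_zero) (by linarith)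

/-- `deriv_small` with constants uniform in the degree -/
theorem deriv_all (ξ : ℝ) (hξ : Transcendental ℤ ξ) (θ : ℝ) (hθ : 0 ≤ θ) (N n : ℕ)
    (hfin : ∀ m, N ≤ m → ¬ (A ξ m (θ * m)).Infinite) :
    ∃ KD : ℝ, 1 ≤ KD ∧ ∃ HD : ℝ, 1 ≤ HD ∧ ∀ m : ℕ, N ≤ m → m ≤ n → ∀ H ≥ HD, ∀ v : ℝ, 0 < v →
      1 ≤ v * H ^ (2 * (θ * m) + 1) → ∀ Q : ℤ[X], Q.natDegree ≤ m → (ht Q : ℝ) ≤ H →
      |aeval ξ Q| ≤ v → |aeval ξ (derivative Q)| ≤ KD * v * H ^ (θ * m + 1) := by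
  choose! K hK1 H₀ hH₀1 hb using fun m (hm : N ≤ m) =>
    deriv_small ξ hξ m (θ * m) (by positivity) (hfin m hm)
  refine ⟨1 + ∑ m ∈ Finset.range (n + 1), |K m|, ?_, 1 + ∑ m ∈ Finset.range (n + 1), |H₀ m|, ?_, ?_⟩
  · have : 0 ≤ ∑ m ∈ Finset.range (n + 1), |K m| := Finset.sum_nonneg (fun _ _ => abs_nonneg _)
    linarith
  · have : 0 ≤ ∑ m ∈ Finset.range (n + 1), |H₀ m| := Finset.sum_nonneg (fun _ _ => abs_nonneg _)
    linarith
  · intro m hNm hmn H hH v hv hvH Q hQ1 hQ2 hQ3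
    have e1 : |K m| ≤ ∑ m ∈ Finset.range (n + 1), |K m| :=
      Finset.single_le_sum (f := fun m => |K m|) (fun _ _ => abs_nonneg _)
        (Finset.mem_range.2 (by omega))
    have e2 : |H₀ m| ≤ ∑ m ∈ Finset.range (n + 1), |H₀ m| :=
      Finset.single_le_sum (f := fun m => |H₀ m|) (fun _ _ => abs_nonneg _)
        (Finset.mem_range.2 (by omega))
    have e3 := le_abs_self (K m)
    have e4 := le_abs_self (H₀ m)
    have e5 := hK1 m hNm
    have e6 := hH₀1 m hNm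
    refine (hb m hNm H (by linarith) v hv hvH Q hQ1 hQ2 hQ3).trans ?_
    have hH0 : 0 < H := by linarith
    apply mul_le_mul_of_nonneg_right _ (Real.rpow_nonneg hH0.le _)
    apply mul_le_mul_of_nonneg_right _ hv.le
    linarith

/-! ### Inequalities between real numbers -/

theorem rv_newton (θ ρ d m L C : ℝ) (hθ : 1 / 2 ≤ θ) (hρ : 0 < ρ) (hd : 1 ≤ d) (hm : d ≤ m)
    (hL : 3 * L ≤ ((2 + 2 * θ) * d + 2) * (ρ * d) + C * (d + 1)) (hC : C * (d + 1) ≤ ρ * d) :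
    L ≤ (2 * (θ * m) + 1) * (ρ * m) := by
  have h1 : 3 * L ≤ ((2 + 2 * θ) * d + 3) * (ρ * d) := by nlinarith
  have h2 : ((2 + 2 * θ) * d + 3) * (ρ * d) ≤ 3 * ((2 * (θ * d) + 1) * (ρ * d)) := by
    have : 0 ≤ (4 * θ - 2) * (d * (ρ * d)) := by
      apply mul_nonneg (by linarith); positivity
    nlinarith
  have h3 : (2 * (θ * d) + 1) * (ρ * d) ≤ (2 * (θ * m) + 1) * (ρ * m) := by
    apply mul_le_mul _ _ (by positivity)
    · have : 0 ≤ θ * m := by apply mul_nonneg <;> linarith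
      linarith
    · have := mul_le_mul_of_nonneg_left hm (by linarith : 0 ≤ θ)
      linarith
    · exact mul_le_mul_of_nonneg_left hm hρ.le
  linarith

theorem rv_PC (θ ρ d m n L hP Cs Cc Cb : ℝ) (hθ0 : 0 ≤ θ) (hθ1 : θ ≤ 1) (hρ : 0 < ρ)
    (hd : 3 ≤ d) (hm : d + 1 ≤ m) (hmn : m ≤ 2 * n) (hn : 1 ≤ n) (hCs : 0 ≤ Cs) (hCc : 0 ≤ Cc)
    (hCb : Cs + Cc ≤ Cb) (hρC : 8 * (n + 1) * Cb ≤ ρ)
    (h1 : d * (ρ * d) - Cc ≤ L)
    (h2 : 3 * L ≤ ((1 + 2 * θ) * d + 2) * (ρ * d) + d * hP + Cc) :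
    2 * L + Cs ≤ (θ * m + 1) * (ρ * m) + d * (ρ * m) + m * hP := by
  have hd0 : 0 < d := by linarith
  have hm0 : 0 < m := by linarith
  have hbr : d ≤ 3 * m * d - 2 * d ^ 2 + θ * m ^ 2 - 2 * θ * m * d - m := by
    have e1 : 0 ≤ θ * (m - d) ^ 2 := by positivity
    have e2 : θ * d ^ 2 ≤ 1 * d ^ 2 := mul_le_mul_of_nonneg_right hθ1 (by positivity)
    nlinarith
  have hmul : d * (2 * L + Cs) ≤ d * ((θ * m + 1) * (ρ * m) + d * (ρ * m) + m * hP) := by
    have e1 : m * (3 * L - ((1 + 2 * θ) * d + 2) * (ρ * d) - Cc) ≤ m * (d * hP) :=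
      mul_le_mul_of_nonneg_left (by linarith) hm0.le
    have e2 : (3 * m - 2 * d) * (d * (ρ * d) - Cc) ≤ (3 * m - 2 * d) * L :=
      mul_le_mul_of_nonneg_left h1 (by linarith)
    have e3 : ρ * d * d ≤ ρ * d * (3 * m * d - 2 * d ^ 2 + θ * m ^ 2 - 2 * θ * m * d - m) :=
      mul_le_mul_of_nonneg_left hbr (by positivity)
    have e4 : (4 * m - 2 * d) * Cc + d * Cs ≤ ρ * d * d := by
      have f1 : (4 * m - 2 * d) * Cc ≤ 8 * n * Cc := mul_le_mul_of_nonneg_right (by linarith) hCc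
      have f2 : 8 * n * Cc ≤ 8 * n * Cc * d := le_mul_of_one_le_right (by positivity) (by linarith)
      have f3 : 8 * (n + 1) * Cb * d ≤ ρ * d := mul_le_mul_of_nonneg_right hρC hd0.le
      have f4 : ρ * d ≤ ρ * d * d := le_mul_of_one_le_right (by positivity) (by linarith)
      have f5 : 8 * n * Cc * d + d * Cs ≤ 8 * (n + 1) * Cb * d := by
        have g1 : 8 * n * Cc + Cs ≤ 8 * (n + 1) * Cb := by
          have : 8 * (n + 1) * (Cs + Cc) ≤ 8 * (n + 1) * Cb :=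
            mul_le_mul_of_nonneg_left hCb (by linarith)
          nlinarith [mul_nonneg (by linarith : 0 ≤ n) hCs]
        have := mul_le_mul_of_nonneg_right g1 hd0.le
        linarith
      linarith
    nlinarith
  exact le_of_mul_le_mul_left hmul hd0

theorem contra (ξ : ℝ) (hξ : Transcendental ℤ ξ) (θ : ℝ) (h0 : 2 / 3 ≤ θ) (h1 : θ < 1)
    (hI : ∫ x in (0 : ℝ)..√((1 + θ) / 3), x / (x ^ 2 + x + θ) <
      Real.log (2 * (1 + θ) / (3 * θ)) / 2) (N : ℕ)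
    (hfin : ∀ m, N ≤ m → ¬ (A ξ m (θ * m)).Infinite) : False := by
  obtain ⟨D₀, hD₀⟩ := an θ h0 h1 hI
  set k : ℕ := N + D₀ + 3 with hk
  have hkfin : ¬ (A ξ k (2 * (k : ℝ))).Infinite := by
    intro h
    apply hfin k (by omega)
    refine h.mono (A_anti ξ k _ _ ?_)
    have : (0 : ℝ) ≤ k := Nat.cast_nonneg k
    nlinarith
  obtain ⟨n, K, hK1, hsel⟩ := selection ξ hξ k (by omega) (2 * (k : ℝ)) le_rfl hkfin
  set ns : ℕ := 2 * n with hns
  set K₀ : ℝ := (1 + |ξ|) ^ ns with hK₀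
  have hK₀1 : 1 ≤ K₀ := one_le_pow₀ (by linarith [abs_nonneg ξ])
  obtain ⟨KD, hKD1, HD, hHD1, hder⟩ := deriv_all ξ hξ θ (by linarith) N ns hfin
  obtain ⟨Cs, hCs0, hstep⟩ := step ξ ns K₀ KD θ le_rfl hKD1 (by linarith)
  obtain ⟨Cc, hCc0, hcorner⟩ := corner ξ ns K K₀ KD HD θ hK1 hK₀1 hKD1 hHD1 (by linarith)
  obtain ⟨cD, hcD0, hcD⟩ := dirichlet ξ ns
  set Cb : ℝ := Cs + Cc + |Real.log cD| + Real.log HD + 1 with hCb
  have hlHD : 0 ≤ Real.log HD := Real.log_nonneg hHD1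
  have habs := abs_nonneg (Real.log cD)
  have hCb1 : 1 ≤ Cb := by linarith
  have hn0 : (0 : ℝ) ≤ n := Nat.cast_nonneg n
  set B : ℝ := 8 * (n + 1) * Cb * n + Cb with hB
  obtain ⟨P, hirr, hkd, hdn, hR, hmin⟩ := hsel (Real.exp B)
  set d : ℕ := P.natDegree with hd
  have hP0 : P ≠ 0 := hirr.ne_zero
  have hPξ : aeval ξ P ≠ 0 := fun h => hξ ⟨P, hP0, h⟩
  have hht1 : (1 : ℝ) ≤ ht P := ht_pos_real hP0
  have hht0 : (0 : ℝ) < ht P := by linarith
  have hBP : B ≤ Real.log (ht P) := by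
    rw [Real.le_log_iff_exp_le hht0]; exact hR
  have hBn : 0 ≤ 8 * (n + 1) * Cb * n := by positivity
  obtain ⟨hs, hs1, hs2, hs3, hs4, hv1⟩ := hcorner P hirr (by omega) (by omega) hPξ hmin
    (hder d (by omega) (by omega)) (by linarith)
  set v : ℝ := K₀ * |aeval ξ P| with hv
  have hv0 : 0 < v := by
    have : 0 < |aeval ξ P| := abs_pos.2 hPξ
    positivity
  set L : ℝ := -Real.log v with hL
  set hP : ℝ := Real.log (ht P) with hhP
  have hd3 : (3 : ℝ) ≤ d := by exact_mod_cast (by omega : 3 ≤ d)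
  have hdnR : (d : ℝ) ≤ n := by exact_mod_cast hdn
  have hd0 : (0 : ℝ) < d := by linarith
  have hn1 : (1 : ℝ) ≤ n := by linarith
  have hhs : 8 * (n + 1) * Cb * n ≤ hs := by linarith
  set ρ : ℝ := hs / d with hρ
  have hρd : ρ * d = hs := by rw [hρ]; field_simp
  have hρbig : 8 * (n + 1) * Cb ≤ ρ := by
    rw [hρ, le_div_iff₀ hd0]
    refine le_trans ?_ hhs
    exact mul_le_mul_of_nonneg_left hdnR (by positivity)
  have hCbρ : Cb ≤ ρ := by
    refine le_trans ?_ hρbig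
    have : 0 ≤ n * Cb := by positivity
    nlinarith
  have hρ0 : 0 < ρ := by linarith
  set X : ℝ := L / ρ with hX
  have hρX : ρ * X = L := by rw [hX]; field_simp
  have hLlow : (d : ℝ) * (ρ * d) - Cc ≤ L := by rw [hρd]; exact hs4
  have hLup0 : 3 * L ≤ ((1 + 2 * θ) * d + 2) * (ρ * d) + d * hP + Cc := by rw [hρd]; exact hs2
  have hCcρ : Cc ≤ ρ := by linarith
  have hCcd : Cc * (d + 1) ≤ ρ * d := by nlinarith
  have hLup : 3 * L ≤ ((2 + 2 * θ) * d + 2) * (ρ * d) + Cc * (d + 1) := by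
    have e1 : (d : ℝ) * hP ≤ d * (hs + Cc) := mul_le_mul_of_nonneg_left hs1 hd0.le
    rw [← hρd] at e1
    nlinarith
  -- bounds for `X`
  have hX1 : (d : ℝ) ^ 2 - d ≤ X := by
    rw [hX, le_div_iff₀ hρ0]
    nlinarith
  have hX2 : X ≤ 2 * (1 + θ) / 3 * (d : ℝ) ^ 2 + d := by
    rw [hX, div_le_iff₀ hρ0]
    nlinarith
  -- the maximal degree
  have hbound : ¬ ((θ * ((2 * d + 1 : ℕ) : ℝ) + 1) * ((2 * d + 1 : ℕ) : ℝ) ≤ X - 1) := by
    push Not
    push_cast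
    nlinarith
  classical
  set M : ℕ := Nat.findGreatest (fun M : ℕ => (θ * (M : ℝ) + 1) * (M : ℝ) ≤ X - 1) (2 * d) with hM
  have hM2d : M ≤ 2 * d := Nat.findGreatest_le _
  have hM1 : (θ * (M : ℝ) + 1) * (M : ℝ) ≤ X - 1 := by
    have h := Nat.findGreatest_spec (P := fun M : ℕ => (θ * (M : ℝ) + 1) * (M : ℝ) ≤ X - 1)
      (m := 0) (n := 2 * d) (Nat.zero_le _) (by simp; nlinarith)
    exact h
  have hM2 : X - 1 < (θ * ((M : ℝ) + 1) + 1) * ((M : ℝ) + 1) := by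
    by_cases hc : M + 1 ≤ 2 * d
    · have h := Nat.findGreatest_is_greatest
        (P := fun M : ℕ => (θ * (M : ℝ) + 1) * (M : ℝ) ≤ X - 1) (n := 2 * d) (k := M + 1)
        (by omega) hc
      push Not at h
      push_cast at h
      exact h
    · have hMe : M = 2 * d := by omega
      push Not at hbound
      push_cast at hbound
      have : ((M : ℕ) : ℝ) = 2 * d := by rw [hMe]; push_cast; ring
      rw [this]
      exact hbound
  set F : ℕ → ℝ := fun m => Real.log (n1 ξ m (Real.exp (ρ * m)) v) with hF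
  set R : ℕ → ℝ := fun m => 2 * X - θ * (m : ℝ) ^ 2 - m - (m : ℝ) ^ 2 + F m / ρ - Cs / ρ with hRdef
  have hρR : ∀ m : ℕ, ρ * R m =
      2 * L - (θ * m + 1) * (ρ * m) - m * (ρ * m) + F m - Cs := by
    intro m
    rw [hRdef, ← hρX]
    field_simp
    ring
  have hRM : 0 ≤ R M := by
    have h2 := hcD M (by omega) (Real.exp (ρ * M)) v (Real.one_le_exp (by positivity)) hv0 hv1
    have hx : (0 : ℝ) < Real.exp (ρ * M) ^ M := pow_pos (Real.exp_pos _) M
    have h3 := Real.log_le_log (by positivity) h2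
    have hlv : Real.log v = -L := by rw [hL]; ring
    rw [Real.log_mul hcD0.ne' (mul_pos hx hv0).ne', Real.log_mul hx.ne' hv0.ne', Real.log_pow,
      Real.log_exp, hlv] at h3
    have h4 : F M = Real.log (n1 ξ M (Real.exp (ρ * M)) v) := rfl
    have h5 : 0 ≤ ρ * R M := by
      rw [hρR, h4]
      have h6 := neg_abs_le (Real.log cD)
      have h7 : ρ * ((θ * (M : ℝ) + 1) * (M : ℝ)) ≤ ρ * (X - 1) :=
        mul_le_mul_of_nonneg_left hM1 hρ0.le
      have h8 : ρ * (X - 1) = L - ρ := by rw [mul_sub, hρX]; ring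
      have h9 : (θ * (M : ℝ) + 1) * (ρ * M) = ρ * ((θ * (M : ℝ) + 1) * (M : ℝ)) := by ring
      rw [h9]
      linarith
    exact nonneg_of_mul_nonneg_right h5 hρ0
  have hmainstep : ∀ m : ℕ, d < m → m ≤ M → 0 ≤ R m →
      R m + 2 * √(R m) + θ * (2 * m - 1) - 2 ≤ R (m - 1) := by
    intro m hdm hmM hRm
    have hdmR : (d : ℝ) + 1 ≤ m := by exact_mod_cast hdm
    have hm2n : (m : ℝ) ≤ 2 * n := by
      have : (m : ℝ) ≤ ((2 * n : ℕ) : ℝ) := by exact_mod_cast (by omega : m ≤ 2 * n)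
      push_cast at this
      exact this
    have hm0 : (0 : ℝ) < m := by linarith
    have hρm : hs ≤ ρ * m := by
      rw [← hρd]; exact mul_le_mul_of_nonneg_left (by linarith) hρ0.le
    have hnewt := rv_newton θ ρ d m L Cc (by linarith) hρ0 (by linarith) (by linarith) hLup hCcd
    have hexpcond : 1 ≤ v * Real.exp (ρ * m) ^ (2 * (θ * (m : ℝ)) + 1) := by
      rw [← Real.exp_mul, ← Real.exp_log hv0, ← Real.exp_add]
      apply Real.one_le_exp
      have hlv : Real.log v = -L := by rw [hL]; ring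
      rw [hlv]
      linarith
    have hHD : HD ≤ Real.exp (ρ * m) := by
      rw [← Real.log_le_iff_le_exp (by linarith)]
      have : ρ ≤ ρ * m := le_mul_of_one_le_right hρ0.le (by linarith)
      linarith
    have hderm : ∀ Q ∈ S1 ξ m (Real.exp (ρ * m)) v,
        |aeval ξ (derivative Q)| ≤ KD * v * Real.exp ((θ * m + 1) * (ρ * m)) := by
      rintro Q ⟨hQ1, hQ2, hQ3⟩
      have h := hder m (by omega) (by omega) _ hHD v hv0 hexpcond Q hQ1 hQ2 hQ3
      rw [← Real.exp_mul] at h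
      rw [mul_comm (θ * (m : ℝ) + 1)]
      exact h
    have hPC := rv_PC θ ρ d m n L hP Cs Cc Cb (by linarith) h1.le hρ0 hd3 hdmR hm2n hn1 hCs0 hCc0
      (by linarith) hρbig hLlow hLup0
    have hR' : 0 ≤ 2 * L - (θ * m + 1) * (ρ * m) - m * (ρ * m) +
        Real.log (n1 ξ m (Real.exp (ρ * m)) v) - Cs := by
      have h2 := hρR m
      have h3 : 0 ≤ ρ * R m := by positivity
      rw [h2] at h3
      exact h3
    have hPm : hP ≤ ρ * m := by
      have h2 : ρ * (d + 1) ≤ ρ * m := mul_le_mul_of_nonneg_left hdmR hρ0.le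
      linarith
    have hst := hstep P hirr (by omega) hPξ m hdm (by omega) ρ hρ0 hPm (by linarith) hv1 hderm
      hPC hR'
    have hsq : √(ρ * (2 * L - (θ * m + 1) * (ρ * m) - m * (ρ * m) +
        Real.log (n1 ξ m (Real.exp (ρ * m)) v) - Cs)) = ρ * √(R m) := by
      have h2 := hρR m
      have h3 : 2 * L - (θ * m + 1) * (ρ * m) - m * (ρ * m) +
        Real.log (n1 ξ m (Real.exp (ρ * m)) v) - Cs = ρ * R m := h2.symm
      rw [h3, ← mul_assoc, Real.sqrt_mul (by positivity), Real.sqrt_mul_self hρ0.le]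
    have hcast : ((m - 1 : ℕ) : ℝ) = (m : ℝ) - 1 := by
      rw [Nat.cast_sub (by omega)]; simp
    have hF1 : F m = Real.log (n1 ξ m (Real.exp (ρ * m)) v) := rfl
    have hF2 : F (m - 1) = Real.log (n1 ξ (m - 1) (Real.exp (ρ * ((m : ℝ) - 1))) v) := by
      have : F (m - 1) = Real.log (n1 ξ (m - 1) (Real.exp (ρ * ((m - 1 : ℕ) : ℝ))) v) := rfl
      rw [this, hcast]
    have hρ1 := hρR m
    have hρ2 := hρR (m - 1)
    rw [hcast] at hρ2
    have hgoal : ρ * (R m + 2 * √(R m) + θ * (2 * m - 1) - 2) ≤ ρ * R (m - 1) := by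
      have hst' : F m - (m : ℝ) ^ 2 * ρ + 2 * (ρ * √(R m)) - 2 * ρ - Cs ≤
          F (m - 1) - ((m : ℝ) - 1) ^ 2 * ρ := by
        rw [hF2, hF1, ← hsq]
        exact hst
      have e1 : ρ * (R m + 2 * √(R m) + θ * (2 * m - 1) - 2) =
        ρ * R m + 2 * (ρ * √(R m)) + ρ * θ * (2 * m - 1) - 2 * ρ := by ring
      rw [e1, hρ1, hρ2]
      have hCsρ : Cs ≤ ρ := by linarith
      have e2 : (θ * ((m : ℝ) - 1) + 1) * (ρ * ((m : ℝ) - 1)) + ((m : ℝ) - 1) * (ρ * ((m : ℝ) - 1)) =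
        (θ * m + 1) * (ρ * m) + m * (ρ * m) - ρ * θ * (2 * m - 1) - ρ - 2 * (ρ * m) + ρ := by ring
      have e3 : ((m : ℝ) - 1) ^ 2 * ρ = m ^ 2 * ρ - 2 * (ρ * m) + ρ := by ring
      rw [e3] at hst'
      linarith
    exact le_of_mul_le_mul_left hgoal hρ0
  have hcon := hD₀ d (by omega) X M R hX1 hX2 hM1 hM2 hRM hmainstep
  have hRd : R d ≤ 2 * X - (1 + θ) * (d : ℝ) ^ 2 + 1 := by
    have h2 : R d = 2 * X - θ * (d : ℝ) ^ 2 - d - (d : ℝ) ^ 2 + F d / ρ - Cs / ρ := rfl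
    have h3 : F d ≤ ρ := by
      have : F d = Real.log (n1 ξ d (Real.exp (ρ * d)) v) := rfl
      rw [this, hρd]
      linarith
    have h4 : F d / ρ ≤ 1 := by rw [div_le_one hρ0]; exact h3
    have h5 : 0 ≤ Cs / ρ := by positivity
    rw [h2]
    linarith
  linarith

/-- For every real transcendental `ξ`, `limsup (w*_n + 1) / (n + 1) ≥ 0.823`, stated with heights
`ht`. -/
theorem main (ξ : ℝ) (hξ : Transcendental ℤ ξ) (N : ℕ) :
    ∃ n : ℕ, N ≤ n ∧ (A ξ n (823 / 1000 * ((n : ℝ) + 1) - 1)).Infinite := by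
  by_contra hneg
  push Not at hneg
  apply contra ξ hξ (823 / 1000) (by norm_num) (by norm_num) numeric N
  intro m hm h
  have h2 := hneg m hm
  apply Set.not_infinite.2 h2
  refine h.mono (A_anti ξ m _ _ ?_)
  linarith

end Pool.Agent.WR
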