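import Pool.Agent.WR.Defs

/-!
# MP_3c862c_nt: counting in cells
-/

set_option autoImplicit false

namespace Pool.Agent.WR

open Polynomial Pool.Agent.H81S

namespace CellsAux

/-- pigeonhole principle with cells given by finitely many additive functions -/
theorem cells {ι : Type} [Fintype ι] [DecidableEq ι] (L : ι → ℤ[X] → ℝ)
    (hL : ∀ j p q, L j (p - q) = L j p - L j q) (w : ι → ℝ) (hw : ∀ j, 0 < w j) (a : ℝ)
    (S T : Set ℤ[X]) (hS : S.Finite) (hT : T.Finite) (h1 : ∀ q ∈ S, ∀ j, |L j q| ≤ a * w j)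
    (h2 : ∀ p ∈ S, ∀ q ∈ S, (∀ j, |L j (p - q)| ≤ w j) → p - q ∈ T) :
    (S.ncard : ℝ) ≤ ((2 * ⌈a⌉₊ + 1 : ℕ) : ℝ) ^ (Fintype.card ι) * (T.ncard : ℝ) := by
  classical
  set I : Finset ℤ := Finset.Icc (-(⌈a⌉₊ : ℤ)) (⌈a⌉₊ : ℤ) with hI
  have hIcard : I.card = 2 * ⌈a⌉₊ + 1 := by
    rw [hI, Int.card_Icc]
    omega
  set f : ℤ[X] → ι → ℤ := fun q j => ⌊L j q / w j⌋ with hf
  have ha0 : ∀ q ∈ S, ∀ j, |L j q / w j| ≤ a := by
    intro q hq j
    rw [abs_div, abs_of_pos (hw j), div_le_iff₀ (hw j)]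
    exact h1 q hq j
  have hmaps : ∀ q ∈ hS.toFinset, f q ∈ Fintype.piFinset (fun _ : ι => I) := by
    intro q hq
    rw [Set.Finite.mem_toFinset] at hq
    rw [Fintype.mem_piFinset]
    intro j
    have h := abs_le.1 (ha0 q hq j)
    have hc : a ≤ (⌈a⌉₊ : ℝ) := Nat.le_ceil a
    rw [hI, Finset.mem_Icc]
    constructor
    · apply Int.le_floor.2
      push_cast
      linarith
    · have h3 : (⌊L j q / w j⌋ : ℝ) ≤ (⌈a⌉₊ : ℝ) :=
        (Int.floor_le _).trans (h.2.trans hc)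
      exact_mod_cast h3
  have hfib : ∀ b ∈ Fintype.piFinset (fun _ : ι => I),
      (hS.toFinset.filter fun q => f q = b).card ≤ T.ncard := by
    intro b _
    rcases Finset.eq_empty_or_nonempty (hS.toFinset.filter fun q => f q = b) with h | ⟨q0, hq0⟩
    · rw [h]; simp
    · rw [Set.ncard_eq_toFinset_card T hT]
      refine Finset.card_le_card_of_injOn (fun q => q - q0) ?_ ?_
      · intro q hq
        simp only [Finset.coe_filter, Set.Finite.mem_toFinset, Set.mem_ofPred_eq,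
          Finset.mem_filter] at hq hq0
        simp only [Set.Finite.coe_toFinset]
        refine h2 q hq.1 q0 hq0.1 fun j => ?_
        have h3 : ⌊L j q / w j⌋ = ⌊L j q0 / w j⌋ := by
          have h4 := congrFun (hq.2.trans hq0.2.symm) j
          exact h4
        have h5 : |L j q / w j - L j q0 / w j| < 1 := Int.abs_sub_lt_one_of_floor_eq_floor h3
        rw [← sub_div, abs_div, abs_of_pos (hw j), div_lt_one (hw j)] at h5
        rw [hL]
        exact h5.le
      · intro p _ q _ h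
        simpa using h
  have hmain := Finset.card_le_mul_card_image_of_maps_to hmaps T.ncard hfib
  rw [Fintype.card_piFinset] at hmain
  simp only [Finset.prod_const, Finset.card_univ, hIcard] at hmain
  rw [Set.ncard_eq_toFinset_card S hS]
  calc (hS.toFinset.card : ℝ) ≤ ((T.ncard * (2 * ⌈a⌉₊ + 1) ^ Fintype.card ι : ℕ) : ℝ) := by
        exact_mod_cast hmain
    _ = _ := by push_cast; ring

theorem ht_sub_le {n : ℕ} {H : ℝ} (hH : 0 < H) {p q : ℤ[X]} (hp : p.natDegree ≤ n)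
    (hq : q.natDegree ≤ n) (h : ∀ j : Fin (n + 1), |((p - q).coeff j : ℝ)| ≤ H) :
    (ht (p - q) : ℝ) ≤ H := by
  refine ht_le_of_real _ _ fun i => ?_
  by_cases hi : i < n + 1
  · exact h ⟨i, hi⟩
  · have h0 : (p - q).coeff i = 0 := by
      apply coeff_eq_zero_of_natDegree_lt
      refine lt_of_le_of_lt (natDegree_sub_le_of_le hp hq) ?_
      simp
      omega
    rw [h0]
    simpa using hH.le

end CellsAux

open CellsAux

/-- W-CELLS -/
theorem cells2 (ξ : ℝ) (n : ℕ) (a : ℝ) (ha : 1 ≤ a) : ∃ C : ℝ, 1 ≤ C ∧ ∀ m ≤ n, ∀ H v v' : ℝ,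
    0 < H → 0 < v → 0 < v' → n2 ξ m (a * H) (a * v) (a * v') ≤ C * n2 ξ m H v v' := by
  refine ⟨((2 * ⌈a⌉₊ + 1 : ℕ) : ℝ) ^ (Fintype.card (Fin (n + 1) ⊕ Bool)), ?_, ?_⟩
  · apply one_le_pow₀
    push_cast
    have : (0 : ℝ) ≤ (⌈a⌉₊ : ℝ) := Nat.cast_nonneg _
    linarith
  · intro m hm H v v' hH hv hv'
    refine cells (fun j Q => Sum.elim (fun i : Fin (n + 1) => (Q.coeff i : ℝ))
      (fun b : Bool => if b then aeval ξ Q else aeval ξ (derivative Q)) j) ?_
      (fun j => Sum.elim (fun _ => H) (fun b : Bool => if b then v else v') j) ?_ a _ _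
      (finite_S2 ξ m _ _ _) (finite_S2 ξ m _ _ _) ?_ ?_
    · rintro (j | j) p q
      · simp
      · cases j <;> simp
    · rintro (j | j)
      · exact hH
      · cases j
        · exact hv'
        · exact hv
    · rintro q ⟨h1, h2, h3, h4⟩ (j | j)
      · exact (abs_coeff_le q j).trans h2
      · cases j
        · exact h4
        · exact h3
    · rintro p ⟨p1, p2, p3, p4⟩ q ⟨q1, q2, q3, q4⟩ h
      refine ⟨(natDegree_sub_le_of_le p1 q1).trans (by simp), ?_, ?_, ?_⟩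
      · exact ht_sub_le hH (p1.trans hm) (q1.trans hm) fun j => h (Sum.inl j)
      · exact h (Sum.inr true)
      · exact h (Sum.inr false)

/-- W-CELLS -/
theorem cells1 (ξ : ℝ) (n : ℕ) (a : ℝ) (ha : 1 ≤ a) : ∃ C : ℝ, 1 ≤ C ∧ ∀ m ≤ n, ∀ H v : ℝ,
    0 < H → 0 < v → n1 ξ m (a * H) (a * v) ≤ C * n1 ξ m H v := by
  refine ⟨((2 * ⌈a⌉₊ + 1 : ℕ) : ℝ) ^ (Fintype.card (Fin (n + 1) ⊕ Unit)), ?_, ?_⟩
  · apply one_le_pow₀
    push_cast
    have : (0 : ℝ) ≤ (⌈a⌉₊ : ℝ) := Nat.cast_nonneg _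
    linarith
  · intro m hm H v hH hv
    refine cells (fun j Q => Sum.elim (fun i : Fin (n + 1) => (Q.coeff i : ℝ))
      (fun _ : Unit => aeval ξ Q) j) ?_
      (fun j => Sum.elim (fun _ => H) (fun _ : Unit => v) j) ?_ a _ _
      (finite_S1 ξ m _ _) (finite_S1 ξ m _ _) ?_ ?_
    · rintro (j | j) p q
      · simp
      · simp
    · rintro (j | j)
      · exact hH
      · exact hv
    · rintro q ⟨h1, h2, h3⟩ (j | j)
      · exact (abs_coeff_le q j).trans h2
      · exact h3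
    · rintro p ⟨p1, p2, p3⟩ q ⟨q1, q2, q3⟩ h
      refine ⟨(natDegree_sub_le_of_le p1 q1).trans (by simp), ?_, ?_⟩
      · exact ht_sub_le hH (p1.trans hm) (q1.trans hm) fun j => h (Sum.inl j)
      · exact h (Sum.inr ())

end Pool.Agent.WR
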