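import Pool.Agent.WR.Cells

set_option autoImplicit false

/-!
W-CONVEX: approximate log-concavity in the degree of the number of small polynomials.
-/

namespace Pool.Agent.WR

open Polynomial Pool.Agent.H81S

theorem convex_ht_add (P Q : ℤ[X]) : (ht (P + Q) : ℝ) ≤ ht P + ht Q := by
  apply ht_le_of_real
  intro i
  rw [coeff_add, Int.cast_add]
  exact (abs_add_le _ _).trans (add_le_add (abs_coeff_le P i) (abs_coeff_le Q i))

theorem convex_ht_sub (P Q : ℤ[X]) : (ht (P - Q) : ℝ) ≤ ht P + ht Q := by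
  apply ht_le_of_real
  intro i
  rw [coeff_sub, Int.cast_sub]
  exact (abs_sub _ _).trans (add_le_add (abs_coeff_le P i) (abs_coeff_le Q i))

theorem convex_ht_X_mul (Q : ℤ[X]) : (ht (X * Q) : ℝ) ≤ ht Q := by
  have h := ht_X_pow_mul 1 Q
  rw [pow_one] at h
  rw [h]

/-- The sums `p + X q`. -/
theorem convex_mem_sum {ξ : ℝ} {m : ℕ} {H v v' : ℝ} (hH : 0 < H) (hv : 0 < v) (hvv : v ≤ v')
    {p q : ℤ[X]} (hp : p ∈ S2 ξ m H v v') (hq : q ∈ S2 ξ m H v v') :
    p + X * q ∈ S2 ξ (m + 1) ((2 + |ξ|) * H) ((2 + |ξ|) * v) ((2 + |ξ|) * v') := by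
  have hξ := abs_nonneg ξ
  refine ⟨?_, ?_, ?_, ?_⟩
  · refine (natDegree_add_le _ _).trans (max_le (hp.1.trans (Nat.le_succ m)) ?_)
    refine natDegree_mul_le.trans ?_
    rw [natDegree_X]
    have := hq.1
    omega
  · have h1 := convex_ht_add p (X * q)
    have h2 := convex_ht_X_mul q
    have h3 := hp.2.1
    have h4 := hq.2.1
    nlinarith
  · rw [map_add, map_mul, aeval_X]
    have h1 := hp.2.2.1
    have h2 := hq.2.2.1
    calc |aeval ξ p + ξ * aeval ξ q| ≤ |aeval ξ p| + |ξ * aeval ξ q| := abs_add_le _ _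
      _ = |aeval ξ p| + |ξ| * |aeval ξ q| := by rw [abs_mul]
      _ ≤ v + |ξ| * v := add_le_add h1 (mul_le_mul_of_nonneg_left h2 hξ)
      _ ≤ (2 + |ξ|) * v := by nlinarith
  · rw [derivative_add, derivative_mul, derivative_X, one_mul, map_add, map_add, map_mul, aeval_X]
    have h1 := hp.2.2.2
    have h2 := hq.2.2.1
    have h3 := hq.2.2.2
    calc |aeval ξ (derivative p) + (aeval ξ q + ξ * aeval ξ (derivative q))| ≤
          |aeval ξ (derivative p)| + |aeval ξ q + ξ * aeval ξ (derivative q)| := abs_add_le _ _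
      _ ≤ |aeval ξ (derivative p)| + (|aeval ξ q| + |ξ * aeval ξ (derivative q)|) := by
          gcongr
          exact abs_add_le _ _
      _ = |aeval ξ (derivative p)| + (|aeval ξ q| + |ξ| * |aeval ξ (derivative q)|) := by
          rw [abs_mul]
      _ ≤ v' + (v + |ξ| * v') :=
          add_le_add h1 (add_le_add h2 (mul_le_mul_of_nonneg_left h3 hξ))
      _ ≤ (2 + |ξ|) * v' := by nlinarith

/-- The differences in a fibre. -/
theorem convex_mem_diff {ξ : ℝ} {m : ℕ} (hm : 1 ≤ m) {H v v' : ℝ} {p q p₀ q₀ : ℤ[X]}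
    (hp : p ∈ S2 ξ m H v v') (hq : q ∈ S2 ξ m H v v') (hp₀ : p₀ ∈ S2 ξ m H v v')
    (hq₀ : q₀ ∈ S2 ξ m H v v') (h : p + X * q = p₀ + X * q₀) :
    q₀ - q ∈ S2 ξ (m - 1) (2 * H) (2 * v) (2 * v') := by
  refine ⟨?_, ?_, ?_, ?_⟩
  · have h1 : X * (q₀ - q) = p - p₀ := by
      rw [mul_sub]
      linear_combination -h
    have h2 : (p - p₀).natDegree ≤ m := (natDegree_sub_le _ _).trans (max_le hp.1 hp₀.1)
    by_cases h3 : q₀ - q = 0
    · rw [h3]
      simp
    · rw [← h1, natDegree_X_mul h3] at h2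
      omega
  · have h1 := convex_ht_sub q₀ q
    linarith [hq.2.1, hq₀.2.1]
  · rw [map_sub]
    calc |aeval ξ q₀ - aeval ξ q| ≤ |aeval ξ q₀| + |aeval ξ q| := abs_sub _ _
      _ ≤ 2 * v := by linarith [hq.2.2.1, hq₀.2.2.1]
  · rw [derivative_sub, map_sub]
    calc |aeval ξ (derivative q₀) - aeval ξ (derivative q)| ≤
          |aeval ξ (derivative q₀)| + |aeval ξ (derivative q)| := abs_sub _ _
      _ ≤ 2 * v' := by linarith [hq.2.2.2, hq₀.2.2.2]

theorem convex_count (ξ : ℝ) (m : ℕ) (hm : 1 ≤ m) (H v v' : ℝ) (hH : 0 < H) (hv : 0 < v)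
    (hvv : v ≤ v') :
    (n2 ξ m H v v') ^ 2 ≤ n2 ξ (m - 1) (2 * H) (2 * v) (2 * v') *
      n2 ξ (m + 1) ((2 + |ξ|) * H) ((2 + |ξ|) * v) ((2 + |ξ|) * v') := by
  classical
  set A := (finite_S2 ξ m H v v').toFinset with hA
  set B := (finite_S2 ξ (m + 1) ((2 + |ξ|) * H) ((2 + |ξ|) * v) ((2 + |ξ|) * v')).toFinset with hB
  set D := (finite_S2 ξ (m - 1) (2 * H) (2 * v) (2 * v')).toFinset with hD
  have hmemA : ∀ q, q ∈ A ↔ q ∈ S2 ξ m H v v' := fun q => Set.Finite.mem_toFinset _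
  have hmemB : ∀ q, q ∈ B ↔ q ∈ S2 ξ (m + 1) ((2 + |ξ|) * H) ((2 + |ξ|) * v) ((2 + |ξ|) * v') :=
    fun q => Set.Finite.mem_toFinset _
  have hmemD : ∀ q, q ∈ D ↔ q ∈ S2 ξ (m - 1) (2 * H) (2 * v) (2 * v') :=
    fun q => Set.Finite.mem_toFinset _
  have h1 : (A ×ˢ A).card ≤ D.card * B.card := by
    apply Finset.card_le_mul_card_image_of_maps_to (f := fun z : ℤ[X] × ℤ[X] => z.1 + X * z.2)
    · intro z hz
      rw [Finset.mem_product, hmemA, hmemA] at hz
      exact (hmemB _).2 (convex_mem_sum hH hv hvv hz.1 hz.2)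
    · intro b _
      rcases Finset.eq_empty_or_nonempty ((A ×ˢ A).filter fun z => z.1 + X * z.2 = b) with he | he
      · rw [he]
        simp
      · obtain ⟨z₀, hz₀⟩ := he
        rw [Finset.mem_filter, Finset.mem_product, hmemA, hmemA] at hz₀
        apply Finset.card_le_card_of_injOn (fun z => z₀.2 - z.2)
        · intro z hz
          rw [Finset.mem_coe, Finset.mem_filter, Finset.mem_product, hmemA, hmemA] at hz
          exact (hmemD _).2 (convex_mem_diff hm hz.1.1 hz.1.2 hz₀.1.1 hz₀.1.2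
            (hz.2.trans hz₀.2.symm))
        · intro z hz w hw hzw
          rw [Finset.mem_coe, Finset.mem_filter] at hz hw
          have h2 : z.2 = w.2 := by
            have h3 : z₀.2 - z.2 = z₀.2 - w.2 := hzw
            exact sub_right_injective h3
          have h4 : z.1 = w.1 := by
            have h5 := hz.2.trans hw.2.symm
            rw [h2] at h5
            exact add_right_cancel h5
          exact Prod.ext h4 h2
  rw [Finset.card_product] at h1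
  unfold n2
  rw [Set.ncard_eq_toFinset_card _ (finite_S2 ξ m H v v'),
    Set.ncard_eq_toFinset_card _ (finite_S2 ξ (m - 1) (2 * H) (2 * v) (2 * v')),
    Set.ncard_eq_toFinset_card _ (finite_S2 ξ (m + 1) ((2 + |ξ|) * H) ((2 + |ξ|) * v)
      ((2 + |ξ|) * v')), ← hA, ← hB, ← hD, sq]
  exact_mod_cast h1

/-- W-CONVEX -/
theorem convex2 (ξ : ℝ) (n : ℕ) : ∃ C : ℝ, 1 ≤ C ∧ ∀ m ≤ n, 1 ≤ m → ∀ H v v' : ℝ,
    0 < H → 0 < v → v ≤ v' →
    (n2 ξ m H v v') ^ 2 ≤ C * n2 ξ (m + 1) H v v' * n2 ξ (m - 1) H v v' := by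
  have hξ := abs_nonneg ξ
  obtain ⟨C₁, hC₁, h₁⟩ := cells2 ξ (n + 1) (2 + |ξ|) (by linarith)
  obtain ⟨C₂, hC₂, h₂⟩ := cells2 ξ (n + 1) 2 (by norm_num)
  refine ⟨C₁ * C₂, by nlinarith, fun m hmn hm H v v' hH hv hvv => ?_⟩
  have hv' : 0 < v' := lt_of_lt_of_le hv hvv
  have h3 := convex_count ξ m hm H v v' hH hv hvv
  have h4 := h₁ (m + 1) (by omega) H v v' hH hv hv'
  have h5 := h₂ (m - 1) (by omega) H v v' hH hv hv'
  have h6 : (0 : ℝ) ≤ n2 ξ (m - 1) H v v' := by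
    unfold n2
    positivity
  have h7 : (0 : ℝ) ≤ n2 ξ (m + 1) ((2 + |ξ|) * H) ((2 + |ξ|) * v) ((2 + |ξ|) * v') := by
    unfold n2
    positivity
  calc (n2 ξ m H v v') ^ 2 ≤ n2 ξ (m - 1) (2 * H) (2 * v) (2 * v') *
        n2 ξ (m + 1) ((2 + |ξ|) * H) ((2 + |ξ|) * v) ((2 + |ξ|) * v') := h3
    _ ≤ (C₂ * n2 ξ (m - 1) H v v') * (C₁ * n2 ξ (m + 1) H v v') :=
        mul_le_mul h5 h4 h7 (mul_nonneg (by linarith) h6)
    _ = C₁ * C₂ * n2 ξ (m + 1) H v v' * n2 ξ (m - 1) H v v' := by ring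

end Pool.Agent.WR
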