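import Pool.Agent.H81S.Final

set_option autoImplicit false

/-!
Library for MP_3c862c_nt (`limsup (w*_n + 1) / (n + 1) ≥ 0.823`): lattice point counts of integer
polynomials of bounded degree and height which are small at `ξ` (`S1`) or small together with
their derivative (`S2`).
-/

namespace Pool.Agent.WR

open Polynomial Pool.Agent.H81S

/-- integer polynomials of degree at most `m`, height at most `H`, value at `ξ` at most `v` -/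
def S1 (ξ : ℝ) (m : ℕ) (H v : ℝ) : Set ℤ[X] :=
  {Q | Q.natDegree ≤ m ∧ (ht Q : ℝ) ≤ H ∧ |aeval ξ Q| ≤ v}

/-- the same with derivative at `ξ` at most `v'` -/
def S2 (ξ : ℝ) (m : ℕ) (H v v' : ℝ) : Set ℤ[X] :=
  {Q | Q.natDegree ≤ m ∧ (ht Q : ℝ) ≤ H ∧ |aeval ξ Q| ≤ v ∧ |aeval ξ (derivative Q)| ≤ v'}

/-- the number of elements of `S1`, as a real number -/
noncomputable def n1 (ξ : ℝ) (m : ℕ) (H v : ℝ) : ℝ := ((S1 ξ m H v).ncard : ℝ)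

/-- the number of elements of `S2`, as a real number -/
noncomputable def n2 (ξ : ℝ) (m : ℕ) (H v v' : ℝ) : ℝ := ((S2 ξ m H v v').ncard : ℝ)

theorem finite_S1 (ξ : ℝ) (m : ℕ) (H v : ℝ) : (S1 ξ m H v).Finite :=
  (finite_ht m H).subset (fun _ h => ⟨h.1, h.2.1⟩)

theorem S2_subset (ξ : ℝ) (m : ℕ) (H v v' : ℝ) : S2 ξ m H v v' ⊆ S1 ξ m H v :=
  fun _ h => ⟨h.1, h.2.1, h.2.2.1⟩

theorem finite_S2 (ξ : ℝ) (m : ℕ) (H v v' : ℝ) : (S2 ξ m H v v').Finite :=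
  (finite_S1 ξ m H v).subset (S2_subset ξ m H v v')

theorem zero_mem_S2 (ξ : ℝ) (m : ℕ) (H v v' : ℝ) (hH : 0 ≤ H) (hv : 0 ≤ v) (hv' : 0 ≤ v') :
    (0 : ℤ[X]) ∈ S2 ξ m H v v' := by
  refine ⟨by simp, by simpa using hH, by simpa using hv, by simpa using hv'⟩

theorem zero_mem_S1 (ξ : ℝ) (m : ℕ) (H v : ℝ) (hH : 0 ≤ H) (hv : 0 ≤ v) :
    (0 : ℤ[X]) ∈ S1 ξ m H v := by
  refine ⟨by simp, by simpa using hH, by simpa using hv⟩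

theorem one_le_n1 (ξ : ℝ) (m : ℕ) (H v : ℝ) (hH : 0 ≤ H) (hv : 0 ≤ v) : 1 ≤ n1 ξ m H v := by
  unfold n1
  have h : 0 < (S1 ξ m H v).ncard :=
    (Set.ncard_pos (finite_S1 ξ m H v)).2 ⟨0, zero_mem_S1 ξ m H v hH hv⟩
  exact_mod_cast h

theorem one_le_n2 (ξ : ℝ) (m : ℕ) (H v v' : ℝ) (hH : 0 ≤ H) (hv : 0 ≤ v) (hv' : 0 ≤ v') :
    1 ≤ n2 ξ m H v v' := by
  unfold n2
  have h : 0 < (S2 ξ m H v v').ncard :=
    (Set.ncard_pos (finite_S2 ξ m H v v')).2 ⟨0, zero_mem_S2 ξ m H v v' hH hv hv'⟩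
  exact_mod_cast h

theorem S1_mono (ξ : ℝ) {m m' : ℕ} {H H' v v' : ℝ} (hm : m ≤ m') (hH : H ≤ H') (hv : v ≤ v') :
    S1 ξ m H v ⊆ S1 ξ m' H' v' :=
  fun _ h => ⟨h.1.trans hm, h.2.1.trans hH, h.2.2.trans hv⟩

theorem n1_mono (ξ : ℝ) {m m' : ℕ} {H H' v v' : ℝ} (hm : m ≤ m') (hH : H ≤ H') (hv : v ≤ v') :
    n1 ξ m H v ≤ n1 ξ m' H' v' := by
  unfold n1
  exact_mod_cast Set.ncard_le_ncard (S1_mono ξ hm hH hv) (finite_S1 ξ m' H' v')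

theorem S2_mono (ξ : ℝ) {m m' : ℕ} {H H' v v₁ w w₁ : ℝ} (hm : m ≤ m') (hH : H ≤ H') (hv : v ≤ v₁)
    (hw : w ≤ w₁) : S2 ξ m H v w ⊆ S2 ξ m' H' v₁ w₁ :=
  fun _ h => ⟨h.1.trans hm, h.2.1.trans hH, h.2.2.1.trans hv, h.2.2.2.trans hw⟩

theorem n2_mono (ξ : ℝ) {m m' : ℕ} {H H' v v₁ w w₁ : ℝ} (hm : m ≤ m') (hH : H ≤ H') (hv : v ≤ v₁)
    (hw : w ≤ w₁) : n2 ξ m H v w ≤ n2 ξ m' H' v₁ w₁ := by
  unfold n2
  exact_mod_cast Set.ncard_le_ncard (S2_mono ξ hm hH hv hw) (finite_S2 ξ m' H' v₁ w₁)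

end Pool.Agent.WR
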