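import Pool.Agent.WR.Cells

/-!
# MP_3c862c_nt: many small values (Dirichlet)
-/

set_option autoImplicit false

namespace Pool.Agent.WR

open Polynomial Pool.Agent.H81S

/-- W-DIRICHLET -/
theorem dirichlet (ξ : ℝ) (n : ℕ) : ∃ c : ℝ, 0 < c ∧ ∀ m ≤ n, ∀ H v : ℝ, 1 ≤ H → 0 < v → v ≤ 1 →
    c * (H ^ m * v) ≤ n1 ξ m H v := by
  set C₁ : ℝ := (n + 1) * (1 + |ξ|) ^ n with hC₁
  have hC₁0 : 0 < C₁ := by positivity
  refine ⟨(2 * C₁ + 3)⁻¹, by positivity, ?_⟩
  intro m hm H v hH hv hv1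
  set N : ℕ := ⌊H⌋₊ with hN
  have hNH : (N : ℝ) ≤ H := Nat.floor_le (by linarith)
  set S : Set ℤ[X] := Set.range (poly (m := m) (N := N)) with hS
  have hSf : S.Finite := Set.finite_range _
  have hScard : S.ncard = (N + 1) ^ (m + 1) := by
    rw [hS, ← Set.image_univ, Set.ncard_image_of_injective _ poly_injective, Set.ncard_univ,
      Nat.card_eq_fintype_card]
    simp
  have hval : ∀ q ∈ S, |aeval ξ q| ≤ C₁ * H := by
    rintro _ ⟨c, rfl⟩
    have h1 := aeval_bound (poly c) n ((natDegree_poly c).trans hm) ξ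
    have h2 : (ht (poly c) : ℝ) ≤ H := le_trans (by exact_mod_cast ht_poly c) hNH
    calc |aeval ξ (poly c)| ≤ (ht (poly c) : ℝ) * C₁ := h1
      _ ≤ H * C₁ := by gcongr
      _ = C₁ * H := mul_comm _ _
  have key := CellsAux.cells (ι := Unit) (fun _ Q => aeval ξ Q) (fun _ p q => by simp)
    (fun _ => v) (fun _ => hv) (C₁ * H / v) S (S1 ξ m H v) hSf (finite_S1 ξ m H v)
    (fun q hq _ => by rw [div_mul_cancel₀ _ hv.ne']; exact hval q hq)
    (by
      rintro _ ⟨c, rfl⟩ _ ⟨d, rfl⟩ h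
      refine ⟨(natDegree_sub_le_of_le (natDegree_poly c) (natDegree_poly d)).trans (by simp),
        le_trans (by exact_mod_cast ht_poly_sub c d) hNH, h ()⟩)
  rw [hScard] at key
  simp only [Fintype.card_unit, pow_one] at key
  have h1 : H ^ (m + 1) ≤ (((N + 1) ^ (m + 1) : ℕ) : ℝ) := by
    push_cast
    exact pow_le_pow_left₀ (by linarith) (Nat.lt_floor_add_one H).le _
  have h2 : ((2 * ⌈C₁ * H / v⌉₊ + 1 : ℕ) : ℝ) ≤ (2 * C₁ + 3) * (H / v) := by
    push_cast
    have h3 : (⌈C₁ * H / v⌉₊ : ℝ) < C₁ * H / v + 1 := Nat.ceil_lt_add_one (by positivity)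
    have h4 : 1 ≤ H / v := by
      rw [one_le_div hv]
      linarith
    have h5 : C₁ * H / v = C₁ * (H / v) := by ring
    rw [h5] at h3
    rw [h5]
    nlinarith
  have h3 : H ^ (m + 1) ≤ (2 * C₁ + 3) * (H / v) * n1 ξ m H v := by
    refine h1.trans (key.trans ?_)
    unfold n1
    exact mul_le_mul_of_nonneg_right h2 (Nat.cast_nonneg _)
  have hH0 : 0 < H := by linarith
  have h4 : H ^ m * v ≤ (2 * C₁ + 3) * n1 ξ m H v := by
    have h5 : H ^ m * v * (H / v) ≤ (2 * C₁ + 3) * n1 ξ m H v * (H / v) := by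
      calc H ^ m * v * (H / v) = H ^ (m + 1) := by
            field_simp
            ring
        _ ≤ _ := h3
        _ = _ := by ring
    exact le_of_mul_le_mul_right h5 (by positivity)
  rw [inv_mul_le_iff₀ (by positivity)]
  exact h4

end Pool.Agent.WR
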