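import Pool.Agent.WR.Defs

set_option autoImplicit false

namespace Pool.Agent.WR

open Polynomial Pool.Agent.H81S

namespace PackAux

theorem ht_sub_comm (P Q : ℤ[X]) : ht (P - Q) = ht (Q - P) := by
  apply le_antisymm
  · rw [ht_le_iff]
    intro i
    have h := coeff_le_ht (Q - P) i
    rw [coeff_sub] at h ⊢
    omega
  · rw [ht_le_iff]
    intro i
    have h := coeff_le_ht (P - Q) i
    rw [coeff_sub] at h ⊢
    omega

theorem ht_sub_le (P Q : ℤ[X]) : ht (P - Q) ≤ ht P + ht Q := by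
  rw [ht_le_iff]
  intro i
  have h1 := coeff_le_ht P i
  have h2 := coeff_le_ht Q i
  rw [coeff_sub]
  omega

/-- the real span -/
theorem exists_E (S : Set ℤ[X]) (m : ℕ) (hS : ∀ P ∈ S, P.natDegree ≤ m) :
    ∃ E : Submodule ℝ (Fin (m + 1) → ℝ),
      Module.finrank ℝ E ≤ Module.finrank ℚ (spanQ S) ∧ ∀ Q ∈ S, vec m Q ∈ E := by
  obtain ⟨r₀, P, hr₀, hPS, hPs⟩ := exists_family S m hS
  refine ⟨Submodule.span ℝ (Set.range (fun i : Fin r₀ => vec m (P i))), ?_, ?_⟩
  · have h1 := finrank_range_le_card (R := ℝ) (fun i : Fin r₀ => vec m (P i))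
    rw [← hr₀]
    simpa [Set.finrank] using h1
  · intro Q hQ
    obtain ⟨c, hc⟩ := hPs _ (Submodule.subset_span ⟨Q, hQ, rfl⟩)
    have h1 : vec m Q = ∑ i, (c i : ℝ) • vec m (P i) := by
      funext j
      have h2 := congrArg (fun g : ℚ[X] => g.coeff (j : ℕ)) hc
      simp only [coeff_map, finsetSum_coeff, coeff_C_mul, eq_intCast] at h2
      rw [Finset.sum_apply]
      simp only [Pi.smul_apply, smul_eq_mul, vec]
      have h3 := congrArg (fun q : ℚ => (q : ℝ)) h2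
      push_cast at h3
      exact h3
    rw [h1]
    apply Submodule.sum_mem
    intro i _
    apply Submodule.smul_mem
    exact Submodule.subset_span ⟨i, rfl⟩

theorem sep_card (m : ℕ) (E : Submodule ℝ (Fin (m + 1) → ℝ)) (T : Finset ℤ[X])
    (hE : ∀ Q ∈ T, vec m Q ∈ E) (hdeg : ∀ Q ∈ T, Q.natDegree ≤ m) (H H' : ℝ) (hH' : 0 < H')
    (hHH : H' ≤ H) (hht : ∀ Q ∈ T, (ht Q : ℝ) ≤ H)
    (hsep : ∀ Q ∈ T, ∀ Q' ∈ T, Q ≠ Q' → H' ≤ ht (Q - Q')) :
    (T.card : ℝ) ≤ (3 * H / H') ^ (Module.finrank ℝ E) := by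
  classical
  have hH0 : 0 < H := hH'.trans_le hHH
  let φ : ℤ[X] → E := fun Q => if h : vec m Q ∈ E then ⟨_, h⟩ else 0
  have hφ : ∀ Q ∈ T, ((φ Q : E) : Fin (m + 1) → ℝ) = vec m Q := by
    intro Q hQ
    simp only [φ, dif_pos (hE Q hQ)]
  have hφsub : ∀ Q ∈ T, ∀ Q' ∈ T, ((φ Q - φ Q' : E) : Fin (m + 1) → ℝ) = vec m (Q - Q') := by
    intro Q hQ Q' hQ'
    rw [Submodule.coe_sub, hφ Q hQ, hφ Q' hQ']
    funext j
    simp only [Pi.sub_apply, vec, coeff_sub]
    push_cast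
    ring
  have hnorm : ∀ Q ∈ T, ∀ Q' ∈ T, Q ≠ Q' → H' ≤ ‖φ Q - φ Q'‖ := by
    intro Q hQ Q' hQ' hne
    rw [← Submodule.norm_coe, hφsub Q hQ Q' hQ']
    refine (hsep Q hQ Q' hQ' hne).trans ?_
    apply ht_le_of_real
    intro j
    by_cases hj : j ≤ m
    · have := norm_le_pi_norm (vec m (Q - Q')) ⟨j, by omega⟩
      simpa [vec, Real.norm_eq_abs] using this
    · rw [coeff_sub, coeff_eq_zero_of_natDegree_lt (lt_of_le_of_lt (hdeg Q hQ) (by omega)),
        coeff_eq_zero_of_natDegree_lt (lt_of_le_of_lt (hdeg Q' hQ') (by omega))]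
      simp
  have hinj : Set.InjOn φ (T : Set ℤ[X]) := by
    intro Q hQ Q' hQ' h
    by_contra hne
    have := hnorm Q hQ Q' hQ' hne
    rw [h, sub_self, norm_zero] at this
    linarith
  have hpack := packing (T.image φ) H H' hH' hH0.le (by
    intro u hu
    obtain ⟨Q, hQ, rfl⟩ := Finset.mem_image.1 hu
    rw [← Submodule.norm_coe, hφ Q hQ, pi_norm_le_iff_of_nonneg hH0.le]
    intro j
    rw [Real.norm_eq_abs]
    exact (abs_coeff_le _ _).trans (hht Q hQ)) (by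
    intro u hu u' hu' huu
    obtain ⟨Q, hQ, rfl⟩ := Finset.mem_image.1 hu
    obtain ⟨Q', hQ', rfl⟩ := Finset.mem_image.1 hu'
    exact hnorm Q hQ Q' hQ' (by rintro rfl; exact huu rfl))
  rw [Finset.card_image_of_injOn hinj] at hpack
  refine hpack.trans ?_
  apply pow_le_pow_left₀ (by positivity)
  rw [div_add_one hH'.ne', div_le_div_iff_of_pos_right hH']
  linarith

theorem exists_net (T : Finset ℤ[X]) (H' : ℝ) (hH' : 0 ≤ H') : ∃ T' ⊆ T,
    (∀ Q ∈ T', ∀ Q' ∈ T', Q ≠ Q' → H' ≤ ht (Q - Q')) ∧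
    ∀ Q ∈ T, ∃ Q' ∈ T', (ht (Q - Q') : ℝ) ≤ H' := by
  classical
  let F := T.powerset.filter (fun T' => ∀ Q ∈ T', ∀ Q' ∈ T', Q ≠ Q' → H' ≤ ht (Q - Q'))
  have hF : F.Nonempty := ⟨∅, by simp [F]⟩
  obtain ⟨T', hT', hmax⟩ := Finset.exists_max_image F Finset.card hF
  simp only [F, Finset.mem_filter, Finset.mem_powerset] at hT' hmax
  refine ⟨T', hT'.1, hT'.2, ?_⟩
  intro Q hQ
  by_contra hcon
  push Not at hcon
  have hQT : Q ∉ T' := by
    intro h
    have := hcon Q h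
    simp at this
    linarith
  have h1 := hmax (insert Q T') ⟨by
    intro P hP
    rcases Finset.mem_insert.1 hP with rfl | h
    · exact hQ
    · exact hT'.1 h, by
    intro P hP P' hP' hne
    rcases Finset.mem_insert.1 hP with rfl | h <;> rcases Finset.mem_insert.1 hP' with rfl | h'
    · exact absurd rfl hne
    · exact (hcon P' h').le
    · rw [ht_sub_comm]; exact (hcon P h).le
    · exact hT'.2 P h P' h' hne⟩
  rw [Finset.card_insert_of_notMem hQT] at h1
  omega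

end PackAux

open PackAux

/-- W-PACK -/
theorem pack (ξ : ℝ) (n : ℕ) : ∃ C : ℝ, 1 ≤ C ∧ ∀ m ≤ n, ∀ H H' v : ℝ, 0 < H' → H' ≤ H → 0 < v →
    n1 ξ m H v ≤ C * (H / H') ^ (Module.finrank ℚ (spanQ (S1 ξ m H v))) * n1 ξ m H' v := by
  classical
  refine ⟨3 * 3 ^ (n + 1), ?_, ?_⟩
  · have : (1 : ℝ) ≤ 3 ^ (n + 1) := one_le_pow₀ (by norm_num)
    linarith
  intro m hm H H' v hH' hHH hv
  have hH0 : 0 < H := hH'.trans_le hHH
  have hSdeg : ∀ P ∈ S1 ξ m H v, P.natDegree ≤ m := fun P hP => hP.1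
  obtain ⟨E, hEr, hE⟩ := exists_E (S1 ξ m H v) m hSdeg
  set r := Module.finrank ℚ (spanQ (S1 ξ m H v)) with hr
  have hrn : r ≤ n + 1 := (finrank_spanQ_le _ m hSdeg).trans (by omega)
  have hfin := finite_S1 ξ m H v
  have hfin' := finite_S1 ξ m H' v
  let S : Finset ℤ[X] := hfin.toFinset
  let idx : ℤ[X] → ℤ := fun Q => ⌊aeval ξ Q / v⌋
  have hbase : 1 ≤ H / H' := (one_le_div hH').2 hHH
  have hcell : ∀ b : ℤ, (((S.filter (fun Q => idx Q = b)).card : ℕ) : ℝ) ≤
      (3 * H / H') ^ r * n1 ξ m H' v := by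
    intro b
    set T := S.filter (fun Q => idx Q = b) with hT
    have hTS : ∀ Q ∈ T, Q ∈ S1 ξ m H v := by
      intro Q hQ
      exact hfin.mem_toFinset.1 (Finset.mem_filter.1 hQ).1
    have hTb : ∀ Q ∈ T, idx Q = b := fun Q hQ => (Finset.mem_filter.1 hQ).2
    obtain ⟨T', hT'T, hsep, hnet⟩ := exists_net T H' hH'.le
    have h1 : (T'.card : ℝ) ≤ (3 * H / H') ^ r := by
      have h2 := sep_card m E T' (fun Q hQ => hE Q (hTS Q (hT'T hQ)))
        (fun Q hQ => (hTS Q (hT'T hQ)).1) H H' hH' hHH (fun Q hQ => (hTS Q (hT'T hQ)).2.1) hsep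
      refine h2.trans (pow_le_pow_right₀ ?_ hEr)
      rw [mul_div_assoc]; linarith
    choose! g hg1 hg2 using hnet
    have h3 : T.card ≤ (S1 ξ m H' v).ncard * T'.card := by
      apply Finset.card_le_mul_card_image_of_maps_to (f := g) (fun Q hQ => hg1 Q hQ)
      intro Q' hQ'
      rw [Set.ncard_eq_toFinset_card _ hfin']
      apply Finset.card_le_card_of_injOn (fun Q => Q - Q')
      · intro Q hQ
        have hQ2 := Finset.mem_filter.1 (Finset.mem_coe.1 hQ)
        rw [Finset.mem_coe, Set.Finite.mem_toFinset]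
        have hQS := hTS Q hQ2.1
        have hQS' := hTS Q' (hT'T hQ')
        refine ⟨(natDegree_sub_le _ _).trans (max_le hQS.1 hQS'.1), ?_, ?_⟩
        · have := hg2 Q hQ2.1
          rw [hQ2.2] at this
          exact this
        · have h4 : |aeval ξ Q / v - aeval ξ Q' / v| < 1 := by
            apply Int.abs_sub_lt_one_of_floor_eq_floor
            have e1 := hTb Q hQ2.1
            have e2 := hTb Q' (hT'T hQ')
            simp only [idx] at e1 e2
            rw [e1, e2]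
          rw [← sub_div, abs_div, abs_of_pos hv, div_lt_one hv] at h4
          rw [map_sub]
          exact h4.le
      · intro Q _ Q'' _ h
        exact sub_left_injective h
    calc ((T.card : ℕ) : ℝ) ≤ (((S1 ξ m H' v).ncard * T'.card : ℕ) : ℝ) := by exact_mod_cast h3
      _ = (T'.card : ℝ) * n1 ξ m H' v := by unfold n1; push_cast; ring
      _ ≤ _ := mul_le_mul_of_nonneg_right h1 (by unfold n1; positivity)
  have hmaps : ∀ Q ∈ S, idx Q ∈ Finset.Icc (-1 : ℤ) 1 := by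
    intro Q hQ
    have hQ' := (hfin.mem_toFinset.1 hQ).2.2
    have h1 : |aeval ξ Q / v| ≤ 1 := by
      rw [abs_div, abs_of_pos hv, div_le_one hv]; exact hQ'
    rw [Finset.mem_Icc]
    constructor
    · apply Int.le_floor.2
      push_cast
      exact (abs_le.1 h1).1
    · have h2 := Int.floor_le (aeval ξ Q / v)
      have h3 : ((⌊aeval ξ Q / v⌋ : ℤ) : ℝ) ≤ 1 := h2.trans (abs_le.1 h1).2
      exact_mod_cast h3
  have hsum : (S.card : ℝ) ≤ 3 * ((3 * H / H') ^ r * n1 ξ m H' v) := by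
    rw [Finset.card_eq_sum_card_fiberwise hmaps]
    push_cast
    calc ∑ b ∈ Finset.Icc (-1 : ℤ) 1, (((S.filter (fun Q => idx Q = b)).card : ℕ) : ℝ)
        ≤ ∑ b ∈ Finset.Icc (-1 : ℤ) 1, (3 * H / H') ^ r * n1 ξ m H' v :=
          Finset.sum_le_sum (fun b _ => hcell b)
      _ = _ := by
          have h3 : (Finset.Icc (-1 : ℤ) 1).card = 3 := by decide
          rw [Finset.sum_const, h3, nsmul_eq_mul]
          norm_num
  have hn : n1 ξ m H v = (S.card : ℝ) := by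
    unfold n1
    rw [Set.ncard_eq_toFinset_card _ hfin]
  rw [hn]
  refine hsum.trans ?_
  have h5 : (3 * H / H') ^ r = 3 ^ r * (H / H') ^ r := by rw [mul_div_assoc, mul_pow]
  rw [h5]
  have h6 : (3 : ℝ) ^ r ≤ 3 ^ (n + 1) := pow_le_pow_right₀ (by norm_num) hrn
  have h7 : 0 ≤ (H / H') ^ r * n1 ξ m H' v := by
    unfold n1; positivity
  nlinarith [mul_le_mul_of_nonneg_right h6 h7]

end Pool.Agent.WR
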