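import Pool.Agent.WR.Defs

set_option autoImplicit false

namespace Pool.Agent.WR

open Polynomial Pool.Agent.H81S

namespace VolumeAux

/-- A finite set of integer vectors which lies in the parallelepiped `|t_i| ≤ 1` spanned by the
columns of `A` has at most `5 ^ d * |det A|` elements. -/
theorem card_le_det (d : ℕ) (S : Finset (Fin d → ℤ)) (A : Matrix (Fin d) (Fin d) ℤ)
    (hA : A.det ≠ 0) (hmax : ∀ x ∈ S, ∀ i, |(A.updateCol i x).det| ≤ |A.det|) :
    S.card ≤ 5 ^ d * A.det.natAbs := by
  classical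
  have hinj : Function.Injective (Matrix.mulVecLin A) := by
    intro x y hxy
    have h1 : A.adjugate.mulVec (A.mulVec x) = A.adjugate.mulVec (A.mulVec y) := by
      have : A.mulVec x = A.mulVec y := hxy
      rw [this]
    rw [Matrix.mulVec_mulVec, Matrix.mulVec_mulVec, Matrix.adjugate_mul, Matrix.smul_mulVec,
      Matrix.smul_mulVec, Matrix.one_mulVec, Matrix.one_mulVec] at h1
    exact smul_right_injective _ hA h1
  obtain ⟨f, hf⟩ : ∃ f : (Fin d → ℤ) →ₗ[ℤ] (Fin d → ℤ), f = Matrix.mulVecLin A := ⟨_, rfl⟩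
  rw [← hf] at hinj
  have hcard : A.det.natAbs = Nat.card ((Fin d → ℤ) ⧸ LinearMap.range f) := by
    have h1 := Submodule.natAbs_det_equiv (LinearMap.range f) (LinearEquiv.ofInjective f hinj)
    have h2 : (LinearMap.range f).subtype ∘ₗ
        ((LinearEquiv.ofInjective f hinj : (Fin d → ℤ) ≃ₗ[ℤ] LinearMap.range f) :
          (Fin d → ℤ) →ₗ[ℤ] LinearMap.range f) = f := by
      ext; rfl
    have h3 : LinearMap.det f = A.det := by
      rw [hf, ← Matrix.toLin'_apply', LinearMap.det_toLin']
    rw [← h1, ← h3]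
    exact congrArg (fun g => (LinearMap.det g).natAbs) h2.symm
  have hfin : Finite ((Fin d → ℤ) ⧸ LinearMap.range f) := by
    apply Nat.finite_of_card_ne_zero
    rw [← hcard]
    exact Int.natAbs_ne_zero.mpr hA
  have hfib : ∀ b ∈ S.image (Submodule.Quotient.mk (p := LinearMap.range f)),
      (S.filter fun x => Submodule.Quotient.mk (p := LinearMap.range f) x = b).card ≤ 5 ^ d := by
    intro b hb
    obtain ⟨x₀, hx₀, rfl⟩ := Finset.mem_image.mp hb
    have hk : ∀ x ∈ S.filter fun x => Submodule.Quotient.mk (p := LinearMap.range f) x =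
        Submodule.Quotient.mk x₀, ∃ k : Fin d → ℤ, A.mulVec k = x - x₀ ∧
          k ∈ Fintype.piFinset fun _ : Fin d => Finset.Icc (-2 : ℤ) 2 := by
      intro x hx
      obtain ⟨hxS, hxe⟩ := Finset.mem_filter.mp hx
      rw [Submodule.Quotient.eq] at hxe
      obtain ⟨k, hk⟩ := hxe
      rw [hf] at hk
      have hk' : A.mulVec k = x - x₀ := hk
      refine ⟨k, hk', ?_⟩
      rw [Fintype.mem_piFinset]
      intro i
      have h1 : A.det • k = A.cramer x - A.cramer x₀ := by
        rw [← map_sub, ← hk', Matrix.cramer_eq_adjugate_mulVec, Matrix.mulVec_mulVec,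
          Matrix.adjugate_mul, Matrix.smul_mulVec, Matrix.one_mulVec]
      have h2 := congrFun h1 i
      rw [Pi.smul_apply, Pi.sub_apply, Matrix.cramer_apply, Matrix.cramer_apply, smul_eq_mul] at h2
      have h3 := hmax x hxS i
      have h4 := hmax x₀ hx₀ i
      have h5 : |A.det| * |k i| ≤ |A.det| * 2 := by
        rw [← abs_mul, h2]
        calc |(A.updateCol i x).det - (A.updateCol i x₀).det|
            ≤ |(A.updateCol i x).det| + |(A.updateCol i x₀).det| := abs_sub _ _
          _ ≤ |A.det| + |A.det| := add_le_add h3 h4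
          _ = |A.det| * 2 := by ring
      have h6 : |k i| ≤ 2 := le_of_mul_le_mul_left h5 (abs_pos.mpr hA)
      rw [Finset.mem_Icc]
      exact abs_le.mp h6
    choose! g hg1 hg2 using hk
    calc (S.filter fun x => Submodule.Quotient.mk (p := LinearMap.range f) x =
          Submodule.Quotient.mk x₀).card
        ≤ (Fintype.piFinset fun _ : Fin d => Finset.Icc (-2 : ℤ) 2).card := by
          refine Finset.card_le_card_of_injOn g (fun x hx => hg2 x hx) ?_
          intro x hx y hy hxy
          have e1 := hg1 x hx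
          have e2 := hg1 y hy
          rw [hxy, e2] at e1
          exact (sub_left_injective e1).symm
      _ = 5 ^ d := by
          rw [Fintype.card_piFinset]
          simp
  calc S.card ≤ 5 ^ d * (S.image (Submodule.Quotient.mk (p := LinearMap.range f))).card :=
        Finset.card_le_mul_card_image S _ hfib
    _ ≤ 5 ^ d * A.det.natAbs := by
        refine Nat.mul_le_mul_left _ ?_
        rw [hcard]
        have := Fintype.ofFinite ((Fin d → ℤ) ⧸ LinearMap.range f)
        rw [Nat.card_eq_fintype_card]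
        exact Finset.card_le_univ _

/-- coefficient vector -/
noncomputable def cv (N : ℕ) (P : ℤ[X]) : Fin (N + 1) → ℤ := fun i => P.coeff i

/-- matrix of the coefficient vectors (as columns) -/
noncomputable def cm (N : ℕ) (q : Fin (N + 1) → ℤ[X]) : Matrix (Fin (N + 1)) (Fin (N + 1)) ℤ :=
  Matrix.of fun i j => (q j).coeff i

theorem cm_update (N : ℕ) (q : Fin (N + 1) → ℤ[X]) (j : Fin (N + 1)) (P : ℤ[X]) :
    (cm N q).updateCol j (cv N P) = cm N (Function.update q j P) := by
  ext i k
  by_cases h : k = j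
  · subst h
    simp [cm, cv]
  · simp [cm, cv, Matrix.updateCol_ne h, h]

theorem cv_injective {N : ℕ} {P Q : ℤ[X]} (hP : P.natDegree ≤ N) (hQ : Q.natDegree ≤ N)
    (h : cv N P = cv N Q) : P = Q := by
  ext i
  by_cases hi : i ≤ N
  · exact congrFun h ⟨i, by omega⟩
  · rw [coeff_eq_zero_of_natDegree_lt (by omega), coeff_eq_zero_of_natDegree_lt (by omega)]

/-- a family that spans has nonzero determinant -/
theorem det_ne_zero (N : ℕ) (q : Fin (N + 1) → ℤ[X])
    (h : ∀ g ∈ degreeLT ℚ (N + 1), ∃ c : Fin (N + 1) → ℚ,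
        g = ∑ i, C (c i) * (q i).map (Int.castRingHom ℚ)) : (cm N q).det ≠ 0 := by
  have h1 : ∀ k : Fin (N + 1), ∃ c : Fin (N + 1) → ℚ,
      (X ^ (k : ℕ) : ℚ[X]) = ∑ i, C (c i) * (q i).map (Int.castRingHom ℚ) := by
    intro k
    refine h _ ?_
    rw [mem_degreeLT, degree_X_pow]
    exact_mod_cast k.2
  choose c hc using h1
  have h2 : (cm N q).map (Int.castRingHom ℚ) * (Matrix.of fun i k => c k i) = 1 := by
    ext i k
    have h3 := congrArg (fun p : ℚ[X] => p.coeff i) (hc k)
    simp only [coeff_X_pow, finsetSum_coeff, coeff_C_mul, coeff_map] at h3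
    rw [Matrix.mul_apply, Matrix.one_apply]
    simp only [Matrix.map_apply, Matrix.of_apply, cm]
    rw [show (if i = k then (1 : ℚ) else 0) = if (i : ℕ) = (k : ℕ) then 1 else 0 by
      simp only [Fin.ext_iff], h3]
    exact Finset.sum_congr rfl fun j _ => mul_comm _ _
  intro h0
  have h4 := congrArg Matrix.det h2
  rw [Matrix.det_mul, Matrix.det_one] at h4
  have h5 : ((cm N q).map (Int.castRingHom ℚ)).det = 0 := by
    have := RingHom.map_det (Int.castRingHom ℚ) (cm N q)
    rw [RingHom.mapMatrix_apply] at this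
    rw [← this, h0, map_zero]
  rw [h5, zero_mul] at h4
  exact zero_ne_one h4

/-- the transformation that replaces the first two coefficients by the value and the derivative -/
noncomputable def tm (ξ : ℝ) (k : ℕ) : Matrix (Fin (k + 2)) (Fin (k + 2)) ℝ :=
  Matrix.of fun i j => if i = 0 then ξ ^ (j : ℕ) else if i = 1 then (j : ℕ) * ξ ^ ((j : ℕ) - 1)
    else if i = j then 1 else 0

theorem det_tm (ξ : ℝ) (k : ℕ) : (tm ξ k).det = 1 := by
  rw [Matrix.det_of_isUpperTriangular]
  · refine Finset.prod_eq_one fun i _ => ?_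
    unfold tm
    simp only [Matrix.of_apply]
    by_cases h0 : i = 0
    · subst h0
      simp
    · by_cases h1 : i = 1
      · subst h1
        simp
      · simp [h0, h1]
  · intro i j hij
    simp only [id] at hij
    unfold tm
    simp only [Matrix.of_apply]
    have h0 : i ≠ 0 := by
      rintro rfl
      exact absurd hij (Fin.not_lt_zero _)
    rw [if_neg h0]
    by_cases h1 : i = 1
    · subst h1
      have : j = 0 := by
        have h2 : (j : ℕ) < 1 := by simpa using hij
        ext
        simp only [Fin.val_zero]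
        omega
      subst this
      simp
    · rw [if_neg h1, if_neg (ne_of_gt hij)]

theorem det_le (ξ : ℝ) (k : ℕ) (H v v' : ℝ) (hH : 0 < H) (hv : 0 < v) (hv' : 0 < v')
    (q : Fin (k + 2) → ℤ[X]) (hq : ∀ i, q i ∈ S2 ξ (k + 1) H v v') :
    |((cm (k + 1) q).det : ℝ)| ≤ (k + 2).factorial * (H ^ k * v * v') := by
  obtain ⟨A, hA⟩ : ∃ A : Matrix (Fin (k + 2)) (Fin (k + 2)) ℝ,
    A = (cm (k + 1) q).map (Int.castRingHom ℝ) := ⟨_, rfl⟩
  have h1 : ((cm (k + 1) q).det : ℝ) = (tm ξ k * A).det := by
    rw [Matrix.det_mul, det_tm, one_mul, hA]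
    have := RingHom.map_det (Int.castRingHom ℝ) (cm (k + 1) q)
    rw [RingHom.mapMatrix_apply] at this
    exact this
  have hb : ∀ i j, |(tm ξ k * A) i j| ≤ (if i = 0 then v else if i = 1 then v' else H) := by
    intro i j
    obtain ⟨d1, d2, d3, d4⟩ := hq j
    have hdeg : (q j).natDegree < k + 2 := by omega
    rw [Matrix.mul_apply]
    have hAe : ∀ l, A l j = ((q j).coeff l : ℝ) := by
      intro l
      rw [hA]
      simp [cm]
    simp only [hAe]
    unfold tm
    simp only [Matrix.of_apply]
    by_cases h0 : i = 0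
    · simp only [h0, if_true]
      refine le_trans (le_of_eq ?_) d3
      congr 1
      rw [aeval_eq_sum_range' hdeg, Finset.sum_range]
      refine Finset.sum_congr rfl fun l _ => ?_
      rw [zsmul_eq_mul, mul_comm]
    · by_cases h1 : i = 1
      · simp only [h1, if_neg (show (1 : Fin (k + 2)) ≠ 0 by simp), if_true]
        refine le_trans (le_of_eq ?_) d4
        congr 1
        have : aeval ξ (derivative (q j)) =
            ∑ l ∈ Finset.range (k + 2), (q j).coeff l * ((l : ℕ) * ξ ^ (l - 1)) := by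
          conv_lhs => rw [(q j).as_sum_range' (k + 2) hdeg]
          simp only [map_sum, derivative_monomial, aeval_monomial]
          refine Finset.sum_congr rfl fun l _ => ?_
          simp
          ring
        rw [this, Finset.sum_range]
        exact Finset.sum_congr rfl fun l _ => mul_comm _ _
      · simp only [h0, h1, if_false]
        rw [Finset.sum_eq_single i]
        · rw [if_pos rfl, one_mul]
          exact (abs_coeff_le _ _).trans d2
        · intro l _ hl
          rw [if_neg (Ne.symm hl), zero_mul]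
        · intro h
          exact absurd (Finset.mem_univ i) h
  have hprod : ∏ i : Fin (k + 2), (if i = 0 then v else if i = 1 then v' else H) =
      H ^ k * v * v' := by
    rw [Fin.prod_univ_succ, Fin.prod_univ_succ]
    have : ∀ i : Fin k, (if (i.succ.succ : Fin (k + 2)) = 0 then v else
        if (i.succ.succ : Fin (k + 2)) = 1 then v' else H) = H := by
      intro i
      rw [if_neg (Fin.succ_ne_zero _), if_neg]
      intro h
      have := congrArg Fin.val h
      simp at this
    simp only [this, Finset.prod_const, Finset.card_univ, Fintype.card_fin]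
    have e : (Fin.succ (0 : Fin (k + 1)) : Fin (k + 2)) = 1 := rfl
    rw [e]
    simp
    ring
  rw [h1, Matrix.det_apply']
  refine (Finset.abs_sum_le_sum_abs _ _).trans ?_
  calc ∑ σ : Equiv.Perm (Fin (k + 2)), |(Equiv.Perm.sign σ : ℤ) * ∏ i, (tm ξ k * A) (σ i) i|
      ≤ ∑ σ : Equiv.Perm (Fin (k + 2)), H ^ k * v * v' := by
        refine Finset.sum_le_sum fun σ _ => ?_
        rw [abs_mul]
        have hs : |(((Equiv.Perm.sign σ : ℤˣ) : ℤ) : ℝ)| = 1 := by
          rcases Int.units_eq_one_or (Equiv.Perm.sign σ) with h | h <;> simp [h]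
        rw [hs, one_mul, Finset.abs_prod, ← hprod]
        rw [← Equiv.prod_comp σ (fun i => (if i = 0 then v else if i = 1 then v' else H))]
        exact Finset.prod_le_prod (fun i _ => abs_nonneg _) fun i _ => hb (σ i) i
    _ = (k + 2).factorial * (H ^ k * v * v') := by
        rw [Finset.sum_const, Finset.card_univ, Fintype.card_perm, Fintype.card_fin, nsmul_eq_mul]

end VolumeAux

open VolumeAux

/-- W-VOLUME -/
theorem volume2 (ξ : ℝ) (n : ℕ) : ∃ C : ℝ, 1 ≤ C ∧ ∀ N ≤ n, 1 ≤ N → ∀ H v v' : ℝ,
    0 < H → 0 < v → 0 < v' → spanQ (S2 ξ N H v v') = degreeLT ℚ (N + 1) →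
    n2 ξ N H v v' ≤ C * (H ^ (N - 1) * v * v') := by
  classical
  refine ⟨5 ^ (n + 1) * (n + 1).factorial, ?_, ?_⟩
  · have h1 : (1 : ℝ) ≤ 5 ^ (n + 1) := one_le_pow₀ (by norm_num)
    have h2 : (1 : ℝ) ≤ ((n + 1).factorial : ℝ) := by
      exact_mod_cast Nat.succ_le_of_lt (Nat.factorial_pos _)
    nlinarith
  · intro N hN hN1 H v v' hH hv hv' hspan
    obtain ⟨k, rfl⟩ : ∃ k, N = k + 1 := ⟨N - 1, by omega⟩
    have hdeg : ∀ P ∈ S2 ξ (k + 1) H v v', P.natDegree ≤ k + 1 := fun P hP => hP.1
    obtain ⟨r, P, hr, hPS, hPspan⟩ := exists_family (S2 ξ (k + 1) H v v') (k + 1) hdeg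
    rw [hspan] at hr hPspan
    have hr' : r = k + 1 + 1 := by rw [hr, finrank_degreeLT]
    subst hr'
    have hdet0 := det_ne_zero (k + 1) P hPspan
    have hfin := finite_S2 ξ (k + 1) H v v'
    obtain ⟨q, hqT, hqmax⟩ := Finset.exists_max_image
      (Fintype.piFinset fun _ : Fin (k + 1 + 1) => hfin.toFinset)
      (fun q => |(cm (k + 1) q).det|)
      ⟨P, Fintype.mem_piFinset.mpr fun i => hfin.mem_toFinset.mpr (hPS i)⟩
    have hqS : ∀ i, q i ∈ S2 ξ (k + 1) H v v' := fun i =>
      hfin.mem_toFinset.mp (Fintype.mem_piFinset.mp hqT i)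
    have hdq : (cm (k + 1) q).det ≠ 0 := by
      have h1 := hqmax P (Fintype.mem_piFinset.mpr fun i => hfin.mem_toFinset.mpr (hPS i))
      have h2 : 0 < |(cm (k + 1) P).det| := abs_pos.mpr hdet0
      exact abs_pos.mp (lt_of_lt_of_le h2 h1)
    have hcount := card_le_det (k + 1 + 1) (hfin.toFinset.image (cv (k + 1))) (cm (k + 1) q) hdq (by
      intro x hx i
      obtain ⟨Q, hQ, rfl⟩ := Finset.mem_image.mp hx
      rw [cm_update]
      refine hqmax _ (Fintype.mem_piFinset.mpr fun j => ?_)
      by_cases h : j = i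
      · subst h
        rw [Function.update_self]
        exact hQ
      · rw [Function.update_of_ne h]
        exact hfin.mem_toFinset.mpr (hqS j))
    have hcard : (hfin.toFinset.image (cv (k + 1))).card = (S2 ξ (k + 1) H v v').ncard := by
      rw [Finset.card_image_of_injOn, Set.ncard_eq_toFinset_card _ hfin]
      intro Q hQ Q' hQ' h
      exact cv_injective (hdeg Q (hfin.mem_toFinset.mp hQ)) (hdeg Q' (hfin.mem_toFinset.mp hQ')) h
    rw [hcard] at hcount
    have hdl := det_le ξ k H v v' hH hv hv' q hqS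
    have hV : 0 < H ^ k * v * v' := by positivity
    unfold n2
    have e1 : (((S2 ξ (k + 1) H v v').ncard : ℕ) : ℝ) ≤
        5 ^ (k + 1 + 1) * |((cm (k + 1) q).det : ℝ)| := by
      have h1 : (((S2 ξ (k + 1) H v v').ncard : ℕ) : ℝ) ≤
          ((5 ^ (k + 1 + 1) * (cm (k + 1) q).det.natAbs : ℕ) : ℝ) := by exact_mod_cast hcount
      rw [Nat.cast_mul, Nat.cast_pow, Nat.cast_natAbs, Int.cast_abs] at h1
      exact_mod_cast h1
    have e2 : (5 : ℝ) ^ (k + 1 + 1) ≤ 5 ^ (n + 1) := pow_le_pow_right₀ (by norm_num) (by omega)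
    have e3 : (((k + 2).factorial : ℕ) : ℝ) ≤ (((n + 1).factorial : ℕ) : ℝ) := by
      exact_mod_cast Nat.factorial_le (by omega)
    calc (((S2 ξ (k + 1) H v v').ncard : ℕ) : ℝ)
        ≤ 5 ^ (k + 1 + 1) * |((cm (k + 1) q).det : ℝ)| := e1
      _ ≤ 5 ^ (n + 1) * ((n + 1).factorial * (H ^ k * v * v')) := by
          refine mul_le_mul e2 (hdl.trans ?_) (abs_nonneg _) (by positivity)
          exact mul_le_mul_of_nonneg_right e3 hV.le
      _ = 5 ^ (n + 1) * (n + 1).factorial * (H ^ (k + 1 - 1) * v * v') := by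
          rw [Nat.add_sub_cancel]
          ring

end Pool.Agent.WR
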