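import Pool.Agent.WR.Convex
import Pool.Agent.WR.Volume

set_option autoImplicit false

/-!
The eikonal inequality when there is no common factor (`r1`).
-/

namespace Pool.Agent.WR

open Polynomial Pool.Agent.H81S

namespace R1Aux

/-- `X ^ i * Q` is small if `Q` is. -/
theorem X_pow_mul_mem (ξ : ℝ) (n m c i : ℕ) (hi : i ≤ c) (hc : c ≤ n) (H v v' : ℝ)
    (hv : 0 < v) (hvv : v ≤ v') (Q : ℤ[X]) (hQ : Q ∈ S1 ξ m H v)
    (hQ' : |aeval ξ (derivative Q)| ≤ v') :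
    X ^ i * Q ∈ S2 ξ (m + c) H (((n : ℝ) + 1) * (1 + |ξ|) ^ n * v)
      (((n : ℝ) + 1) * (1 + |ξ|) ^ n * v') := by
  obtain ⟨h1, h2, h3⟩ := hQ
  have hb : (1 : ℝ) ≤ 1 + |ξ| := by linarith [abs_nonneg ξ]
  have hin : i ≤ n := hi.trans hc
  have hp : |ξ| ^ i ≤ (1 + |ξ|) ^ n := by
    calc |ξ| ^ i ≤ (1 + |ξ|) ^ i := pow_le_pow_left₀ (abs_nonneg _) (by linarith) _
      _ ≤ (1 + |ξ|) ^ n := pow_le_pow_right₀ hb hin
  have hp' : |ξ| ^ (i - 1) ≤ (1 + |ξ|) ^ n := by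
    calc |ξ| ^ (i - 1) ≤ (1 + |ξ|) ^ (i - 1) := pow_le_pow_left₀ (abs_nonneg _) (by linarith) _
      _ ≤ (1 + |ξ|) ^ n := pow_le_pow_right₀ hb (by omega)
  have hB : (1 : ℝ) ≤ (1 + |ξ|) ^ n := one_le_pow₀ hb
  have hi' : (i : ℝ) ≤ n := by exact_mod_cast hin
  refine ⟨?_, ?_, ?_, ?_⟩
  · refine natDegree_mul_le.trans ?_
    rw [natDegree_X_pow]
    omega
  · rw [ht_X_pow_mul]
    exact h2
  · rw [map_mul, map_pow, aeval_X, abs_mul, abs_pow]
    calc |ξ| ^ i * |aeval ξ Q| ≤ (1 + |ξ|) ^ n * v := by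
          apply mul_le_mul hp h3 (abs_nonneg _) (by positivity)
      _ = 1 * ((1 + |ξ|) ^ n) * v := by ring
      _ ≤ ((n : ℝ) + 1) * (1 + |ξ|) ^ n * v := by
          gcongr
          linarith [(Nat.cast_nonneg n : (0 : ℝ) ≤ n)]
  · have hd : aeval ξ (derivative (X ^ i * Q)) =
        (i : ℝ) * ξ ^ (i - 1) * aeval ξ Q + ξ ^ i * aeval ξ (derivative Q) := by
      rw [derivative_mul, derivative_X_pow]
      simp
    rw [hd]
    calc |(i : ℝ) * ξ ^ (i - 1) * aeval ξ Q + ξ ^ i * aeval ξ (derivative Q)|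
        ≤ |(i : ℝ) * ξ ^ (i - 1) * aeval ξ Q| + |ξ ^ i * aeval ξ (derivative Q)| := abs_add_le _ _
      _ = (i : ℝ) * |ξ| ^ (i - 1) * |aeval ξ Q| + |ξ| ^ i * |aeval ξ (derivative Q)| := by
          rw [abs_mul, abs_mul, abs_mul, abs_pow, abs_pow, Nat.abs_cast]
      _ ≤ (n : ℝ) * (1 + |ξ|) ^ n * v' + (1 + |ξ|) ^ n * v' := by
          have h3' : |aeval ξ Q| ≤ v' := h3.trans hvv
          gcongr
      _ = ((n : ℝ) + 1) * (1 + |ξ|) ^ n * v' := by ring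

/-- the polynomials `X ^ i * Q` span everything -/
theorem span_eq (ξ : ℝ) (n m c : ℕ) (hc : c ≤ n) (H v v' : ℝ)
    (hv : 0 < v) (hvv : v ≤ v') (hd : ∀ Q ∈ S1 ξ m H v, |aeval ξ (derivative Q)| ≤ v')
    (hdeg : ∃ Q ∈ S1 ξ m H v, Q ≠ 0 ∧ Q.natDegree = m)
    (hgcd : ∀ g : ℚ[X], (∀ Q ∈ S1 ξ m H v, g ∣ Q.map (Int.castRingHom ℚ)) → IsUnit g)
    (hr : Module.finrank ℚ (spanQ (S1 ξ m H v)) + c = m + 1) :
    spanQ (S2 ξ (m + c) H (((n : ℝ) + 1) * (1 + |ξ|) ^ n * v)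
      (((n : ℝ) + 1) * (1 + |ξ|) ^ n * v')) = degreeLT ℚ (m + c + 1) := by
  set W := spanQ (S1 ξ m H v) with hW
  have hWle : W ≤ degreeLT ℚ (m + 1) := spanQ_le_degreeLT _ _ (fun P hP => hP.1)
  have hgr := growth W m hWle (by
    obtain ⟨Q, hQ, hQ0, hQm⟩ := hdeg
    refine ⟨Q.map (Int.castRingHom ℚ), Submodule.subset_span ⟨Q, hQ, rfl⟩, ?_, ?_⟩
    · exact (Polynomial.map_ne_zero_iff (RingHom.injective_int _)).2 hQ0
    · rw [natDegree_map_eq_of_injective (RingHom.injective_int _)]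
      exact hQm) (fun g hg => hgcd g (fun Q hQ => hg _ (Submodule.subset_span ⟨Q, hQ, rfl⟩))) c
  have h1 : iter W c ≤ spanQ (S2 ξ (m + c) H (((n : ℝ) + 1) * (1 + |ξ|) ^ n * v)
      (((n : ℝ) + 1) * (1 + |ξ|) ^ n * v')) := by
    refine (iter_spanQ_le _ c).trans (spanQ_mono ?_)
    rintro R ⟨i, hi, Q, hQ, rfl⟩
    exact X_pow_mul_mem ξ n m c i hi hc H v v' hv hvv Q hQ (hd Q hQ)
  have h2 : spanQ (S2 ξ (m + c) H (((n : ℝ) + 1) * (1 + |ξ|) ^ n * v)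
      (((n : ℝ) + 1) * (1 + |ξ|) ^ n * v')) ≤ degreeLT ℚ (m + c + 1) :=
    spanQ_le_degreeLT _ _ (fun P hP => hP.1)
  have hfin : Module.Finite ℚ (spanQ (S2 ξ (m + c) H (((n : ℝ) + 1) * (1 + |ξ|) ^ n * v)
      (((n : ℝ) + 1) * (1 + |ξ|) ^ n * v'))) := finite_spanQ _ (m + c) (fun P hP => hP.1)
  apply Submodule.eq_of_le_of_finrank_le h2
  rw [finrank_degreeLT]
  have h3 := Submodule.finrank_mono h1
  omega

/-- convexity of a sequence, summed up -/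
theorem convex_sum (l : ℕ → ℝ) (m c : ℕ) (hm : 1 ≤ m) (D : ℝ) (hD : 0 ≤ D)
    (h : ∀ i < c, 2 * l (m + i) ≤ D + l (m + i + 1) + l (m + i - 1)) :
    ∀ i ≤ c, l m + i * (l m - l (m - 1)) - (i : ℝ) ^ 2 * D ≤ l (m + i) ∧
      l m - l (m - 1) - i * D ≤ l (m + i) - l (m + i - 1) := by
  intro i
  induction i with
  | zero =>
    intro _
    simp
  | succ i ih =>
    intro hi
    obtain ⟨h1, h2⟩ := ih (by omega)
    have h3 := h i (by omega)
    have h4 : m + (i + 1) - 1 = m + i := by omega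
    have h5 : m + (i + 1) = m + i + 1 := by omega
    rw [h4, h5]
    push_cast
    have hi0 : (0 : ℝ) ≤ i := by positivity
    constructor
    · nlinarith [mul_nonneg hi0 hD]
    · linarith

end R1Aux

open R1Aux

/-- the eikonal inequality when there is no common factor -/
theorem r1 (ξ : ℝ) (n : ℕ) : ∃ C : ℝ, 0 ≤ C ∧ ∀ m ≤ n, 1 ≤ m → ∀ H v v' : ℝ, 1 ≤ H → 0 < v →
    v ≤ v' → (∀ Q ∈ S1 ξ m H v, |aeval ξ (derivative Q)| ≤ v') →
    (∃ Q ∈ S1 ξ m H v, Q ≠ 0 ∧ Q.natDegree = m) →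
    (∀ g : ℚ[X], (∀ Q ∈ S1 ξ m H v, g ∣ Q.map (Int.castRingHom ℚ)) → IsUnit g) →
    ∀ c : ℕ, Module.finrank ℚ (spanQ (S1 ξ m H v)) + c = m + 1 →
    Real.log (n1 ξ m H v) + c * (Real.log (n1 ξ m H v) - Real.log (n1 ξ (m - 1) H v)) ≤
      ((m : ℝ) + c - 1) * Real.log H + Real.log v + Real.log v' + C := by
  obtain ⟨C2, hC2, hconv⟩ := convex2 ξ (2 * n)
  obtain ⟨Cv, hCv, hvol⟩ := volume2 ξ (2 * n)
  set K : ℝ := ((n : ℝ) + 1) * (1 + |ξ|) ^ n with hK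
  have hK1 : 1 ≤ K := by
    have h1 : (1 : ℝ) ≤ (n : ℝ) + 1 := by linarith [(Nat.cast_nonneg n : (0 : ℝ) ≤ n)]
    have h2 : (1 : ℝ) ≤ (1 + |ξ|) ^ n := one_le_pow₀ (by linarith [abs_nonneg ξ])
    nlinarith
  have hlK : 0 ≤ Real.log K := Real.log_nonneg hK1
  have hlC2 : 0 ≤ Real.log C2 := Real.log_nonneg hC2
  have hlCv : 0 ≤ Real.log Cv := Real.log_nonneg hCv
  refine ⟨Real.log Cv + 2 * Real.log K + (n : ℝ) ^ 2 * Real.log C2, by positivity, ?_⟩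
  intro m hmn hm H v v' hH hv hvv hd hdeg hgcd c hr
  have hv' : 0 < v' := lt_of_lt_of_le hv hvv
  have hH0 : 0 < H := lt_of_lt_of_le one_pos hH
  -- `c ≤ m`
  have hcm : c ≤ m := by
    have hfin : Module.Finite ℚ (spanQ (S1 ξ m H v)) := finite_spanQ _ m (fun P hP => hP.1)
    have hne : spanQ (S1 ξ m H v) ≠ ⊥ := by
      obtain ⟨Q, hQ, hQ0, -⟩ := hdeg
      intro h
      have h1 : Q.map (Int.castRingHom ℚ) ∈ spanQ (S1 ξ m H v) :=
        Submodule.subset_span ⟨Q, hQ, rfl⟩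
      rw [h, Submodule.mem_bot] at h1
      exact hQ0 ((Polynomial.map_eq_zero_iff (RingHom.injective_int _)).1 h1)
    have h2 : Module.finrank ℚ (spanQ (S1 ξ m H v)) ≠ 0 := fun h =>
      hne (Submodule.finrank_eq_zero.1 h)
    omega
  have hcn : c ≤ n := hcm.trans hmn
  -- the volume bound
  have hspan := span_eq ξ n m c hcn H v v' hv hvv hd hdeg hgcd hr
  have hv1 := hvol (m + c) (by omega) (by omega) H (K * v) (K * v') hH0 (by positivity)
    (by positivity) hspan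
  have hmono : n2 ξ (m + c) H v v' ≤ n2 ξ (m + c) H (K * v) (K * v') := by
    apply n2_mono ξ le_rfl le_rfl
    · nlinarith
    · nlinarith
  set l : ℕ → ℝ := fun j => Real.log (n2 ξ j H v v') with hl
  have hpos : ∀ j, 0 < n2 ξ j H v v' := fun j =>
    lt_of_lt_of_le one_pos (one_le_n2 ξ j H v v' hH0.le hv.le hv'.le)
  have hlvol : l (m + c) ≤ Real.log Cv + 2 * Real.log K +
      (((m : ℝ) + c - 1) * Real.log H + Real.log v + Real.log v') := by
    have h1 : n2 ξ (m + c) H v v' ≤ Cv * (H ^ (m + c - 1) * (K * v) * (K * v')) :=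
      hmono.trans hv1
    have h2 := Real.log_le_log (hpos (m + c)) h1
    have hK0 : (0 : ℝ) < K := lt_of_lt_of_le one_pos hK1
    have h3 : ∀ K : ℝ, 0 < K → Real.log (Cv * (H ^ (m + c - 1) * (K * v) * (K * v'))) =
        Real.log Cv + 2 * Real.log K +
          (((m : ℝ) + c - 1) * Real.log H + Real.log v + Real.log v') := by
      intro K hK0
      rw [Real.log_mul (by positivity) (by positivity), Real.log_mul (by positivity)
        (by positivity), Real.log_mul (by positivity) (by positivity), Real.log_mul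
        (by positivity) (by positivity), Real.log_mul (by positivity) (by positivity),
        Real.log_pow]
      have h4 : ((m + c - 1 : ℕ) : ℝ) = (m : ℝ) + c - 1 := by
        rw [Nat.cast_sub (by omega)]
        push_cast
        ring
      rw [h4]
      ring
    rw [h3 K hK0] at h2
    exact h2
  -- convexity
  have hcs := (convex_sum l m c hm (Real.log C2) hlC2 (by
    intro i hi
    have h1 := hconv (m + i) (by omega) (by omega) H v v' hH0 hv hvv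
    have h2 := Real.log_le_log (by have := hpos (m + i); positivity) h1
    rw [Real.log_pow, Real.log_mul (by have := hpos (m + i + 1); positivity)
      (hpos _).ne', Real.log_mul (by positivity) (hpos _).ne'] at h2
    simpa [hl] using h2) c le_rfl).1
  have hcc : (c : ℝ) ^ 2 * Real.log C2 ≤ (n : ℝ) ^ 2 * Real.log C2 := by
    have : (c : ℝ) ≤ n := by exact_mod_cast hcn
    gcongr
  -- identification of the counts
  have e1 : n1 ξ m H v = n2 ξ m H v v' := by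
    unfold n1 n2
    congr 2
    ext Q
    exact ⟨fun hQ => ⟨hQ.1, hQ.2.1, hQ.2.2, hd Q hQ⟩, fun hQ => ⟨hQ.1, hQ.2.1, hQ.2.2.1⟩⟩
  have e2 : n1 ξ (m - 1) H v = n2 ξ (m - 1) H v v' := by
    unfold n1 n2
    congr 2
    ext Q
    exact ⟨fun hQ => ⟨hQ.1, hQ.2.1, hQ.2.2, hd Q ⟨hQ.1.trans (by omega), hQ.2.1, hQ.2.2⟩⟩,
      fun hQ => ⟨hQ.1, hQ.2.1, hQ.2.2.1⟩⟩
  rw [e1, e2]
  have e3 : Real.log (n2 ξ m H v v') = l m := rfl
  have e4 : Real.log (n2 ξ (m - 1) H v v') = l (m - 1) := rfl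
  rw [e3, e4]
  linarith

end Pool.Agent.WR
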