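import Pool.Agent.WR.Pack
import Pool.Agent.WR.PPhase
import Pool.Agent.WR.R1

set_option autoImplicit false

namespace Pool.Agent.WR

open Polynomial Pool.Agent.H81S

/-- arithmetic-geometric mean in the form used below -/
theorem amgm (c c' ρ R : ℝ) (hc : 0 ≤ c) (hc' : 0 ≤ c') (hρ : 0 ≤ ρ) (hR : R ≤ c * c') :
    2 * √(ρ * R) ≤ c' + c * ρ := by
  have h1 : ρ * R ≤ ((c' + c * ρ) / 2) ^ 2 := by
    have h2 : ρ * R ≤ ρ * (c * c') := mul_le_mul_of_nonneg_left hR hρ
    nlinarith [sq_nonneg (c' - c * ρ)]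
  have h3 : √(ρ * R) ≤ (c' + c * ρ) / 2 := by
    rw [Real.sqrt_le_left (by positivity)]
    exact h1
  linarith

/-- in the phase where everything is a multiple of `P` the rank is at most `m + 1 - d` -/
theorem finrank_of_dvd (P : ℤ[X]) (hP0 : P ≠ 0) (m : ℕ) (hdm : P.natDegree ≤ m) (S : Set ℤ[X])
    (hS : ∀ Q ∈ S, Q.natDegree ≤ m) (hdvd : ∀ Q ∈ S, P ∣ Q) :
    Module.finrank ℚ (spanQ S) + P.natDegree ≤ m + 1 := by
  have hPQ : P.map (Int.castRingHom ℚ) ≠ 0 := by
    rw [Ne, Polynomial.map_eq_zero_iff (RingHom.injective_int _)]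
    exact hP0
  rw [spanQ_mul P S hdvd, finrank_map_mulBy hPQ]
  have h1 : ∀ Q ∈ {Q : ℤ[X] | P * Q ∈ S}, Q.natDegree ≤ m - P.natDegree := by
    intro Q hQ
    by_cases hQ0 : Q = 0
    · rw [hQ0]; simp
    · have h2 := hS _ hQ
      rw [natDegree_mul hP0 hQ0] at h2
      omega
  have h3 := finrank_spanQ_le _ _ h1
  omega

/-- if `P` is irreducible and does not divide all members of `S` (which contains `P`), then the
members of `S` have no common factor over `ℚ`. -/
theorem gcd_trivial (P : ℤ[X]) (hP : Irreducible P) (hd : 1 ≤ P.natDegree) (S : Set ℤ[X])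
    (hPS : P ∈ S) (hn : ∃ Q ∈ S, ¬ P ∣ Q) (g : ℚ[X])
    (hg : ∀ Q ∈ S, g ∣ Q.map (Int.castRingHom ℚ)) : IsUnit g := by
  obtain ⟨Q, hQS, hPQ⟩ := hn
  have hprim : P.IsPrimitive := hP.isPrimitive (by omega)
  have hirr : Irreducible (P.map (Int.castRingHom ℚ)) :=
    (IsPrimitive.Int.irreducible_iff_irreducible_map_cast hprim).1 hP
  obtain ⟨f, hf⟩ := hg P hPS
  rcases hirr.isUnit_or_isUnit hf with h | h
  · exact h
  · exfalso
    apply hPQ
    have h1 : P.map (Int.castRingHom ℚ) ∣ Q.map (Int.castRingHom ℚ) := by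
      have h2 : Associated (P.map (Int.castRingHom ℚ)) g := by
        rw [hf]
        exact (associated_mul_unit_left g f h)
      exact h2.dvd.trans (hg Q hQS)
    exact (IsPrimitive.Int.dvd_iff_map_cast_dvd_map_cast P Q hprim).2 h1

/-- rank of a set of polynomials of degree at most `m`, in the real form used below -/
theorem one_le_exp_of_nonneg {x : ℝ} (h : 0 ≤ x) : 1 ≤ Real.exp x := Real.one_le_exp h

/-- The descent step from degree `m` to degree `m - 1`. -/
theorem step (ξ : ℝ) (n : ℕ) (K₀ KD θ : ℝ) (hK₀ : (1 + |ξ|) ^ n ≤ K₀) (hKD : 1 ≤ KD)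
    (hθ : 0 ≤ θ) : ∃ C : ℝ, 0 ≤ C ∧ ∀ P : ℤ[X], Irreducible P → 1 ≤ P.natDegree →
    aeval ξ P ≠ 0 → ∀ m : ℕ, P.natDegree < m → m ≤ n → ∀ ρ : ℝ, 0 < ρ →
    Real.log (ht P) ≤ ρ * m → C ≤ Real.log (ht P) → K₀ * |aeval ξ P| ≤ 1 →
    (∀ Q ∈ S1 ξ m (Real.exp (ρ * m)) (K₀ * |aeval ξ P|),
      |aeval ξ (derivative Q)| ≤ KD * (K₀ * |aeval ξ P|) * Real.exp ((θ * m + 1) * (ρ * m))) →
    2 * (-Real.log (K₀ * |aeval ξ P|)) + C ≤
      (θ * m + 1) * (ρ * m) + P.natDegree * (ρ * m) + m * Real.log (ht P) →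
    0 ≤ 2 * (-Real.log (K₀ * |aeval ξ P|)) - (θ * m + 1) * (ρ * m) - m * (ρ * m) +
      Real.log (n1 ξ m (Real.exp (ρ * m)) (K₀ * |aeval ξ P|)) - C →
    Real.log (n1 ξ m (Real.exp (ρ * m)) (K₀ * |aeval ξ P|)) - m ^ 2 * ρ +
      2 * √(ρ * (2 * (-Real.log (K₀ * |aeval ξ P|)) - (θ * m + 1) * (ρ * m) - m * (ρ * m) +
      Real.log (n1 ξ m (Real.exp (ρ * m)) (K₀ * |aeval ξ P|)) - C)) - 2 * ρ - C ≤
      Real.log (n1 ξ (m - 1) (Real.exp (ρ * (m - 1))) (K₀ * |aeval ξ P|)) - (m - 1) ^ 2 * ρ := by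
  have hK₀1 : 1 ≤ K₀ := le_trans (one_le_pow₀ (by linarith [abs_nonneg ξ])) hK₀
  obtain ⟨Cp, hCp1, hCp⟩ := pack ξ n
  obtain ⟨Cu, hCu1, hCu⟩ := pphase_upper ξ n K₀ hK₀1
  obtain ⟨cl, hcl0, hcl⟩ := pphase_lower ξ n
  obtain ⟨Cr, hCr0, hCr⟩ := r1 ξ n
  have hlCp : 0 ≤ Real.log Cp := Real.log_nonneg hCp1
  have hlCu : 0 ≤ Real.log Cu := Real.log_nonneg hCu1
  have hlKD : 0 ≤ Real.log KD := Real.log_nonneg hKD
  set Cd : ℝ := Real.log Cu + |Real.log cl| with hCd
  have hCd0 : 0 ≤ Cd := by positivity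
  refine ⟨Real.log Cp + Cr + Real.log KD + Cd * (n + 2), by positivity, ?_⟩
  intro P hirr hd1 hPξ m hdm hmn ρ hρ hPm hCP hv1 hder hPC hR0
  set C : ℝ := Real.log Cp + Cr + Real.log KD + Cd * (n + 2) with hC
  have hn0 : (0 : ℝ) ≤ n := Nat.cast_nonneg n
  have hCdC : Cd ≤ C := by nlinarith [mul_nonneg hCd0 hn0]
  have hCd1 : Cd * (n + 1) ≤ C := by nlinarith [mul_nonneg hCd0 hn0]
  have hP0 : P ≠ 0 := hirr.ne_zero
  have hPpos : 0 < |aeval ξ P| := abs_pos.2 hPξ
  set v : ℝ := K₀ * |aeval ξ P| with hv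
  have hv0 : 0 < v := by positivity
  set L : ℝ := -Real.log v with hL
  set h : ℝ := ρ * m with hh
  set H : ℝ := Real.exp h with hH
  set hP : ℝ := Real.log (ht P) with hhP
  have hm1 : 1 ≤ m := by omega
  have hmR : (1 : ℝ) ≤ m := by exact_mod_cast hm1
  have hh0 : 0 < h := by positivity
  have hH1 : 1 ≤ H := Real.one_le_exp hh0.le
  have hH0 : 0 < H := Real.exp_pos _
  have hlogH : Real.log H = h := Real.log_exp _
  have hhtP1 : (1 : ℝ) ≤ ht P := ht_pos_real hP0
  have hhtP0 : (0 : ℝ) < ht P := by linarith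
  have hhtPH : (ht P : ℝ) ≤ H := by
    rw [hH, ← Real.log_le_iff_le_exp hhtP0]; exact hPm
  set S : Set ℤ[X] := S1 ξ m H v with hS
  set F : ℝ := Real.log (n1 ξ m H v) with hF
  set G : ℝ := Real.log (n1 ξ (m - 1) H v) with hG
  set F' : ℝ := Real.log (n1 ξ (m - 1) (Real.exp (ρ * (m - 1))) v) with hF'
  set R : ℝ := 2 * L - (θ * m + 1) * h - m * h + F - C with hR
  have hn1 : 1 ≤ n1 ξ m H v := one_le_n1 ξ m H v hH0.le hv0.le
  have hn1' : 1 ≤ n1 ξ (m - 1) H v := one_le_n1 ξ _ H v hH0.le hv0.le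
  -- shifts of `P` belong to `S`
  have hshift : ∀ i : ℕ, i + P.natDegree ≤ m → X ^ i * P ∈ S := by
    intro i hi
    refine ⟨?_, ?_, ?_⟩
    · rw [natDegree_X_pow_mul _ hP0]; omega
    · rw [ht_X_pow_mul]; exact hhtPH
    · have h1 : aeval ξ (X ^ i * P) = ξ ^ i * aeval ξ P := by simp
      rw [h1, abs_mul, abs_pow, hv]
      apply mul_le_mul_of_nonneg_right _ hPpos.le
      calc |ξ| ^ i ≤ (1 + |ξ|) ^ i := by
            apply pow_le_pow_left₀ (abs_nonneg _); linarith [abs_nonneg ξ]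
        _ ≤ (1 + |ξ|) ^ n := by
            apply pow_le_pow_right₀
            · linarith [abs_nonneg ξ]
            · omega
        _ ≤ K₀ := hK₀
  have hPS : P ∈ S := by
    have := hshift 0 (by omega)
    simpa using this
  have hSdeg : ∀ Q ∈ S, Q.natDegree ≤ m := fun Q hQ => hQ.1
  have hrank := finrank_spanQ_le S m hSdeg
  obtain ⟨c, hc⟩ : ∃ c : ℕ, Module.finrank ℚ (spanQ S) + c = m + 1 :=
    ⟨m + 1 - Module.finrank ℚ (spanQ S), by omega⟩
  -- key claim
  have key : 0 ≤ h - (F - G) ∧ R ≤ (c : ℝ) * (h - (F - G)) := by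
    by_cases hcase : ∀ Q ∈ S, P ∣ Q
    · have hr := finrank_of_dvd P hP0 m (by omega) S hSdeg hcase
      have hcd : P.natDegree ≤ c := by omega
      have hcdR : (P.natDegree : ℝ) ≤ c := by exact_mod_cast hcd
      have hu := hCu m hmn P hPξ (by omega) H hhtPH hcase
      have hl := hcl (m - 1) (by omega) P hP0 (by omega) H hhtPH
      have hq1 : 1 ≤ H / ht P := by rw [le_div_iff₀ hhtP0]; linarith
      have hq0 : 0 < H / ht P := by linarith
      have hlogq : Real.log (H / ht P) = h - hP := by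
        rw [Real.log_div hH0.ne' hhtP0.ne', hlogH]
      have hFle : F ≤ Real.log Cu + (m - P.natDegree : ℝ) * (h - hP) := by
        have h1 : F ≤ Real.log (Cu * (H / ht P) ^ (m - P.natDegree)) :=
          Real.log_le_log (by linarith) hu
        rw [Real.log_mul (by linarith) (pow_pos hq0 _).ne', Real.log_pow, hlogq,
          Nat.cast_sub (by omega)] at h1
        exact h1
      have hGge : Real.log cl + (m - 1 - P.natDegree : ℝ) * (h - hP) ≤ G := by
        have h0 : n1 ξ (m - 1) H |aeval ξ P| ≤ n1 ξ (m - 1) H v := by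
          apply n1_mono ξ le_rfl le_rfl
          rw [hv]
          exact le_mul_of_one_le_left hPpos.le hK₀1
        have h1 : Real.log (cl * (H / ht P) ^ (m - 1 - P.natDegree)) ≤ G :=
          Real.log_le_log (by positivity) (hl.trans h0)
        rw [Real.log_mul hcl0.ne' (pow_pos hq0 _).ne', Real.log_pow, hlogq,
          Nat.cast_sub (by omega), Nat.cast_sub (by omega)] at h1
        push_cast at h1
        exact h1
      have hcl' : -|Real.log cl| ≤ Real.log cl := neg_abs_le _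
      have hc' : hP - Cd ≤ h - (F - G) := by
        have e1 : (m - P.natDegree : ℝ) * (h - hP) - (m - 1 - P.natDegree : ℝ) * (h - hP) = h - hP := by
          ring
        rw [hCd]; linarith
      have hc'0 : 0 ≤ h - (F - G) := by linarith
      refine ⟨hc'0, ?_⟩
      have hdR : (1 : ℝ) ≤ P.natDegree := by exact_mod_cast hd1
      have hdn : (P.natDegree : ℝ) ≤ n := by exact_mod_cast (by omega : P.natDegree ≤ n)
      have h2 : (P.natDegree : ℝ) * (hP - Cd) ≤ (c : ℝ) * (h - (F - G)) := by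
        calc (P.natDegree : ℝ) * (hP - Cd) ≤ (P.natDegree : ℝ) * (h - (F - G)) := by
              apply mul_le_mul_of_nonneg_left hc'; linarith
          _ ≤ (c : ℝ) * (h - (F - G)) := mul_le_mul_of_nonneg_right hcdR hc'0
      refine le_trans ?_ h2
      have hCuCd : Real.log Cu ≤ Cd := by rw [hCd]; linarith [abs_nonneg (Real.log cl)]
      have h3 : (P.natDegree : ℝ) * Cd ≤ n * Cd := mul_le_mul_of_nonneg_right hdn hCd0
      have h4 : (m - P.natDegree : ℝ) * (h - hP) =
          m * h - P.natDegree * h - m * hP + P.natDegree * hP := by ring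
      have h5 : (P.natDegree : ℝ) * (hP - Cd) = P.natDegree * hP - P.natDegree * Cd := by ring
      have h6 : (n : ℝ) * Cd + Cd ≤ C := by linarith [hCd1, mul_comm (n : ℝ) Cd,
        (by ring : Cd * ((n : ℝ) + 1) = n * Cd + Cd)]
      rw [hR]
      linarith
    · push Not at hcase
      have hg := gcd_trivial P hirr hd1 S hPS hcase
      have hv' : v ≤ KD * v * Real.exp ((θ * m + 1) * h) := by
        have e1 : 1 ≤ Real.exp ((θ * m + 1) * h) := Real.one_le_exp (by positivity)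
        have e2 : v ≤ KD * v := by nlinarith
        have e3 : 0 < KD * v := by positivity
        nlinarith
      have hmain := hCr m hmn hm1 H v (KD * v * Real.exp ((θ * m + 1) * h)) hH1 hv0 hv' hder
        ⟨X ^ (m - P.natDegree) * P, hshift _ (by omega), mul_ne_zero (pow_ne_zero _ X_ne_zero) hP0,
          by rw [natDegree_X_pow_mul _ hP0]; omega⟩ hg c hc
      rw [hlogH, Real.log_mul (by positivity) (Real.exp_pos _).ne', Real.log_exp,
        Real.log_mul (by linarith) hv0.ne'] at hmain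
      have hlv : Real.log v = -L := by rw [hL]; ring
      rw [hlv] at hmain
      have h4 : R + h ≤ (c : ℝ) * (h - (F - G)) := by
        rw [hR]
        have e0 : 0 ≤ Cd * (n + 2) := by positivity
        have e1 : (c : ℝ) * (h - (F - G)) = c * h - c * (F - G) := by ring
        have e2 : ((m : ℝ) + c - 1) * h = m * h + c * h - h := by ring
        rw [e1]
        rw [e2] at hmain
        linarith
      have h5 : 0 < (c : ℝ) * (h - (F - G)) := by linarith
      have hc0 : (0 : ℝ) ≤ c := Nat.cast_nonneg c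
      have h6 : 0 < h - (F - G) := by
        by_contra hneg
        push Not at hneg
        have := mul_nonpos_of_nonneg_of_nonpos hc0 hneg
        linarith
      exact ⟨h6.le, by linarith⟩
  -- packing at degree `m - 1`
  have hcast : ((m - 1 : ℕ) : ℝ) = (m : ℝ) - 1 := by
    rw [Nat.cast_sub hm1]; simp
  have hpk := hCp (m - 1) (by omega) H (Real.exp (ρ * (m - 1))) v (Real.exp_pos _)
    (by rw [hH]; apply Real.exp_le_exp.2; rw [hh]; nlinarith) hv0
  have hratio : H / Real.exp (ρ * (m - 1)) = Real.exp ρ := by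
    rw [hH, ← Real.exp_sub]
    congr 1
    rw [hh]; ring
  rw [hratio] at hpk
  have hr' : Module.finrank ℚ (spanQ (S1 ξ (m - 1) H v)) ≤ Module.finrank ℚ (spanQ S) := by
    have := finite_spanQ S m hSdeg
    exact Submodule.finrank_mono (spanQ_mono (S1_mono ξ (by omega) le_rfl le_rfl))
  have hn1'' : 1 ≤ n1 ξ (m - 1) (Real.exp (ρ * (m - 1))) v :=
    one_le_n1 ξ _ _ v (Real.exp_pos _).le hv0.le
  have hGle : G ≤ Real.log Cp + (m + 1 - c : ℝ) * ρ + F' := by
    have h1 : G ≤ Real.log (Cp * Real.exp ρ ^ (Module.finrank ℚ (spanQ (S1 ξ (m - 1) H v))) *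
        n1 ξ (m - 1) (Real.exp (ρ * (m - 1))) v) := Real.log_le_log (by linarith) hpk
    rw [Real.log_mul (by positivity) (by linarith), Real.log_mul (by linarith) (by positivity),
      Real.log_pow, Real.log_exp] at h1
    have h2 : (Module.finrank ℚ (spanQ (S1 ξ (m - 1) H v)) : ℝ) ≤ m + 1 - c := by
      have h3 : Module.finrank ℚ (spanQ (S1 ξ (m - 1) H v)) + c ≤ m + 1 := by omega
      have h4 : (Module.finrank ℚ (spanQ (S1 ξ (m - 1) H v)) : ℝ) + c ≤ m + 1 := by exact_mod_cast h3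
      linarith
    have h3 := mul_le_mul_of_nonneg_right h2 hρ.le
    linarith
  have hag := amgm c (h - (F - G)) ρ R (Nat.cast_nonneg c) key.1 hρ.le key.2
  have hrest : 0 ≤ Cr + Real.log KD + Cd * (n + 2) := by positivity
  have e1 : (m + 1 - c : ℝ) * ρ = m * ρ + ρ - c * ρ := by ring
  have e2 : ((m : ℝ) - 1) ^ 2 * ρ = m ^ 2 * ρ - 2 * (m * ρ) + ρ := by ring
  have e3 : h = m * ρ := by rw [hh]; ring
  rw [e2]
  rw [e1] at hGle
  rw [e3] at hag
  linarith

end Pool.Agent.WR
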